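import Pool.Agent.Lib.BMR.Ball

/-!
The expected area of the `2^(-n)`-neighbourhood of planar Brownian motion is `O(1/n)`.
-/

open MeasureTheory Set Filter Topology ProbabilityTheory

namespace Pool.Agent.BMR

set_option linter.unusedSectionVars false

variable {Ω : Type} [MeasurableSpace Ω] {P : Measure Ω} {B : ℝ → Ω → ℂ}

/-- The process on the grid of mesh `1 / 2 ^ m`, stopped at index `N`. -/
noncomputable def gp (B : ℝ → Ω → ℂ) (m N : ℕ) (ω : Ω) (q : ℕ × Bool) : ℝ :=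
  co B (((min q.1 N : ℕ) : ℝ) / 2 ^ m, q.2) ω

/-- The coordinates with index `k` are within `r` of `z`. -/
def hs (z : ℝ × ℝ) (r : ℝ) (k : ℕ) : Set (ℕ × Bool → ℝ) :=
  {y | |y (k, true) - z.1| ≤ r ∧ |y (k, false) - z.2| ≤ r}

/-- First hit at `k`. -/
def fh (z : ℝ × ℝ) (r : ℝ) (k : ℕ) : Set (ℕ × Bool → ℝ) :=
  hs z r k ∩ ⋂ j ∈ Finset.range k, (hs z r j)ᶜ

lemma measurableSet_hs (z : ℝ × ℝ) (r : ℝ) (k : ℕ) : MeasurableSet (hs z r k) := by
  have h1 : Measurable fun y : ℕ × Bool → ℝ => |y (k, true) - z.1| := by fun_prop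
  have h2 : Measurable fun y : ℕ × Bool → ℝ => |y (k, false) - z.2| := by fun_prop
  exact (h1 measurableSet_Iic).inter (h2 measurableSet_Iic)

lemma measurableSet_fh (z : ℝ × ℝ) (r : ℝ) (k : ℕ) : MeasurableSet (fh z r k) :=
  (measurableSet_hs z r k).inter
    (Finset.measurableSet_biInter _ fun j _ => (measurableSet_hs z r j).compl)

lemma grid_mem {k m : ℕ} (h : k ≤ 2 ^ m) : ((k : ℕ) : ℝ) / 2 ^ m ∈ Set.Icc (0 : ℝ) 1 := by
  refine ⟨by positivity, ?_⟩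
  rw [div_le_one (by positivity)]
  exact_mod_cast h

lemma IsPBM.aemeasurable_gp (h : IsPBM P B) {m N : ℕ} (hN : N ≤ 2 ^ m) :
    AEMeasurable (fun ω => gp B m N ω) P :=
  aemeasurable_pi_lambda _ fun _ => h.aemeasurable_co _ (grid_mem ((min_le_right _ _).trans hN))

/-- The increment from `k` to `l` is small. -/
def sm (B : ℝ → Ω → ℂ) (m : ℕ) (r : ℝ) (k l : ℕ) : Set Ω :=
  {ω | |(B ((l : ℝ) / 2 ^ m) ω).re - (B ((k : ℝ) / 2 ^ m) ω).re| ≤ r ∧
    |(B ((l : ℝ) / 2 ^ m) ω).im - (B ((k : ℝ) / 2 ^ m) ω).im| ≤ r}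

/-- First hit of the grid process. -/
def fhp (B : ℝ → Ω → ℂ) (m : ℕ) (z : ℝ × ℝ) (r : ℝ) (k : ℕ) : Set Ω :=
  (fun ω => gp B m k ω) ⁻¹' fh z r k

lemma mem_fhp {m : ℕ} {z : ℝ × ℝ} {r : ℝ} {k : ℕ} {ω : Ω} : ω ∈ fhp B m z r k ↔
    (|(B ((k : ℝ) / 2 ^ m) ω).re - z.1| ≤ r ∧ |(B ((k : ℝ) / 2 ^ m) ω).im - z.2| ≤ r) ∧
    ∀ j < k, ¬ (|(B ((j : ℝ) / 2 ^ m) ω).re - z.1| ≤ r ∧
      |(B ((j : ℝ) / 2 ^ m) ω).im - z.2| ≤ r) := by
  unfold fhp fh hs gp
  simp only [mem_preimage, mem_inter_iff, Set.mem_ofPred_eq, min_self, co, if_true, mem_iInter,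
    Finset.mem_range, mem_compl_iff, Bool.false_eq_true, if_false]
  refine and_congr Iff.rfl (forall₂_congr fun j hj => ?_)
  rw [min_eq_left hj.le]

lemma IsPBM.null_sm (h : IsPBM P B) {m : ℕ} (r : ℝ) {k l : ℕ} (hk : k ≤ 2 ^ m) (hl : l ≤ 2 ^ m) :
    NullMeasurableSet (sm B m r k l) P := by
  have a1 := (h.aemeasurable_co ((l : ℝ) / 2 ^ m, true) (grid_mem hl)).sub
    (h.aemeasurable_co ((k : ℝ) / 2 ^ m, true) (grid_mem hk))
  have a2 := (h.aemeasurable_co ((l : ℝ) / 2 ^ m, false) (grid_mem hl)).sub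
    (h.aemeasurable_co ((k : ℝ) / 2 ^ m, false) (grid_mem hk))
  have m1 : MeasurableSet {x : ℝ | |x| ≤ r} := by
    have : Measurable fun x : ℝ => |x| := by fun_prop
    exact this measurableSet_Iic
  have b1 := a1.nullMeasurableSet_preimage m1
  have b2 := a2.nullMeasurableSet_preimage m1
  have e : sm B m r k l = (co B ((l : ℝ) / 2 ^ m, true) - co B ((k : ℝ) / 2 ^ m, true)) ⁻¹'
      {x : ℝ | |x| ≤ r} ∩ (co B ((l : ℝ) / 2 ^ m, false) - co B ((k : ℝ) / 2 ^ m, false)) ⁻¹'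
      {x : ℝ | |x| ≤ r} := by
    ext ω
    simp [sm, co]
  rw [e]
  exact b1.inter b2

lemma IsPBM.null_fhp (h : IsPBM P B) {m : ℕ} (z : ℝ × ℝ) (r : ℝ) {k : ℕ} (hk : k ≤ 2 ^ m) :
    NullMeasurableSet (fhp B m z r k) P :=
  (h.aemeasurable_gp hk).nullMeasurableSet_preimage (measurableSet_fh z r k)

/-- Independence of the first hit and the increment. -/
lemma IsPBM.indep_fhp [IsFiniteMeasure P] (h : IsPBM P B) {m : ℕ} (z : ℝ × ℝ) (r : ℝ) {k l : ℕ}
    (hkl : k ≤ l) (hl : l ≤ 2 ^ m) :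
    P (fhp B m z r k ∩ sm B m r k l) = P (fhp B m z r k) * P (sm B m r k l) := by
  have hkl' : (k : ℝ) / 2 ^ m ≤ (l : ℝ) / 2 ^ m := by
    have : (k : ℝ) ≤ l := by exact_mod_cast hkl
    gcongr
  have h1 := h.indep_past (T := ℕ) (fun j => ((min j k : ℕ) : ℝ) / 2 ^ m) (s := (k : ℝ) / 2 ^ m)
    (t := (l : ℝ) / 2 ^ m) (by positivity) hkl' (grid_mem hl).2 (by
      intro j
      refine ⟨by positivity, ?_⟩
      have : ((min j k : ℕ) : ℝ) ≤ k := by exact_mod_cast min_le_right j k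
      gcongr)
  have m1 : MeasurableSet {y : Bool → ℝ | |y true| ≤ r ∧ |y false| ≤ r} := by
    have g1 : Measurable fun y : Bool → ℝ => |y true| := by fun_prop
    have g2 : Measurable fun y : Bool → ℝ => |y false| := by fun_prop
    exact (g1 measurableSet_Iic).inter (g2 measurableSet_Iic)
  have h2 := h1.measure_inter_preimage_eq_mul _ _ (measurableSet_fh z r k) m1
  have e : sm B m r k l = (fun ω (b : Bool) => co B ((l : ℝ) / 2 ^ m, b) ω -
      co B ((k : ℝ) / 2 ^ m, b) ω) ⁻¹' {y : Bool → ℝ | |y true| ≤ r ∧ |y false| ≤ r} := by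
    ext ω
    simp [sm, co]
  rw [e]
  exact h2

/-- The event that the grid process is close to `z` at index `l`. -/
def cl (B : ℝ → Ω → ℂ) (m : ℕ) (z : ℝ × ℝ) (r : ℝ) (l : ℕ) : Set Ω :=
  {ω | |(B ((l : ℝ) / 2 ^ m) ω).re - z.1| ≤ r ∧ |(B ((l : ℝ) / 2 ^ m) ω).im - z.2| ≤ r}

/-- For fixed `l` the first hits are disjoint. -/
lemma IsPBM.sum_le_cl (h : IsPBM P B) {m : ℕ} (z : ℝ × ℝ) (r : ℝ) {M l : ℕ}
    (hM : M ≤ 2 ^ m) (hl : l ≤ 2 ^ m) :
    ∑ k ∈ Finset.range (M + 1), P (fhp B m z r k ∩ sm B m r k l) ≤ P (cl B m z (2 * r) l) := by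
  rw [← measure_biUnion_finset₀]
  · refine measure_mono ?_
    intro ω hω
    simp only [mem_iUnion, exists_prop] at hω
    obtain ⟨k, -, h1, h2⟩ := hω
    rw [mem_fhp] at h1
    obtain ⟨⟨a1, a2⟩, -⟩ := h1
    obtain ⟨b1, b2⟩ := h2
    refine ⟨?_, ?_⟩
    · have := abs_add_le ((B ((l : ℝ) / 2 ^ m) ω).re - (B ((k : ℝ) / 2 ^ m) ω).re)
        ((B ((k : ℝ) / 2 ^ m) ω).re - z.1)
      rw [sub_add_sub_cancel] at this
      linarith
    · have := abs_add_le ((B ((l : ℝ) / 2 ^ m) ω).im - (B ((k : ℝ) / 2 ^ m) ω).im)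
        ((B ((k : ℝ) / 2 ^ m) ω).im - z.2)
      rw [sub_add_sub_cancel] at this
      linarith
  · intro k hk k' hk' hne
    refine Disjoint.aedisjoint ?_
    rw [Set.disjoint_left]
    rintro ω ⟨h1, -⟩ ⟨h2, -⟩
    rw [mem_fhp] at h1 h2
    rcases lt_or_gt_of_ne hne with h3 | h3
    · exact h2.2 k h3 h1.1
    · exact h1.2 k' h3 h2.1
  · intro k hk
    have hk' : k ≤ 2 ^ m := (Nat.lt_succ_iff.mp (Finset.mem_range.mp hk)).trans hM
    exact (h.null_fhp z r hk').inter (h.null_sm r hk' hl)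

/-- The lower bound for the expected number of returns. -/
noncomputable def gr (m : ℕ) (r : ℝ) (J M : ℕ) : ENNReal :=
  ∑ j ∈ Finset.Icc J M, ENNReal.ofReal (r ^ 2 / (9 * ((j : ℝ) / 2 ^ m)))

/-- The renewal inequality. -/
theorem IsPBM.renewal [IsFiniteMeasure P] (h : IsPBM P B) {m : ℕ} (z : ℝ × ℝ) {r : ℝ}
    (hr : 0 ≤ r) {J M : ℕ} (hJ : 0 < J) (hJr : r ^ 2 ≤ (J : ℝ) / 2 ^ m) (hM : 2 * M ≤ 2 ^ m) :
    P {ω | ∃ k ≤ M, ω ∈ cl B m z r k} * gr m r J M ≤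
      ∑ l ∈ Finset.range (2 * M + 1), P (cl B m z (2 * r) l) := by
  have hMm : M ≤ 2 ^ m := by omega
  -- the first hits cover
  have h1 : P {ω | ∃ k ≤ M, ω ∈ cl B m z r k} ≤ ∑ k ∈ Finset.range (M + 1), P (fhp B m z r k) := by
    refine le_trans (measure_mono ?_) (measure_biUnion_finset_le _ _)
    rintro ω ⟨k, hk, hω⟩
    have hex : ∃ k, ω ∈ cl B m z r k := ⟨k, hω⟩
    classical
    simp only [mem_iUnion, exists_prop, Finset.mem_range]
    refine ⟨Nat.find hex, ?_, ?_⟩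
    · have := Nat.find_min' hex hω
      omega
    · rw [mem_fhp]
      exact ⟨Nat.find_spec hex, fun j hj => Nat.find_min hex hj⟩
  calc P {ω | ∃ k ≤ M, ω ∈ cl B m z r k} * gr m r J M
      ≤ (∑ k ∈ Finset.range (M + 1), P (fhp B m z r k)) * gr m r J M := mul_le_mul' h1 le_rfl
    _ = ∑ k ∈ Finset.range (M + 1), P (fhp B m z r k) * gr m r J M := by rw [Finset.sum_mul]
    _ ≤ ∑ k ∈ Finset.range (M + 1), ∑ l ∈ Finset.range (2 * M + 1),
        P (fhp B m z r k ∩ sm B m r k l) := by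
      refine Finset.sum_le_sum fun k hk => ?_
      have hk' : k ≤ M := Nat.lt_succ_iff.mp (Finset.mem_range.mp hk)
      unfold gr
      rw [Finset.mul_sum]
      have h2 : ∀ j ∈ Finset.Icc J M, P (fhp B m z r k) *
          ENNReal.ofReal (r ^ 2 / (9 * ((j : ℝ) / 2 ^ m))) ≤
          P (fhp B m z r k ∩ sm B m r k (k + j)) := by
        intro j hj
        rw [Finset.mem_Icc] at hj
        have hkj : k + j ≤ 2 ^ m := by omega
        rw [h.indep_fhp z r (Nat.le_add_right k j) hkj]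
        refine mul_le_mul' le_rfl ?_
        have e1 : ((k + j : ℕ) : ℝ) / 2 ^ m - (k : ℝ) / 2 ^ m = (j : ℝ) / 2 ^ m := by
          push_cast
          ring
        have hj0 : (0 : ℝ) < j := by exact_mod_cast hJ.trans_le hj.1
        have hlt : (k : ℝ) / 2 ^ m < ((k + j : ℕ) : ℝ) / 2 ^ m := by
          rw [← sub_pos, e1]
          positivity
        have := h.ball (s := (k : ℝ) / 2 ^ m) (t := ((k + j : ℕ) : ℝ) / 2 ^ m) (r := r)
          (by positivity) hlt (grid_mem hkj).2 hr (by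
            rw [e1]
            refine hJr.trans ?_
            have : (J : ℝ) ≤ j := by exact_mod_cast hj.1
            gcongr)
        rw [e1] at this
        exact this
      refine (Finset.sum_le_sum h2).trans ?_
      have h3 : ∑ j ∈ Finset.Icc J M, P (fhp B m z r k ∩ sm B m r k (k + j)) =
          ∑ l ∈ (Finset.Icc J M).map (addLeftEmbedding k),
            P (fhp B m z r k ∩ sm B m r k l) := by
        rw [Finset.sum_map]
        rfl
      rw [h3]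
      refine Finset.sum_le_sum_of_subset ?_
      intro l hl
      rw [Finset.mem_map] at hl
      obtain ⟨j, hj, rfl⟩ := hl
      rw [Finset.mem_Icc] at hj
      rw [Finset.mem_range]
      change k + j < 2 * M + 1
      omega
    _ = ∑ l ∈ Finset.range (2 * M + 1), ∑ k ∈ Finset.range (M + 1),
        P (fhp B m z r k ∩ sm B m r k l) := Finset.sum_comm
    _ ≤ _ := Finset.sum_le_sum fun l hl => h.sum_le_cl z r hMm (by
        have := Finset.mem_range.mp hl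
        omega)

/-- Dyadic lower bound for the harmonic sum. -/
lemma harm (a d : ℕ) :
    (d : ℝ) / 2 ≤ ∑ j ∈ Finset.Icc (2 ^ a : ℕ) (2 ^ (a + d)), (1 : ℝ) / (j : ℝ) := by
  induction d with
  | zero =>
    simp only [Nat.cast_zero, zero_div]
    exact Finset.sum_nonneg fun j _ => by positivity
  | succ d ih =>
    have h1 : Finset.Icc (2 ^ a) (2 ^ (a + d)) ∪ Finset.Ioc (2 ^ (a + d)) (2 ^ (a + (d + 1))) =
        Finset.Icc (2 ^ a) (2 ^ (a + (d + 1))) := by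
      ext j
      have e1 : 2 ^ a ≤ 2 ^ (a + d) := Nat.pow_le_pow_right (by norm_num) (by omega)
      have e2 : 2 ^ (a + d) ≤ 2 ^ (a + (d + 1)) := Nat.pow_le_pow_right (by norm_num) (by omega)
      simp only [Finset.mem_union, Finset.mem_Icc, Finset.mem_Ioc]
      omega
    have h2 : Disjoint (Finset.Icc (2 ^ a) (2 ^ (a + d)))
        (Finset.Ioc (2 ^ (a + d)) (2 ^ (a + (d + 1)))) := by
      rw [Finset.disjoint_left]
      intro j hj hj'
      rw [Finset.mem_Icc] at hj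
      rw [Finset.mem_Ioc] at hj'
      omega
    rw [← h1, Finset.sum_union h2]
    have h3 : (1 : ℝ) / 2 ≤
        ∑ j ∈ Finset.Ioc (2 ^ (a + d) : ℕ) (2 ^ (a + (d + 1))), (1 : ℝ) / (j : ℝ) := by
      have h4 : ∑ j ∈ Finset.Ioc (2 ^ (a + d) : ℕ) (2 ^ (a + (d + 1))),
          (1 : ℝ) / 2 ^ (a + (d + 1)) ≤
          ∑ j ∈ Finset.Ioc (2 ^ (a + d) : ℕ) (2 ^ (a + (d + 1))), (1 : ℝ) / (j : ℝ) := by
        refine Finset.sum_le_sum fun j hj => ?_
        rw [Finset.mem_Ioc] at hj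
        have hj0 : (0 : ℝ) < j := by
          have : 0 < j := lt_of_le_of_lt (Nat.zero_le _) hj.1
          exact_mod_cast this
        have hj1 : (j : ℝ) ≤ 2 ^ (a + (d + 1)) := by exact_mod_cast hj.2
        exact one_div_le_one_div_of_le hj0 hj1
      refine le_trans (le_of_eq ?_) h4
      rw [Finset.sum_const, Nat.card_Ioc, nsmul_eq_mul, Nat.cast_sub
        (Nat.pow_le_pow_right (by norm_num) (by omega))]
      push_cast
      have e : (2 : ℝ) ^ (a + (d + 1)) = 2 * 2 ^ (a + d) := by rw [← add_assoc, pow_succ]; ring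
      rw [e]
      have : (2 : ℝ) ^ (a + d) ≠ 0 := by positivity
      field_simp
      ring
    push_cast
    linarith

/-- The number of returns. -/
lemma gr_ge {n m : ℕ} (hn : 1 ≤ n) (hm : 2 * n ≤ m) :
    ENNReal.ofReal ((1 / 2 ^ n : ℝ) ^ 2 * 2 ^ m * (2 * n - 1) / 18) ≤
      gr m (1 / 2 ^ n) (2 ^ (m - 2 * n)) (2 ^ (m - 1)) := by
  unfold gr
  rw [← ENNReal.ofReal_sum_of_nonneg (fun j _ => by positivity)]
  refine ENNReal.ofReal_le_ofReal ?_
  have h1 := harm (m - 2 * n) (2 * n - 1)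
  have e1 : m - 2 * n + (2 * n - 1) = m - 1 := by omega
  rw [e1, Nat.cast_sub (by omega)] at h1
  push_cast at h1
  have h2 : ∑ j ∈ Finset.Icc (2 ^ (m - 2 * n) : ℕ) (2 ^ (m - 1)),
      (1 / 2 ^ n : ℝ) ^ 2 / (9 * ((j : ℝ) / 2 ^ m)) = (1 / 2 ^ n : ℝ) ^ 2 * 2 ^ m / 9 *
      ∑ j ∈ Finset.Icc (2 ^ (m - 2 * n) : ℕ) (2 ^ (m - 1)), (1 : ℝ) / (j : ℝ) := by
    rw [Finset.mul_sum]
    refine Finset.sum_congr rfl fun j hj => ?_
    rw [Finset.mem_Icc] at hj
    have hj0 : (j : ℝ) ≠ 0 := by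
      have : 0 < j := lt_of_lt_of_le (by positivity) hj.1
      exact_mod_cast this.ne'
    have p : (2 : ℝ) ^ m ≠ 0 := by positivity
    field_simp
  rw [h2]
  have h3 := mul_le_mul_of_nonneg_left h1 (show (0 : ℝ) ≤ (1 / 2 ^ n : ℝ) ^ 2 * 2 ^ m / 9 by
    positivity)
  refine le_trans (le_of_eq ?_) h3
  ring

end Pool.Agent.BMR
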