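import Pool.Agent.Lib.BMR.Crit

/-!
The removability criterion: area of the neighbourhoods against second differences.
-/

open MeasureTheory Set Filter Topology Complex

namespace Pool.Agent.BMR

variable {f : ℂ → ℂ} {K : Set ℂ}

lemma gs_ar_le_st (n : ℕ) (x y s t : ℝ) (hs : 0 ≤ s) (ht : 0 ≤ t) :
    gs n (ar K) x y s t ≤ s * t := by
  have h1 := gs_ar_le (K := K) (max (s / 2 ^ n) (t / 2 ^ n)) n x y s t hs ht (le_max_left _ _)
    (le_max_right _ _)
  have h2 : volume (Set.Ico x (x + s) ×ˢ Set.Ico y (y + t)) = ENNReal.ofReal (s * t) := by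
    rw [Measure.volume_eq_prod, Measure.prod_prod, Real.volume_Ico, Real.volume_Ico,
      add_sub_cancel_left, add_sub_cancel_left, ENNReal.ofReal_mul hs]
  have h3 := h1.trans (measure_mono inter_subset_right)
  rw [h2] at h3
  exact (ENNReal.ofReal_le_ofReal_iff (mul_nonneg hs ht)).mp h3

lemma gs_ar_le_v (v : ℕ → ℝ) (hv0 : ∀ n, 0 ≤ v n)
    (hv : ∀ n, volume (nb K (1 / 2 ^ n)) ≤ ENNReal.ofReal (v n)) (m N : ℕ) (x y s t : ℝ)
    (hs : 0 ≤ s) (ht : 0 ≤ t) (hsm : s ≤ 2 ^ m) (htm : t ≤ 2 ^ m) :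
    gs (N + m) (ar K) x y s t ≤ v N := by
  have e : ∀ a : ℝ, a ≤ 2 ^ m → a / 2 ^ (N + m) ≤ 1 / 2 ^ N := fun a ha => by
    rw [pow_add, div_le_div_iff₀ (by positivity) (by positivity)]
    nlinarith [show (0 : ℝ) < 2 ^ N by positivity]
  have h1 := gs_ar_le (K := K) (1 / 2 ^ N) (N + m) x y s t hs ht (e s hsm) (e t htm)
  have h3 := (h1.trans (measure_mono inter_subset_left)).trans (hv N)
  exact (ENNReal.ofReal_le_ofReal_iff (hv0 N)).mp h3

/-- The boundary integrals vanish. -/
lemma bd_zero (hf : Continuous f) (hK : DifferentiableOn ℂ f Kᶜ) (v : ℕ → ℝ)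
    (hv0 : ∀ n, 0 ≤ v n) (hv : ∀ n, volume (nb K (1 / 2 ^ n)) ≤ ENNReal.ofReal (v n)) (L : ℝ)
    (hL : ∃ᶠ n : ℕ in atTop, (n : ℝ) * v n ≤ L ∧ ∑ k ∈ Finset.range n, (k : ℝ) * v k ≤ L * n)
    (hsd : SmallSD f) (x y s t : ℝ) (hs : 0 < s) (ht : 0 < t) : bd f x y s t = 0 := by
  have hL0 : 0 ≤ L := by
    obtain ⟨n, h1, -⟩ := hL.exists
    exact le_trans (mul_nonneg (Nat.cast_nonneg _) (hv0 n)) h1
  -- the size
  obtain ⟨m, hm⟩ := pow_unbounded_of_one_lt (max s t) (one_lt_two (α := ℝ))
  have hsm : s ≤ 2 ^ m := (le_max_left _ _).trans hm.le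
  have htm : t ≤ 2 ^ m := (le_max_right _ _).trans hm.le
  have hst : 0 < s + t := by linarith
  have hst' : 0 < s * t := mul_pos hs ht
  set c : ℝ := 16 * (s + t) ^ 2 / (s * t) ^ 2 with hc
  have hc0 : 0 ≤ c := by positivity
  set c₁ : ℝ := |Real.log (s + t)| with hc₁
  have hc₁0 : 0 ≤ c₁ := abs_nonneg _
  set G : ℝ := c * (s + t) ^ 2 * (1 + m + c₁) * L with hG
  have hG0 : 0 ≤ G := by positivity
  -- it suffices to bound by multiples of ε
  have key : ∀ ε : ℝ, 0 < ε → ‖bd f x y s t‖ ≤ ε * (1 + G / 2 + L / 2) := by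
    intro ε hε
    obtain ⟨k₀, D, hD, hSD⟩ := sd_of_small hf hsd x y s t hs ht ε hε
    set δ : ℕ → ℝ := fun k => if k < k₀ then D else
        ε * ((s + t) / 2 ^ k * Real.sqrt (Real.log (1 / ((s + t) / 2 ^ k)))) with hδ
    have hδ0 : ∀ k, 0 ≤ δ k := by
      intro k
      simp only [hδ]
      split_ifs
      · exact hD
      · positivity
    have hP0 : ∀ k, 0 ≤ gs k (ar K) x y s t := fun k =>
      gs_nonneg k _ (fun x y s t hs ht => ar_nonneg x y s t hs ht) x y s t hs.le ht.le
    have hP1 : ∀ k, gs k (ar K) x y s t ≤ s * t := fun k => gs_ar_le_st k x y s t hs.le ht.le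
    have hP2 : ∀ k, gs (k + m) (ar K) x y s t ≤ v k := fun k =>
      gs_ar_le_v v hv0 hv m k x y s t hs.le ht.le hsm htm
    -- bound of the squares of δ
    have hδ2 : ∀ k, 4 ^ k * (δ k) ^ 2 ≤ (if k < k₀ then 4 ^ k₀ * D ^ 2 else 0) +
        ε ^ 2 * (s + t) ^ 2 * (k + c₁) := by
      intro k
      have hpos : 0 ≤ ε ^ 2 * (s + t) ^ 2 * (k + c₁) := by positivity
      simp only [hδ]
      split_ifs with hk
      · have : (4 : ℝ) ^ k ≤ 4 ^ k₀ := pow_le_pow_right₀ (by norm_num) hk.le
        have h2 : 4 ^ k * D ^ 2 ≤ 4 ^ k₀ * D ^ 2 := mul_le_mul_of_nonneg_right this (sq_nonneg _)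
        linarith
      · rw [zero_add]
        have p2 : (0 : ℝ) < 2 ^ k := by positivity
        have e4 : (4 : ℝ) ^ k = 2 ^ k * 2 ^ k := by
          rw [← mul_pow]
          norm_num
        have h1 : Real.sqrt (Real.log (1 / ((s + t) / 2 ^ k))) ^ 2 ≤ k + c₁ := by
          rw [Real.sq_sqrt']
          refine max_le ?_ (by positivity)
          rw [one_div_div, Real.log_div p2.ne' hst.ne', Real.log_pow]
          have h3 : Real.log 2 ≤ 1 := by
            have := Real.log_two_lt_d9
            linarith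
          have h4 : -Real.log (s + t) ≤ c₁ := neg_le_abs _
          have h5 : (k : ℝ) * Real.log 2 ≤ k := by
            calc (k : ℝ) * Real.log 2 ≤ k * 1 := mul_le_mul_of_nonneg_left h3 (Nat.cast_nonneg _)
              _ = k := mul_one _
          linarith
        have h2 : 4 ^ k * (ε * ((s + t) / 2 ^ k * Real.sqrt (Real.log (1 / ((s + t) / 2 ^ k))))) ^ 2
            = ε ^ 2 * (s + t) ^ 2 * Real.sqrt (Real.log (1 / ((s + t) / 2 ^ k))) ^ 2 := by
          rw [e4]
          field_simp
        rw [h2]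
        exact mul_le_mul_of_nonneg_left h1 (by positivity)
    -- the energy
    set A : ℝ := en f x y s t + c * (k₀ * (4 ^ k₀ * D ^ 2 * (s * t))) +
      c * (ε ^ 2 * (s + t) ^ 2) * (m * (m + c₁) * (s * t) + (m + c₁) * v 0) with hA
    have hen : ∀ N : ℕ, ∑ k ∈ Finset.range N, (k : ℝ) * v k ≤ L * N →
        gs (N + m) (en f) x y s t ≤ A + ε ^ 2 * G * N := by
      intro N hN
      have s0 := energy hf hK x y s t hs ht δ hδ0 hSD (N + m)
      simp only [← hc] at s0
      have s1 : ∑ k ∈ Finset.range (N + m), c * (4 ^ k * (δ k) ^ 2) * gs k (ar K) x y s t ≤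
          ∑ k ∈ Finset.range (N + m), (c * ((if k < k₀ then 4 ^ k₀ * D ^ 2 else 0) * (s * t)) +
            c * (ε ^ 2 * (s + t) ^ 2) * ((k + c₁) * gs k (ar K) x y s t)) := by
        refine Finset.sum_le_sum fun k _ => ?_
        have h1 := mul_le_mul_of_nonneg_right (mul_le_mul_of_nonneg_left (hδ2 k) hc0) (hP0 k)
        refine h1.trans ?_
        have h2 : c * ((if k < k₀ then 4 ^ k₀ * D ^ 2 else 0) * gs k (ar K) x y s t) ≤
            c * ((if k < k₀ then 4 ^ k₀ * D ^ 2 else 0) * (s * t)) := by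
          refine mul_le_mul_of_nonneg_left (mul_le_mul_of_nonneg_left (hP1 k) ?_) hc0
          split_ifs <;> positivity
        linarith
      have s2 : ∑ k ∈ Finset.range (N + m), c * ((if k < k₀ then 4 ^ k₀ * D ^ 2 else 0) * (s * t))
          ≤ c * (k₀ * (4 ^ k₀ * D ^ 2 * (s * t))) := by
        rw [← Finset.mul_sum]
        refine mul_le_mul_of_nonneg_left ?_ hc0
        have : ∑ k ∈ Finset.range (N + m), (if k < k₀ then 4 ^ k₀ * D ^ 2 else 0) * (s * t) =
            ∑ k ∈ (Finset.range (N + m)).filter (· < k₀), 4 ^ k₀ * D ^ 2 * (s * t) := by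
          rw [Finset.sum_filter]
          refine Finset.sum_congr rfl fun k _ => ?_
          split_ifs <;> ring
        rw [this, Finset.sum_const, nsmul_eq_mul]
        refine mul_le_mul_of_nonneg_right ?_ (by positivity)
        have hcard : ((Finset.range (N + m)).filter (· < k₀)).card ≤ k₀ := by
          calc _ ≤ (Finset.range k₀).card := Finset.card_le_card fun k hk => by
                simp only [Finset.mem_filter, Finset.mem_range] at hk ⊢
                exact hk.2
            _ = k₀ := Finset.card_range _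
        exact_mod_cast hcard
      have s3 : ∑ k ∈ Finset.range (N + m), ((k : ℝ) + c₁) * gs k (ar K) x y s t ≤
          m * (m + c₁) * (s * t) + ((m + c₁) * v 0 + (1 + m + c₁) * (L * N)) := by
        rw [add_comm N m, Finset.sum_range_add]
        refine add_le_add ?_ ?_
        · calc ∑ k ∈ Finset.range m, ((k : ℝ) + c₁) * gs k (ar K) x y s t ≤
              ∑ k ∈ Finset.range m, ((m : ℝ) + c₁) * (s * t) := by
                refine Finset.sum_le_sum fun k hk => ?_
                have hk' : (k : ℝ) ≤ m := by exact_mod_cast (Finset.mem_range.mp hk).le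
                exact mul_le_mul (by linarith) (hP1 k) (hP0 k) (by positivity)
            _ = m * (m + c₁) * (s * t) := by
                rw [Finset.sum_const, Finset.card_range, nsmul_eq_mul]
                ring
        · have t1 : ∀ j ∈ Finset.range N, (((m + j : ℕ) : ℝ) + c₁) * gs (m + j) (ar K) x y s t ≤
              (if j = 0 then (m + c₁) * v 0 else 0) + (1 + m + c₁) * (j * v j) := by
            intro j _
            have h1 : gs (m + j) (ar K) x y s t ≤ v j := by
              rw [add_comm]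
              exact hP2 j
            have h2 : (((m + j : ℕ) : ℝ) + c₁) * gs (m + j) (ar K) x y s t ≤
                (((m + j : ℕ) : ℝ) + c₁) * v j := mul_le_mul_of_nonneg_left h1 (by positivity)
            refine h2.trans ?_
            push_cast
            split_ifs with hj
            · subst hj
              simp
            · have hj1 : (1 : ℝ) ≤ j := by exact_mod_cast Nat.one_le_iff_ne_zero.mpr hj
              have hvj := hv0 j
              have h3 : 0 ≤ (m + c₁) * ((j - 1) * v j) := by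
                have : 0 ≤ (j : ℝ) - 1 := by linarith
                positivity
              nlinarith
          refine (Finset.sum_le_sum t1).trans ?_
          rw [Finset.sum_add_distrib, ← Finset.mul_sum]
          refine add_le_add ?_ (mul_le_mul_of_nonneg_left hN (by positivity))
          rw [Finset.sum_ite_eq']
          split_ifs
          · exact le_rfl
          · have := hv0 0
            positivity
      have s4 : c * (ε ^ 2 * (s + t) ^ 2) * ∑ k ∈ Finset.range (N + m),
          ((k : ℝ) + c₁) * gs k (ar K) x y s t ≤ c * (ε ^ 2 * (s + t) ^ 2) *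
          (m * (m + c₁) * (s * t) + ((m + c₁) * v 0 + (1 + m + c₁) * (L * N))) :=
        mul_le_mul_of_nonneg_left s3 (by positivity)
      rw [Finset.sum_add_distrib] at s1
      have s6 : ∑ k ∈ Finset.range (N + m), c * (ε ^ 2 * (s + t) ^ 2) *
          (((k : ℝ) + c₁) * gs k (ar K) x y s t) = c * (ε ^ 2 * (s + t) ^ 2) *
          ∑ k ∈ Finset.range (N + m), ((k : ℝ) + c₁) * gs k (ar K) x y s t := by
        rw [Finset.mul_sum]
      rw [s6] at s1
      have s5 : c * (ε ^ 2 * (s + t) ^ 2) *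
          (m * (m + c₁) * (s * t) + ((m + c₁) * v 0 + (1 + m + c₁) * (L * N))) =
          c * (ε ^ 2 * (s + t) ^ 2) * (m * (m + c₁) * (s * t) + (m + c₁) * v 0) +
          ε ^ 2 * G * N := by
        rw [hG]
        ring
      rw [s5] at s4
      have s7 : A + ε ^ 2 * G * N = en f x y s t + c * (k₀ * (4 ^ k₀ * D ^ 2 * (s * t))) +
          (c * (ε ^ 2 * (s + t) ^ 2) * (m * (m + c₁) * (s * t) + (m + c₁) * v 0) +
          ε ^ 2 * G * N) := by
        rw [hA]
        ring
      rw [s7]
      clear_value A G c c₁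
      linarith
    -- choose N
    obtain ⟨N₁, hN₁⟩ := exists_nat_gt (A / (2 * ε ^ 2))
    obtain ⟨N, hN, h1, h2⟩ := (frequently_atTop.mp hL) (max N₁ 1)
    have hN1 : 1 ≤ N := (le_max_right _ _).trans hN
    have hNpos : (0 : ℝ) < N := by exact_mod_cast hN1
    have hNN : (N₁ : ℝ) ≤ N := by exact_mod_cast (le_max_left _ _).trans hN
    have b := bd_le hf hK x y s t hs ht (N + m) (1 / (ε * N)) (by positivity)
    have e1 := hen N h2
    have e2 := hP2 N
    have q1 : 1 / (ε * N) / 2 * gs (N + m) (en f) x y s t ≤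
        1 / (ε * N) / 2 * (A + ε ^ 2 * G * N) := mul_le_mul_of_nonneg_left e1 (by positivity)
    have q2 : 1 / (2 * (1 / (ε * N))) * gs (N + m) (ar K) x y s t ≤
        1 / (2 * (1 / (ε * N))) * v N := mul_le_mul_of_nonneg_left e2 (by positivity)
    have q3 : 1 / (ε * N) / 2 * (A + ε ^ 2 * G * N) = A / (2 * ε * N) + ε * G / 2 := by
      field_simp
    have q4 : 1 / (2 * (1 / (ε * N))) * v N = ε / 2 * (N * v N) := by
      field_simp
    have q5 : ε / 2 * (N * v N) ≤ ε / 2 * L := mul_le_mul_of_nonneg_left h1 (by positivity)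
    have q6 : A / (2 * ε * N) ≤ ε := by
      rw [div_le_iff₀ (by positivity)]
      rw [div_lt_iff₀ (by positivity)] at hN₁
      have h5 : (N₁ : ℝ) * (2 * ε ^ 2) ≤ N * (2 * ε ^ 2) :=
        mul_le_mul_of_nonneg_right hNN (by positivity)
      have h6 : ε * (2 * ε * N) = N * (2 * ε ^ 2) := by ring
      rw [h6]
      exact hN₁.le.trans h5
    rw [q3] at q1
    rw [q4] at q2
    have : ε * (1 + G / 2 + L / 2) = ε + ε * G / 2 + ε / 2 * L := by ring
    rw [this]
    linarith
  -- conclude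
  have hC : 0 < 1 + G / 2 + L / 2 := by positivity
  have h0 : ‖bd f x y s t‖ ≤ 0 := by
    refine le_of_forall_pos_le_add fun η hη => ?_
    rw [zero_add]
    have := key (η / (1 + G / 2 + L / 2)) (by positivity)
    rwa [div_mul_cancel₀ _ hC.ne'] at this
  exact norm_le_zero_iff.mp h0

/-- Vanishing boundary integrals give an entire function. -/
lemma differentiable_of_bd (hf : Continuous f)
    (h : ∀ x y s t : ℝ, 0 < s → 0 < t → bd f x y s t = 0) : Differentiable ℂ f := by
  -- the oriented version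
  let E : ℝ → ℝ → ℝ → ℝ → ℂ := fun x1 x2 y1 y2 =>
    (∫ x : ℝ in x1..x2, f ((x : ℂ) + (y1 : ℂ) * I)) - (∫ x : ℝ in x1..x2, f ((x : ℂ) + (y2 : ℂ) * I))
      + I * (∫ y : ℝ in y1..y2, f ((x2 : ℂ) + (y : ℂ) * I)) -
      I * (∫ y : ℝ in y1..y2, f ((x1 : ℂ) + (y : ℂ) * I))
  have E1 : ∀ x1 x2 y1 y2, x1 ≤ x2 → y1 ≤ y2 → E x1 x2 y1 y2 = 0 := by
    intro x1 x2 y1 y2 hx hy
    rcases eq_or_lt_of_le hx with rfl | hx
    · simp [E]
    rcases eq_or_lt_of_le hy with rfl | hy
    · simp [E]
    have := h x1 y1 (x2 - x1) (y2 - y1) (by linarith) (by linarith)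
    unfold bd at this
    have r1 : x1 + (x2 - x1) = x2 := by ring
    have r2 : y1 + (y2 - y1) = y2 := by ring
    rw [r1, r2] at this
    exact this
  have E2 : ∀ x1 x2 y1 y2, E x2 x1 y1 y2 = -E x1 x2 y1 y2 := by
    intro x1 x2 y1 y2
    simp only [E]
    rw [intervalIntegral.integral_symm x1 x2, intervalIntegral.integral_symm x1 x2]
    ring
  have E3 : ∀ x1 x2 y1 y2, E x1 x2 y2 y1 = -E x1 x2 y1 y2 := by
    intro x1 x2 y1 y2
    simp only [E]
    rw [intervalIntegral.integral_symm y1 y2, intervalIntegral.integral_symm y1 y2]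
    ring
  have E0 : ∀ x1 x2 y1 y2, E x1 x2 y1 y2 = 0 := by
    intro x1 x2 y1 y2
    rcases le_total x1 x2 with hx | hx <;> rcases le_total y1 y2 with hy | hy
    · exact E1 _ _ _ _ hx hy
    · rw [E3, E1 _ _ _ _ hx hy, neg_zero]
    · rw [E2, E1 _ _ _ _ hx hy, neg_zero]
    · rw [E2, E3, E1 _ _ _ _ hx hy, neg_zero, neg_zero]
  have hcons : IsConservativeOn f univ := by
    intro z w _
    rw [← add_eq_zero_iff_eq_neg, wedgeIntegral_add_wedgeIntegral_eq]
    exact E0 z.re w.re z.im w.im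
  have := (IsConservativeOn.isExactOn_univ hf hcons).differentiableOn isOpen_univ
  exact differentiableOn_univ.mp this

/-- The criterion. -/
theorem criterion (hf : Continuous f) (hK : DifferentiableOn ℂ f Kᶜ) (v : ℕ → ℝ)
    (hv0 : ∀ n, 0 ≤ v n) (hv : ∀ n, volume (nb K (1 / 2 ^ n)) ≤ ENNReal.ofReal (v n)) (L : ℝ)
    (hL : ∃ᶠ n : ℕ in atTop, (n : ℝ) * v n ≤ L ∧ ∑ k ∈ Finset.range n, (k : ℝ) * v k ≤ L * n)
    (hsd : SmallSD f) : Differentiable ℂ f :=
  differentiable_of_bd hf (bd_zero hf hK v hv0 hv L hL hsd)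

end Pool.Agent.BMR
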