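import Pool.Agent.Lib.BMR.Area
import Pool.Agent.Lib.BMR.Morera

/-!
The area of the neighbourhoods of the whole trace, and the removability theorem.
-/

open MeasureTheory Set Filter Topology ProbabilityTheory

namespace Pool.Agent.BMR

set_option linter.unusedSectionVars false

variable {Ω : Type} [MeasurableSpace Ω] {P : Measure Ω} {B : ℝ → Ω → ℂ}

section Tonelli

variable {Y Z : Type*} [MeasurableSpace Y] [MeasurableSpace Z] {ν : Measure Z} [SFinite ν]
  {X : Ω → Y}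

lemma sec_eq (hX : AEMeasurable X P) {R : Set (Y × Z)} (hR : MeasurableSet R) (z : Z) :
    P {ω | (X ω, z) ∈ R} = (P.map X) ((fun y => (y, z)) ⁻¹' R) := by
  rw [Measure.map_apply_of_aemeasurable hX (measurable_prodMk_right hR)]
  rfl

lemma measurable_sec [IsFiniteMeasure P] (hX : AEMeasurable X P) {R : Set (Y × Z)}
    (hR : MeasurableSet R) : Measurable fun z => P {ω | (X ω, z) ∈ R} := by
  simp_rw [sec_eq hX hR]
  exact measurable_measure_prodMk_right hR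

lemma aemeasurable_sec (hX : AEMeasurable X P) {R : Set (Y × Z)} (hR : MeasurableSet R) :
    AEMeasurable (fun ω => ν {z | (X ω, z) ∈ R}) P :=
  (measurable_measure_prodMk_left (ν := ν) hR).comp_aemeasurable hX

lemma tonelli [IsFiniteMeasure P] (hX : AEMeasurable X P) {R : Set (Y × Z)}
    (hR : MeasurableSet R) :
    ∫⁻ z, P {ω | (X ω, z) ∈ R} ∂ν = ∫⁻ ω, ν {z | (X ω, z) ∈ R} ∂P := by
  simp_rw [sec_eq hX hR]
  rw [← Measure.prod_apply_symm hR, Measure.prod_apply hR,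
    lintegral_map' (measurable_measure_prodMk_left hR).aemeasurable hX]
  rfl

end Tonelli

/-- Pairs of a grid path and a point close to it at index `l`. -/
def Rh (r : ℝ) (l : ℕ) : Set ((ℕ × Bool → ℝ) × (ℝ × ℝ)) := {p | p.1 ∈ hs p.2 r l}

lemma measurableSet_Rh (r : ℝ) (l : ℕ) : MeasurableSet (Rh r l) := by
  have h1 : Measurable fun p : (ℕ × Bool → ℝ) × (ℝ × ℝ) => |p.1 (l, true) - p.2.1| := by fun_prop
  have h2 : Measurable fun p : (ℕ × Bool → ℝ) × (ℝ × ℝ) => |p.1 (l, false) - p.2.2| := by fun_prop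
  exact (h1 measurableSet_Iic).inter (h2 measurableSet_Iic)

/-- Pairs of a grid path and a point close to it at some index up to `M`. -/
def RU (r : ℝ) (M : ℕ) : Set ((ℕ × Bool → ℝ) × (ℝ × ℝ)) := ⋃ k ∈ Finset.range (M + 1), Rh r k

lemma measurableSet_RU (r : ℝ) (M : ℕ) : MeasurableSet (RU r M) :=
  Finset.measurableSet_biUnion _ fun k _ => measurableSet_Rh r k

lemma mem_Rh_gp {m l : ℕ} (hl : l ≤ 2 ^ m) (ω : Ω) (z : ℝ × ℝ) (r : ℝ) :
    (gp B m (2 ^ m) ω, z) ∈ Rh r l ↔ ω ∈ cl B m z r l := by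
  simp only [Rh, Set.mem_ofPred_eq, hs, gp, min_eq_left hl, co, if_true, Bool.false_eq_true,
    if_false, cl]

/-- The neighbourhood of the grid points. -/
def UU (B : ℝ → Ω → ℂ) (m : ℕ) (r : ℝ) (M : ℕ) (ω : Ω) : Set (ℝ × ℝ) :=
  {z | ∃ k ≤ M, ω ∈ cl B m z r k}

lemma mem_RU_gp {m M : ℕ} (hM : M ≤ 2 ^ m) (ω : Ω) (z : ℝ × ℝ) (r : ℝ) :
    (gp B m (2 ^ m) ω, z) ∈ RU r M ↔ ∃ k ≤ M, ω ∈ cl B m z r k := by
  simp only [RU, mem_iUnion, Finset.mem_range, exists_prop, Nat.lt_succ_iff]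
  exact exists_congr fun k => and_congr_right fun hk => mem_Rh_gp (hk.trans hM) ω z r

lemma vol_box (a b : ℝ) {r : ℝ} (hr : 0 ≤ r) :
    volume {z : ℝ × ℝ | |a - z.1| ≤ r ∧ |b - z.2| ≤ r} = ENNReal.ofReal (4 * r ^ 2) := by
  have e : {z : ℝ × ℝ | |a - z.1| ≤ r ∧ |b - z.2| ≤ r} =
      Set.Icc (a - r) (a + r) ×ˢ Set.Icc (b - r) (b + r) := by
    ext ⟨x, y⟩
    simp only [Set.mem_ofPred_eq, mem_prod, mem_Icc, abs_le]
    constructor
    · rintro ⟨⟨h1, h2⟩, h3, h4⟩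
      refine ⟨⟨?_, ?_⟩, ?_, ?_⟩ <;> linarith
    · rintro ⟨⟨h1, h2⟩, h3, h4⟩
      refine ⟨⟨?_, ?_⟩, ?_, ?_⟩ <;> linarith
  rw [e, Measure.volume_eq_prod, Measure.prod_prod, Real.volume_Icc, Real.volume_Icc,
    ← ENNReal.ofReal_mul (by linarith)]
  congr 1
  ring

lemma IsPBM.aemeasurable_UU (h : IsPBM P B) {m M : ℕ} (hM : M ≤ 2 ^ m) (r : ℝ) :
    AEMeasurable (fun ω => volume (UU B m r M ω)) P := by
  have h1 := aemeasurable_sec (ν := (volume : Measure (ℝ × ℝ)))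
    (h.aemeasurable_gp (m := m) (N := 2 ^ m) le_rfl) (measurableSet_RU r M)
  have e : (fun ω => volume (UU B m r M ω)) =
      fun ω => volume {z | (gp B m (2 ^ m) ω, z) ∈ RU r M} := by
    funext ω
    congr 1
    ext z
    exact (mem_RU_gp hM ω z r).symm
  rw [e]
  exact h1

/-- Expected area for the grid. -/
theorem IsPBM.area_grid [IsProbabilityMeasure P] (h : IsPBM P B) {n m : ℕ} (hn : 1 ≤ n)
    (hm : 2 * n ≤ m) :
    ∫⁻ ω, volume (UU B m (1 / 2 ^ n) (2 ^ (m - 1)) ω) ∂P ≤ ENNReal.ofReal (576 / n) := by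
  set r : ℝ := 1 / 2 ^ n with hr
  set M : ℕ := 2 ^ (m - 1) with hM
  have hr0 : 0 < r := by positivity
  have hMm : 2 * M = 2 ^ m := by
    rw [hM, ← pow_succ']
    congr 1
    omega
  have hMm' : M ≤ 2 ^ m := by omega
  set J : ℕ := 2 ^ (m - 2 * n) with hJ
  have hJr : r ^ 2 ≤ (J : ℝ) / 2 ^ m := by
    rw [le_div_iff₀ (by positivity), hr, hJ]
    push_cast
    have : (2 : ℝ) ^ m = 2 ^ (m - 2 * n) * (2 ^ n * 2 ^ n) := by
      rw [← pow_add, ← pow_add]
      congr 1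
      omega
    rw [this]
    have p : (2 : ℝ) ^ n ≠ 0 := by positivity
    apply le_of_eq
    field_simp
  have hX : AEMeasurable (fun ω => gp B m (2 ^ m) ω) P := h.aemeasurable_gp le_rfl
  -- Tonelli for the neighbourhood
  have t1 : ∫⁻ ω, volume (UU B m r M ω) ∂P = ∫⁻ z, P {ω | ∃ k ≤ M, ω ∈ cl B m z r k} := by
    have := tonelli (ν := (volume : Measure (ℝ × ℝ))) hX (measurableSet_RU r M)
    have e1 : ∀ ω, {z | (gp B m (2 ^ m) ω, z) ∈ RU r M} = UU B m r M ω := fun ω => by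
      ext z
      exact mem_RU_gp hMm' ω z r
    have e2 : ∀ z, {ω | (gp B m (2 ^ m) ω, z) ∈ RU r M} = {ω | ∃ k ≤ M, ω ∈ cl B m z r k} :=
      fun z => by
      ext ω
      exact mem_RU_gp hMm' ω z r
    simp_rw [e1, e2] at this
    exact this.symm
  -- Tonelli for single indices
  have t2 : ∀ l ≤ 2 ^ m, ∫⁻ z, P (cl B m z (2 * r) l) = ENNReal.ofReal (16 * r ^ 2) := by
    intro l hl
    have := tonelli (ν := (volume : Measure (ℝ × ℝ))) hX (measurableSet_Rh (2 * r) l)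
    have e1 : ∀ ω, volume {z | (gp B m (2 ^ m) ω, z) ∈ Rh (2 * r) l} =
        ENNReal.ofReal (16 * r ^ 2) := fun ω => by
      have e3 : {z | (gp B m (2 ^ m) ω, z) ∈ Rh (2 * r) l} =
          {z : ℝ × ℝ | |(B ((l : ℝ) / 2 ^ m) ω).re - z.1| ≤ 2 * r ∧
            |(B ((l : ℝ) / 2 ^ m) ω).im - z.2| ≤ 2 * r} := by
        ext z
        exact mem_Rh_gp hl ω z (2 * r)
      rw [e3, vol_box _ _ (by positivity)]
      congr 1
      ring
    have e2 : ∀ z, {ω | (gp B m (2 ^ m) ω, z) ∈ Rh (2 * r) l} = cl B m z (2 * r) l :=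
      fun z => by
      ext ω
      exact mem_Rh_gp hl ω z (2 * r)
    simp_rw [e1, e2] at this
    rw [this, lintegral_const, measure_univ, mul_one]
  have m2 : ∀ l ≤ 2 ^ m, Measurable fun z => P (cl B m z (2 * r) l) := by
    intro l hl
    have e2 : ∀ z, {ω | (gp B m (2 ^ m) ω, z) ∈ Rh (2 * r) l} = cl B m z (2 * r) l :=
      fun z => by
      ext ω
      exact mem_Rh_gp hl ω z (2 * r)
    have := measurable_sec hX (measurableSet_Rh (2 * r) l)
    simp_rw [e2] at this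
    exact this
  -- renewal
  have hgt : gr m r J M ≠ ⊤ := by
    unfold gr
    exact (ENNReal.sum_lt_top.mpr fun j _ => ENNReal.ofReal_lt_top).ne
  have k1 : (∫⁻ ω, volume (UU B m r M ω) ∂P) * gr m r J M ≤
      ENNReal.ofReal ((2 ^ m + 1) * (16 * r ^ 2)) := by
    rw [t1, ← lintegral_mul_const' _ _ hgt]
    calc ∫⁻ z, P {ω | ∃ k ≤ M, ω ∈ cl B m z r k} * gr m r J M
        ≤ ∫⁻ z, ∑ l ∈ Finset.range (2 * M + 1), P (cl B m z (2 * r) l) :=
          lintegral_mono fun z => h.renewal z hr0.le (by positivity) hJr hMm.le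
      _ = ∑ l ∈ Finset.range (2 * M + 1), ∫⁻ z, P (cl B m z (2 * r) l) :=
          lintegral_finsetSum _ fun l hl => m2 l (by
            have := Finset.mem_range.mp hl
            omega)
      _ = ∑ l ∈ Finset.range (2 * M + 1), ENNReal.ofReal (16 * r ^ 2) :=
          Finset.sum_congr rfl fun l hl => t2 l (by
            have := Finset.mem_range.mp hl
            omega)
      _ = ENNReal.ofReal ((2 ^ m + 1) * (16 * r ^ 2)) := by
          rw [Finset.sum_const, Finset.card_range, nsmul_eq_mul, hMm]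
          have e5 : ((2 : ℝ) ^ m + 1) = ((2 ^ m + 1 : ℕ) : ℝ) := by push_cast; ring
          rw [e5, ENNReal.ofReal_mul (Nat.cast_nonneg _), ENNReal.ofReal_natCast]
  have hn1 : (1 : ℝ) ≤ n := by exact_mod_cast hn
  set c : ℝ := (1 / 2 ^ n : ℝ) ^ 2 * 2 ^ m * (2 * n - 1) / 18 with hc
  have hc0 : 0 < c := by
    have : (0 : ℝ) < 2 * n - 1 := by linarith
    positivity
  have k2 : (∫⁻ ω, volume (UU B m r M ω) ∂P) * ENNReal.ofReal c ≤
      ENNReal.ofReal ((2 ^ m + 1) * (16 * r ^ 2)) :=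
    (mul_le_mul' le_rfl (gr_ge hn hm)).trans k1
  have k3 := (ENNReal.le_div_iff_mul_le (Or.inl (by simpa using hc0))
    (Or.inl ENNReal.ofReal_ne_top)).mpr k2
  refine k3.trans ?_
  rw [← ENNReal.ofReal_div_of_pos hc0]
  refine ENNReal.ofReal_le_ofReal ?_
  rw [div_le_div_iff₀ hc0 (by linarith)]
  have h2m : (1 : ℝ) ≤ 2 ^ m := one_le_pow₀ (by norm_num)
  have e1 : (576 : ℝ) * c = 32 * (r ^ 2 * 2 ^ m * (2 * n - 1)) := by
    rw [hc, hr]
    ring
  rw [e1]
  have e2 : (2 ^ m + 1) * (16 * r ^ 2) * (n : ℝ) ≤ (2 ^ m + 2 ^ m) * (16 * r ^ 2) * (n : ℝ) := by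
    gcongr
  refine e2.trans ?_
  have e3 : (2 ^ m + 2 ^ m) * (16 * r ^ 2) * (n : ℝ) = 32 * (r ^ 2 * 2 ^ m * n) := by ring
  rw [e3]
  have e4 : (n : ℝ) ≤ 2 * n - 1 := by linarith
  gcongr

/-- Majorant of the area of the neighbourhood of the first half. -/
noncomputable def Wf (B : ℝ → Ω → ℂ) (n : ℕ) (ω : Ω) : ENNReal :=
  liminf (fun m => volume (UU B m (1 / 2 ^ n) (2 ^ (m - 1)) ω)) atTop

lemma half_le (m : ℕ) : 2 ^ (m - 1) ≤ 2 ^ m := Nat.pow_le_pow_right (by norm_num) (by omega)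

lemma aemeasurable_liminf {f : ℕ → Ω → ENNReal} (hf : ∀ n, AEMeasurable (f n) P) :
    AEMeasurable (fun ω => liminf (fun n => f n ω) atTop) P := by
  simp_rw [Filter.liminf_eq_iSup_iInf_of_nat']
  exact AEMeasurable.iSup fun n => AEMeasurable.iInf fun i => hf _

lemma IsPBM.aemeasurable_Wf (h : IsPBM P B) (n : ℕ) : AEMeasurable (Wf B n) P :=
  aemeasurable_liminf fun m => h.aemeasurable_UU (half_le m) _

lemma IsPBM.lintegral_Wf [IsProbabilityMeasure P] (h : IsPBM P B) {n : ℕ} (hn : 1 ≤ n) :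
    ∫⁻ ω, Wf B n ω ∂P ≤ ENNReal.ofReal (576 / n) := by
  refine (lintegral_liminf_le' fun m => h.aemeasurable_UU (half_le m) _).trans ?_
  refine Filter.liminf_le_of_frequently_le' ?_
  refine Eventually.frequently ?_
  filter_upwards [eventually_ge_atTop (2 * n)] with m hm
  exact h.area_grid hn hm

lemma IsPBM.le_Wf (h : IsPBM P B) (n : ℕ) (ω : Ω) :
    volume (nb ((fun t => B t ω) '' Set.Icc 0 (1 / 2)) (1 / 2 ^ (n + 1))) ≤ Wf B n ω := by
  have huc := isCompact_Icc.uniformContinuousOn_of_continuous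
    ((h.cont ω).continuousOn (s := Set.Icc (0 : ℝ) 1))
  rw [Metric.uniformContinuousOn_iff] at huc
  obtain ⟨δ, hδ, hδ'⟩ := huc (1 / 2 ^ (n + 1)) (by positivity)
  refine Filter.le_liminf_of_le ?_ ?_
  · isBoundedDefault
  have ht : ∀ᶠ m : ℕ in atTop, (1 / 2 : ℝ) ^ m < δ :=
    (tendsto_pow_atTop_nhds_zero_of_lt_one (by norm_num) (by norm_num)).eventually
      (gt_mem_nhds hδ)
  filter_upwards [ht, eventually_ge_atTop 1] with m hm hm1
  refine measure_mono ?_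
  rintro z ⟨w, ⟨t, ht, rfl⟩, h1, h2⟩
  have p2 : (0 : ℝ) < 2 ^ m := by positivity
  have hk : ⌊t * 2 ^ m⌋₊ ≤ 2 ^ (m - 1) := by
    refine Nat.floor_le_of_le ?_
    push_cast
    have e : (2 : ℝ) ^ m = 2 * 2 ^ (m - 1) := by
      rw [← pow_succ']
      congr 1
      omega
    rw [e]
    have : (0 : ℝ) < 2 ^ (m - 1) := by positivity
    nlinarith [ht.2]
  refine ⟨⌊t * 2 ^ m⌋₊, hk, ?_⟩
  have f1 : (⌊t * 2 ^ m⌋₊ : ℝ) ≤ t * 2 ^ m := Nat.floor_le (mul_nonneg ht.1 p2.le)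
  have f2 : t * 2 ^ m < ⌊t * 2 ^ m⌋₊ + 1 := Nat.lt_floor_add_one _
  have g1 : (⌊t * 2 ^ m⌋₊ : ℝ) / 2 ^ m ≤ t := by rwa [div_le_iff₀ p2]
  have g2 : t < (⌊t * 2 ^ m⌋₊ : ℝ) / 2 ^ m + 1 / 2 ^ m := by
    rw [← add_div, lt_div_iff₀ p2]
    exact f2
  have hd : dist ((⌊t * 2 ^ m⌋₊ : ℝ) / 2 ^ m) t < δ := by
    rw [Real.dist_eq, abs_lt]
    have e : (1 / 2 : ℝ) ^ m = 1 / 2 ^ m := by rw [one_div_pow]
    rw [e] at hm
    constructor <;> linarith
  have hd2 := hδ' _ (grid_mem (hk.trans (half_le m))) _ ⟨ht.1, ht.2.trans (by norm_num)⟩ hd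
  rw [dist_eq_norm] at hd2
  have r1 := Complex.abs_re_le_norm (B ((⌊t * 2 ^ m⌋₊ : ℝ) / 2 ^ m) ω - B t ω)
  have r2 := Complex.abs_im_le_norm (B ((⌊t * 2 ^ m⌋₊ : ℝ) / 2 ^ m) ω - B t ω)
  rw [Complex.sub_re] at r1
  rw [Complex.sub_im] at r2
  have e : (1 : ℝ) / 2 ^ n = 1 / 2 ^ (n + 1) + 1 / 2 ^ (n + 1) := by
    rw [pow_succ]
    field_simp
    norm_num
  refine ⟨?_, ?_⟩
  · have := abs_add_le ((B ((⌊t * 2 ^ m⌋₊ : ℝ) / 2 ^ m) ω).re - (B t ω).re) ((B t ω).re - z.1)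
    rw [sub_add_sub_cancel] at this
    rw [e]
    linarith
  · have := abs_add_le ((B ((⌊t * 2 ^ m⌋₊ : ℝ) / 2 ^ m) ω).im - (B t ω).im) ((B t ω).im - z.2)
    rw [sub_add_sub_cancel] at this
    rw [e]
    linarith

/-- Measurable majorants `W n` of the areas of the neighbourhoods with expectation `O(1/n)`. -/
def AreaBd (P : Measure Ω) (K : Ω → Set ℂ) : Prop :=
  ∃ C : ENNReal, C ≠ ⊤ ∧ ∃ W : ℕ → Ω → ENNReal, (∀ n, AEMeasurable (W n) P) ∧
    (∀ n : ℕ, (n : ENNReal) * ∫⁻ ω, W n ω ∂P ≤ C) ∧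
    ∀ ω, ∀ n, 2 ≤ n → volume (nb (K ω) (1 / 2 ^ n)) ≤ W n ω

lemma nb_union (K K' : Set ℂ) (r : ℝ) : nb (K ∪ K') r = nb K r ∪ nb K' r := by
  ext p
  simp only [nb, mem_union, Set.mem_ofPred_eq]
  constructor
  · rintro ⟨z, hz | hz, h⟩
    · exact Or.inl ⟨z, hz, h⟩
    · exact Or.inr ⟨z, hz, h⟩
  · rintro (⟨z, hz, h⟩ | ⟨z, hz, h⟩)
    · exact ⟨z, Or.inl hz, h⟩
    · exact ⟨z, Or.inr hz, h⟩

lemma AreaBd.union {K K' : Ω → Set ℂ} (h : AreaBd P K) (h' : AreaBd P K') :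
    AreaBd P fun ω => K ω ∪ K' ω := by
  obtain ⟨C, hC, W, h1, h2, h3⟩ := h
  obtain ⟨C', hC', W', h1', h2', h3'⟩ := h'
  refine ⟨C + C', ENNReal.add_ne_top.mpr ⟨hC, hC'⟩, fun n ω => W n ω + W' n ω,
    fun n => (h1 n).add (h1' n), fun n => ?_, fun ω n hn => ?_⟩
  · rw [lintegral_add_left' (h1 n), mul_add]
    exact add_le_add (h2 n) (h2' n)
  · rw [nb_union]
    exact (measure_union_le _ _).trans (add_le_add (h3 ω n hn) (h3' ω n hn))

theorem IsPBM.areaBd_first [IsProbabilityMeasure P] (h : IsPBM P B) :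
    AreaBd P fun ω => (fun t => B t ω) '' Set.Icc 0 (1 / 2) := by
  refine ⟨ENNReal.ofReal 1152, ENNReal.ofReal_ne_top,
    fun n ω => if 2 ≤ n then Wf B (n - 1) ω else 0, fun n => ?_, fun n => ?_, fun ω n hn => ?_⟩
  · by_cases hn : 2 ≤ n
    · simp only [hn, if_true]
      exact h.aemeasurable_Wf _
    · simp only [hn, if_false]
      exact aemeasurable_const
  · by_cases hn : 2 ≤ n
    · simp only [hn, if_true]
      refine (mul_le_mul' le_rfl (h.lintegral_Wf (n := n - 1) (by omega))).trans ?_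
      have : (n : ENNReal) = ENNReal.ofReal (n : ℝ) := (ENNReal.ofReal_natCast n).symm
      rw [this, ← ENNReal.ofReal_mul (by positivity)]
      refine ENNReal.ofReal_le_ofReal ?_
      rw [Nat.cast_sub (by omega)]
      push_cast
      have hn' : (2 : ℝ) ≤ n := by exact_mod_cast hn
      rw [← mul_div_assoc, div_le_iff₀ (by linarith)]
      linarith
    · simp only [hn, if_false, lintegral_zero, mul_zero]
      exact bot_le
  · simp only [hn, if_true]
    have := h.le_Wf (n - 1) ω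
    have e : n - 1 + 1 = n := by omega
    rw [e] at this
    exact this

theorem IsPBM.areaBd_second [IsProbabilityMeasure P] (h : IsPBM P B) :
    AreaBd P fun ω => (fun t => B t ω) '' Set.Icc (1 / 2) 1 := by
  obtain ⟨C, hC, W, h1, h2, h3⟩ := h.isPBM_rev.areaBd_first
  refine ⟨C, hC, W, h1, h2, fun ω n hn => ?_⟩
  refine le_trans ?_ (h3 ω n hn)
  have hsub : nb ((fun t => B t ω) '' Set.Icc (1 / 2) 1) (1 / 2 ^ n) ⊆
      (fun p : ℝ × ℝ => p + (-(B 1 ω).re, -(B 1 ω).im)) ⁻¹'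
        nb ((fun t => rev B t ω) '' Set.Icc 0 (1 / 2)) (1 / 2 ^ n) := by
    rintro p ⟨w, ⟨t, ht, rfl⟩, g1, g2⟩
    refine ⟨rev B (1 - t) ω, ⟨1 - t, ⟨by linarith [ht.2], by linarith [ht.1]⟩, rfl⟩, ?_, ?_⟩
    · have e : (rev B (1 - t) ω).re - (p + (-(B 1 ω).re, -(B 1 ω).im)).1 =
          (B t ω).re - p.1 := by
        simp only [rev, sub_sub_cancel, Complex.sub_re, Prod.fst_add]
        ring
      rw [e]
      exact g1
    · have e : (rev B (1 - t) ω).im - (p + (-(B 1 ω).re, -(B 1 ω).im)).2 =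
          (B t ω).im - p.2 := by
        simp only [rev, sub_sub_cancel, Complex.sub_im, Prod.snd_add]
        ring
      rw [e]
      exact g2
  refine (measure_mono hsub).trans ?_
  rw [measure_preimage_add_right]

theorem IsPBM.areaBd [IsProbabilityMeasure P] (h : IsPBM P B) :
    AreaBd P fun ω => (fun t => B t ω) '' Set.Icc 0 1 := by
  have h1 := h.areaBd_first.union h.areaBd_second
  have e : (fun ω => (fun t => B t ω) '' Set.Icc 0 (1 / 2) ∪
      (fun t => B t ω) '' Set.Icc (1 / 2) 1) = fun ω => (fun t => B t ω) '' Set.Icc 0 1 := by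
    funext ω
    rw [← image_union, Icc_union_Icc_eq_Icc (by norm_num) (by norm_num)]
  rw [e] at h1
  exact h1

lemma vol_nb_ne_top {K : Set ℂ} (hK : IsCompact K) (r : ℝ) : volume (nb K r) ≠ ⊤ := by
  obtain ⟨R, hR⟩ := hK.isBounded.exists_norm_le
  have hsub : nb K r ⊆ Set.Icc (-(R + r), -(R + r)) (R + r, R + r) := by
    rintro ⟨a, b⟩ ⟨z, hz, g1, g2⟩
    have h1 := (Complex.abs_re_le_norm z).trans (hR z hz)
    have h2 := (Complex.abs_im_le_norm z).trans (hR z hz)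
    rw [abs_le] at h1 h2 g1 g2
    simp only at g1 g2
    refine ⟨⟨?_, ?_⟩, ⟨?_, ?_⟩⟩ <;> simp only <;> linarith [h1.1, h1.2, h2.1, h2.2, g1.1, g1.2]
  exact ((measure_mono hsub).trans_lt isCompact_Icc.measure_lt_top).ne

/-- The hypotheses of the criterion hold almost surely. -/
theorem AreaBd.ae {K : Ω → Set ℂ} (h : AreaBd P K) (hK : ∀ ω, IsCompact (K ω)) :
    ∀ᵐ ω ∂P, ∃ (v : ℕ → ℝ) (L : ℝ), (∀ n, 0 ≤ v n) ∧
      (∀ n, volume (nb (K ω) (1 / 2 ^ n)) ≤ ENNReal.ofReal (v n)) ∧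
      ∃ᶠ n : ℕ in atTop, (n : ℝ) * v n ≤ L ∧ ∑ k ∈ Finset.range n, (k : ℝ) * v k ≤ L * n := by
  obtain ⟨C, hC, W, h1, h2, h3⟩ := h
  let H : ℕ → Ω → ENNReal := fun n ω => (n : ENNReal) * W n ω +
    (n : ENNReal)⁻¹ * ∑ k ∈ Finset.range n, (k : ENNReal) * W k ω
  have hHm : ∀ n, AEMeasurable (H n) P := fun n => by
    refine ((h1 n).const_mul _).add (AEMeasurable.const_mul ?_ _)
    exact Finset.aemeasurable_fun_sum _ fun k _ => (h1 k).const_mul _
  have hHi : ∀ n, ∫⁻ ω, H n ω ∂P ≤ C + C := by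
    intro n
    simp only [H]
    rw [lintegral_add_left' ((h1 n).const_mul _), lintegral_const_mul'' _ (h1 n),
      lintegral_const_mul'' _ (Finset.aemeasurable_fun_sum _ fun k _ => (h1 k).const_mul _),
      lintegral_finsetSum' _ fun k _ => (h1 k).const_mul _]
    refine add_le_add (h2 n) ?_
    have h4 : ∑ k ∈ Finset.range n, ∫⁻ ω, (k : ENNReal) * W k ω ∂P ≤ n * C := by
      calc _ ≤ ∑ k ∈ Finset.range n, C := Finset.sum_le_sum fun k _ => by
            rw [lintegral_const_mul'' _ (h1 k)]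
            exact h2 k
        _ = n * C := by rw [Finset.sum_const, Finset.card_range, nsmul_eq_mul]
    rcases Nat.eq_zero_or_pos n with rfl | hn
    · simp
    · calc (n : ENNReal)⁻¹ * ∑ k ∈ Finset.range n, ∫⁻ ω, (k : ENNReal) * W k ω ∂P
          ≤ (n : ENNReal)⁻¹ * (n * C) := mul_le_mul' le_rfl h4
        _ = C := by
          rw [← mul_assoc, ENNReal.inv_mul_cancel (by exact_mod_cast hn.ne')
            (ENNReal.natCast_ne_top n), one_mul]
  have hlim : ∫⁻ ω, liminf (fun n => H n ω) atTop ∂P ≠ ⊤ := by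
    have h4 : ∫⁻ ω, liminf (fun n => H n ω) atTop ∂P ≤ C + C := by
      refine (lintegral_liminf_le' hHm).trans ?_
      exact Filter.liminf_le_of_frequently_le' (Eventually.frequently (Eventually.of_forall hHi))
    exact (h4.trans_lt (ENNReal.add_lt_top.mpr ⟨hC.lt_top, hC.lt_top⟩)).ne
  have hae := ae_lt_top' (aemeasurable_liminf hHm) hlim
  filter_upwards [hae] with ω hω
  obtain ⟨l, hl1, -⟩ := ENNReal.lt_iff_exists_nnreal_btwn.mp hω
  have hfr : ∃ᶠ n in atTop, H n ω < l := Filter.frequently_lt_of_liminf_lt (by isBoundedDefault) hl1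
  have hfin : ∀ n : ℕ, volume (nb (K ω) (1 / 2 ^ n)) ≠ ⊤ := fun n => vol_nb_ne_top (hK ω) _
  refine ⟨fun n => (volume (nb (K ω) (1 / 2 ^ n))).toReal,
    (volume (nb (K ω) (1 / 2 ^ 1))).toReal + l, fun n => ENNReal.toReal_nonneg,
    fun n => le_of_eq (ENNReal.ofReal_toReal (hfin n)).symm, ?_⟩
  refine (hfr.and_eventually (eventually_ge_atTop 2)).mono ?_
  rintro n ⟨hn1, hn2⟩
  have hnpos : 0 < n := by omega
  have a1 : (n : ENNReal) * W n ω ≤ l := le_self_add.trans hn1.le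
  have a2 : (n : ENNReal)⁻¹ * ∑ k ∈ Finset.range n, (k : ENNReal) * W k ω ≤ l :=
    le_add_self.trans hn1.le
  have a3 : ∑ k ∈ Finset.range n, (k : ENNReal) * W k ω ≤ n * l := by
    calc _ = (n : ENNReal) * ((n : ENNReal)⁻¹ * ∑ k ∈ Finset.range n, (k : ENNReal) * W k ω) := by
          rw [← mul_assoc, ENNReal.mul_inv_cancel (by exact_mod_cast hnpos.ne')
            (ENNReal.natCast_ne_top n), one_mul]
      _ ≤ _ := mul_le_mul' le_rfl a2
  constructor
  · have b1 : (n : ENNReal) * volume (nb (K ω) (1 / 2 ^ n)) ≤ l :=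
      (mul_le_mul' le_rfl (h3 ω n hn2)).trans a1
    have b2 := ENNReal.toReal_mono ENNReal.coe_ne_top b1
    rw [ENNReal.toReal_mul, ENNReal.toReal_natCast, ENNReal.coe_toReal] at b2
    have : 0 ≤ (volume (nb (K ω) (1 / 2 ^ 1))).toReal := ENNReal.toReal_nonneg
    linarith
  · have b0 : ∀ k : ℕ, (k : ENNReal) * volume (nb (K ω) (1 / 2 ^ k)) ≤
        (if k = 1 then volume (nb (K ω) (1 / 2 ^ 1)) else 0) + (k : ENNReal) * W k ω := by
      intro k
      rcases Nat.lt_or_ge k 2 with hk | hk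
      · interval_cases k
        · simp
        · simp only [Nat.cast_one, one_mul, if_true]
          exact le_self_add
      · exact (mul_le_mul' le_rfl (h3 ω k hk)).trans le_add_self
    have b1 : ∑ k ∈ Finset.range n, (k : ENNReal) * volume (nb (K ω) (1 / 2 ^ k)) ≤
        volume (nb (K ω) (1 / 2 ^ 1)) + n * l := by
      refine (Finset.sum_le_sum fun k _ => b0 k).trans ?_
      rw [Finset.sum_add_distrib]
      refine add_le_add ?_ a3
      rw [Finset.sum_ite_eq']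
      split_ifs
      · exact le_rfl
      · exact bot_le
    have b2 := ENNReal.toReal_mono (ENNReal.add_ne_top.mpr ⟨hfin 1,
      ENNReal.mul_ne_top (ENNReal.natCast_ne_top n) ENNReal.coe_ne_top⟩) b1
    rw [ENNReal.toReal_sum (fun k _ => ENNReal.mul_ne_top (ENNReal.natCast_ne_top k) (hfin k)),
      ENNReal.toReal_add (hfin 1) (ENNReal.mul_ne_top (ENNReal.natCast_ne_top n)
        ENNReal.coe_ne_top)] at b2
    simp only [ENNReal.toReal_mul, ENNReal.toReal_natCast, ENNReal.coe_toReal] at b2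
    refine b2.trans ?_
    have c1 : (1 : ℝ) ≤ n := by exact_mod_cast hnpos
    have c2 : 0 ≤ (volume (nb (K ω) (1 / 2 ^ 1))).toReal := ENNReal.toReal_nonneg
    nlinarith

/-- Almost surely, every continuous function which is holomorphic off the Brownian trace and has
second differences `o(|h| √(log 1/|h|))` is entire. -/
theorem IsPBM.entire [IsProbabilityMeasure P] (h : IsPBM P B) :
    ∀ᵐ ω ∂P, ∀ K ⊆ (fun t => B t ω) '' Set.Icc (0 : ℝ) 1, ∀ f : ℂ → ℂ, Continuous f →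
      DifferentiableOn ℂ f Kᶜ → SmallSD f → Differentiable ℂ f := by
  have hK : ∀ ω, IsCompact ((fun t => B t ω) '' Set.Icc (0 : ℝ) 1) := fun ω =>
    isCompact_Icc.image (h.cont ω)
  filter_upwards [h.areaBd.ae hK] with ω hω
  obtain ⟨v, L, h1, h2, h3⟩ := hω
  intro K hKs f hf hd hs
  exact criterion hf (hd.mono (compl_subset_compl.mpr hKs)) v h1 h2 L h3 hs

end Pool.Agent.BMR
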