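import Pool.Agent.Lib.BMR.Scale

/-!
Small ball estimate, independence of the increments from the past, time reversal.
-/

open MeasureTheory Set Filter Topology ProbabilityTheory

namespace Pool.Agent.BMR

set_option linter.unusedSectionVars false

/-- Gaussian mass of a small interval. -/
lemma gauss_Icc {x : ℝ} (hx0 : 0 ≤ x) (hx1 : x ≤ 1) :
    ENNReal.ofReal (x / 3) ≤ gaussianReal 0 1 (Set.Icc (-x) x) := by
  rw [gaussianReal_apply 0 one_ne_zero]
  have h1 : ∀ y ∈ Set.Icc (-x) x, ENNReal.ofReal (1 / 6) ≤ gaussianPDF 0 1 y := by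
    intro y hy
    unfold gaussianPDF gaussianPDFReal
    refine ENNReal.ofReal_le_ofReal ?_
    have hy1 : y ^ 2 ≤ 1 := by
      have := abs_le.mpr hy
      nlinarith [abs_nonneg y, sq_abs y]
    have h2 : Real.exp (-(1 / 2)) ≤ Real.exp (-(y - 0) ^ 2 / (2 * ((1 : NNReal) : ℝ))) := by
      refine Real.exp_le_exp.mpr ?_
      simp only [sub_zero, NNReal.coe_one, mul_one]
      linarith
    have h3 : (1 / 2 : ℝ) ≤ Real.exp (-(1 / 2)) := by
      have := Real.add_one_le_exp (-(1 / 2 : ℝ))
      linarith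
    have h4 : Real.sqrt (2 * Real.pi * ((1 : NNReal) : ℝ)) ≤ 3 := by
      rw [Real.sqrt_le_left (by norm_num)]
      have := Real.pi_lt_d2
      simp only [NNReal.coe_one, mul_one]
      linarith
    have h5 : (1 / 3 : ℝ) ≤ (Real.sqrt (2 * Real.pi * ((1 : NNReal) : ℝ)))⁻¹ := by
      rw [one_div]
      refine inv_anti₀ ?_ h4
      have := Real.pi_pos
      simp only [NNReal.coe_one, mul_one]
      positivity
    calc (1 / 6 : ℝ) = 1 / 3 * (1 / 2) := by norm_num
      _ ≤ _ := mul_le_mul h5 (h3.trans h2) (by norm_num) (by positivity)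
  calc ENNReal.ofReal (x / 3) = ENNReal.ofReal (1 / 6) * volume (Set.Icc (-x) x) := by
        rw [Real.volume_Icc, ← ENNReal.ofReal_mul (by norm_num)]
        congr 1
        ring
    _ = ∫⁻ _ in Set.Icc (-x) x, ENNReal.ofReal (1 / 6) := by
        rw [setLIntegral_const]
    _ ≤ _ := setLIntegral_mono' measurableSet_Icc h1

variable {Ω : Type} [MeasurableSpace Ω] {P : Measure Ω} {B : ℝ → Ω → ℂ}

lemma one_mem : (1 : ℝ) ∈ Set.Icc (0 : ℝ) 1 := ⟨zero_le_one, le_rfl⟩

lemma IsPBM.map_one (h : IsPBM P B) (b : Bool) : P.map (co B (1, b)) = gaussianReal 0 1 := by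
  have h1 := h.map_co (ι := Unit) (fun _ => (1, b)) (fun _ => 1) (fun _ => one_mem)
  simp only [Finset.univ_unique, Finset.sum_const, Finset.card_singleton, one_smul, one_mul] at h1
  have h2 : P.map (co B (1, b)) =
    gaussianReal 0 (qv (ι := Unit) (fun _ => (1, b)) (fun _ => 1)).toNNReal := h1
  rw [h2]
  congr 1
  have h4 : qv (ι := Unit) (fun _ => ((1 : ℝ), b)) (fun _ => 1) = 1 := by
    unfold qv
    cases b <;> simp
  rw [h4]
  exact Real.toNNReal_one

/-- Small ball estimate at time one. -/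
lemma IsPBM.ball_one [IsFiniteMeasure P] (h : IsPBM P B) {x : ℝ} (hx0 : 0 ≤ x) (hx1 : x ≤ 1) :
    ENNReal.ofReal (x ^ 2 / 9) ≤ P {ω | |(B 1 ω).re| ≤ x ∧ |(B 1 ω).im| ≤ x} := by
  -- independence of the coordinates
  have hG : IsGaussianProcess (Sum.elim (fun _ : Unit => co B (1, true))
      (fun _ : Unit => co B (1, false))) P := by
    have := h.gaussian (T := Unit ⊕ Unit) (Sum.elim (fun _ => (1, true)) (fun _ => (1, false)))
      (by rintro (i | i) <;> exact one_mem)
    have e : (Sum.elim (fun _ : Unit => co B (1, true)) (fun _ : Unit => co B (1, false))) =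
        fun (i : Unit ⊕ Unit) ω => co B (Sum.elim (fun _ => ((1 : ℝ), true))
          (fun _ => ((1 : ℝ), false)) i) ω := by
      funext i
      rcases i with i | i <;> rfl
    rw [e]
    exact this
  have hI := hG.indepFun_of_covariance_eq_zero (fun _ => h.aemeasurable_co _ one_mem)
    (fun _ => h.aemeasurable_co _ one_mem) (fun _ _ => by
      rw [h.cov_co _ _ one_mem one_mem]
      simp)
  have m1 : MeasurableSet {y : Unit → ℝ | |y ()| ≤ x} := by
    have : Measurable fun y : Unit → ℝ => |y ()| := by fun_prop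
    exact this measurableSet_Iic
  have hm := hI.measure_inter_preimage_eq_mul _ _ m1 m1
  have e1 : {ω | |(B 1 ω).re| ≤ x ∧ |(B 1 ω).im| ≤ x} =
      (fun ω (_ : Unit) => co B (1, true) ω) ⁻¹' {y | |y ()| ≤ x} ∩
        (fun ω (_ : Unit) => co B (1, false) ω) ⁻¹' {y | |y ()| ≤ x} := by
    ext ω
    simp [co]
  have e2 : ∀ b : Bool, ENNReal.ofReal (x / 3) ≤
      P ((fun ω (_ : Unit) => co B (1, b) ω) ⁻¹' {y | |y ()| ≤ x}) := by
    intro b
    have e3 : (fun ω (_ : Unit) => co B (1, b) ω) ⁻¹' {y | |y ()| ≤ x} =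
        co B (1, b) ⁻¹' Set.Icc (-x) x := by
      ext ω
      simp [abs_le]
    rw [e3, ← Measure.map_apply_of_aemeasurable (h.aemeasurable_co _ one_mem) measurableSet_Icc,
      h.map_one b]
    exact gauss_Icc hx0 hx1
  rw [e1, hm]
  calc ENNReal.ofReal (x ^ 2 / 9) = ENNReal.ofReal (x / 3) * ENNReal.ofReal (x / 3) := by
        rw [← ENNReal.ofReal_mul (by positivity)]
        congr 1
        ring
    _ ≤ _ := mul_le_mul' (e2 true) (e2 false)

/-- Small ball estimate for increments. -/
lemma IsPBM.ball [IsFiniteMeasure P] (h : IsPBM P B) {s t r : ℝ} (hs : 0 ≤ s) (hst : s < t)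
    (ht : t ≤ 1) (hr0 : 0 ≤ r) (hr : r ^ 2 ≤ t - s) :
    ENNReal.ofReal (r ^ 2 / (9 * (t - s))) ≤
      P {ω | |(B t ω).re - (B s ω).re| ≤ r ∧ |(B t ω).im - (B s ω).im| ≤ r} := by
  have hd : 0 < t - s := sub_pos.mpr hst
  have hsq : 0 < Real.sqrt (t - s) := Real.sqrt_pos.mpr hd
  have hx1 : r / Real.sqrt (t - s) ≤ 1 := by
    rw [div_le_one hsq]
    exact Real.le_sqrt_of_sq_le hr
  have h1 := (h.isPBM_seg hs hst ht).ball_one (x := r / Real.sqrt (t - s)) (by positivity) hx1
  have e1 : (r / Real.sqrt (t - s)) ^ 2 / 9 = r ^ 2 / (9 * (t - s)) := by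
    rw [div_pow, Real.sq_sqrt hd.le]
    field_simp
  rw [e1] at h1
  refine h1.trans (measure_mono ?_)
  rintro ω ⟨g1, g2⟩
  rw [seg_re] at g1
  rw [seg_im] at g2
  have e2 : s + 1 * (t - s) = t := by ring
  rw [e2, abs_mul, abs_of_pos (inv_pos.mpr hsq), inv_mul_le_iff₀ hsq,
    mul_div_cancel₀ _ hsq.ne'] at g1
  rw [e2, abs_mul, abs_of_pos (inv_pos.mpr hsq), inv_mul_le_iff₀ hsq,
    mul_div_cancel₀ _ hsq.ne'] at g2
  exact ⟨g1, g2⟩

/-- The increments are independent of the past. -/
theorem IsPBM.indep_past [IsFiniteMeasure P] (h : IsPBM P B) {T : Type*} (u : T → ℝ) {s t : ℝ}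
    (hs : 0 ≤ s) (hst : s ≤ t) (ht : t ≤ 1) (hu : ∀ i, u i ∈ Set.Icc (0 : ℝ) s) :
    IndepFun (fun ω (q : T × Bool) => co B (u q.1, q.2) ω)
      (fun ω (b : Bool) => co B (t, b) ω - co B (s, b) ω) P := by
  classical
  have hbase : IsGaussianProcess
      (fun (p : {p : ℝ × Bool // p.1 ∈ Set.Icc (0 : ℝ) 1}) (ω : Ω) => co B p ω) P :=
    h.gaussian Subtype.val fun p => p.2
  have m1 : ∀ q : T × Bool, u q.1 ∈ Set.Icc (0 : ℝ) 1 := fun q =>
    ⟨(hu q.1).1, (hu q.1).2.trans (hst.trans ht)⟩
  have mt : t ∈ Set.Icc (0 : ℝ) 1 := ⟨hs.trans hst, ht⟩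
  have ms : s ∈ Set.Icc (0 : ℝ) 1 := ⟨hs, hst.trans ht⟩
  let Y1 : T × Bool → Ω → ℝ := fun q ω => co B (u q.1, q.2) ω
  let Y2 : Bool → Ω → ℝ := fun b ω => co B (t, b) ω - co B (s, b) ω
  have hG : IsGaussianProcess (Sum.elim Y1 Y2) P := by
    refine hbase.of_isGaussianProcess ?_
    rintro (q | b)
    · exact ⟨{⟨(u q.1, q.2), m1 q⟩},
        { toFun x := x ⟨⟨(u q.1, q.2), m1 q⟩, by simp⟩
          map_add' x y := by simp
          map_smul' c x := by simp },
        fun ω => rfl⟩
    · exact ⟨{⟨(t, b), mt⟩, ⟨(s, b), ms⟩},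
        { toFun x := x ⟨⟨(t, b), mt⟩, by simp⟩ - x ⟨⟨(s, b), ms⟩, by simp⟩
          map_add' x y := by simp; abel
          map_smul' c x := by simp; ring },
        fun ω => rfl⟩
  have hL : ∀ p : ℝ × Bool, p.1 ∈ Set.Icc (0 : ℝ) 1 → MemLp (co B p) 2 P := fun p hp =>
    (hbase.hasGaussianLaw_eval ⟨p, hp⟩).memLp_two
  refine hG.indepFun_of_covariance_eq_zero ?_ ?_ ?_
  · exact fun q => h.aemeasurable_co _ (m1 q)
  · exact fun b => (h.aemeasurable_co _ mt).sub (h.aemeasurable_co _ ms)
  · intro q b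
    have e1 : Y1 q = co B (u q.1, q.2) := rfl
    have e2 : Y2 b = co B (t, b) - co B (s, b) := rfl
    rw [e1, e2, covariance_sub_right (hL _ (m1 q)) (hL _ mt) (hL _ ms), h.cov_co _ _ (m1 q) mt,
      h.cov_co _ _ (m1 q) ms]
    have a1 := hu q.1
    split_ifs
    · simp only
      rw [min_eq_left (a1.2.trans hst), min_eq_left a1.2, sub_self]
    · ring

/-- The time reversed process. -/
noncomputable def rev (B : ℝ → Ω → ℂ) (u : ℝ) (ω : Ω) : ℂ := B (1 - u) ω - B 1 ω

/-- The time reversed process is a planar Brownian motion. -/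
theorem IsPBM.isPBM_rev (h : IsPBM P B) : IsPBM P (rev B) where
  zero ω := by simp [rev]
  cont ω := by
    unfold rev
    have h1 : Continuous fun u : ℝ => B (1 - u) ω := (h.cont ω).comp (by fun_prop)
    exact h1.sub continuous_const
  law n u a b hu := by
    let τ : Option (Fin n) → ℝ := fun o => o.elim 1 fun i => 1 - u i
    let α : Option (Fin n) → ℝ := fun o => o.elim (-∑ i, a i) fun i => a i
    let β : Option (Fin n) → ℝ := fun o => o.elim (-∑ i, b i) fun i => b i
    have hτ : ∀ o, τ o ∈ Set.Icc (0 : ℝ) 1 := by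
      rintro (_ | i)
      · exact one_mem
      · have h1 := hu i
        change 1 - u i ∈ Set.Icc (0 : ℝ) 1
        exact ⟨by linarith [h1.2], by linarith [h1.1]⟩
    have h0 := h.map_lin τ α β hτ
    have h1 : (fun ω => ∑ o, (α o * (B (τ o) ω).re + β o * (B (τ o) ω).im)) =
        fun ω => ∑ i, (a i * (rev B (u i) ω).re + b i * (rev B (u i) ω).im) := by
      ext ω
      rw [Fintype.sum_option]
      simp only [τ, α, β, Option.elim, rev, Complex.sub_re, Complex.sub_im]
      rw [neg_mul, neg_mul, Finset.sum_mul, Finset.sum_mul,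
        ← neg_add, ← Finset.sum_add_distrib, ← sub_eq_neg_add, ← Finset.sum_sub_distrib]
      refine Finset.sum_congr rfl fun i _ => ?_
      ring
    -- the kernel
    let g : Option (Fin n) → Option (Fin n) → ℝ := fun o o' =>
      o.elim 0 fun i => o'.elim 0 fun j => min (u i) (u j)
    let v : Option (Fin n) → ℝ := fun o => o.elim 0 fun i => u i
    have hm : ∀ o o', min (τ o) (τ o') = 1 - v o - v o' + g o o' := by
      rintro (_ | i) (_ | j)
      · simp [τ, g, v]
      · simp only [τ, g, v, Option.elim]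
        rw [min_eq_right (by linarith [(hu j).1])]
        ring
      · simp only [τ, g, v, Option.elim]
        rw [min_eq_left (by linarith [(hu i).1])]
        ring
      · simp only [τ, g, v, Option.elim]
        rcases le_total (u i) (u j) with hij | hij
        · rw [min_eq_right (by linarith), min_eq_left hij]
          ring
        · rw [min_eq_left (by linarith), min_eq_right hij]
          ring
    have hα : ∑ o, α o = 0 := by
      rw [Fintype.sum_option]
      simp only [α, Option.elim]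
      ring
    have hβ : ∑ o, β o = 0 := by
      rw [Fintype.sum_option]
      simp only [β, Option.elim]
      ring
    have gen : ∀ γ : Option (Fin n) → ℝ, ∑ o, γ o = 0 →
        ∑ o, ∑ o', γ o * γ o' * min (τ o) (τ o') = ∑ o, ∑ o', γ o * γ o' * g o o' := by
      intro γ hγ
      have e1 : ∀ o, ∑ o', γ o * γ o' * min (τ o) (τ o') =
          γ o * (1 - v o) * ∑ o', γ o' - γ o * ∑ o', γ o' * v o' + ∑ o', γ o * γ o' * g o o' := by
        intro o
        rw [Finset.mul_sum, Finset.mul_sum, ← Finset.sum_sub_distrib, ← Finset.sum_add_distrib]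
        refine Finset.sum_congr rfl fun o' _ => ?_
        rw [hm]
        ring
      rw [Finset.sum_congr rfl fun o _ => e1 o]
      rw [Finset.sum_add_distrib, hγ]
      have e2 : ∑ o, (γ o * (1 - v o) * 0 - γ o * ∑ o', γ o' * v o') = 0 := by
        rw [Finset.sum_congr rfl fun o _ => show γ o * (1 - v o) * 0 - γ o * ∑ o', γ o' * v o' =
          γ o * (-∑ o', γ o' * v o') by ring, ← Finset.sum_mul, hγ, zero_mul]
      rw [e2, zero_add]
    have h2 : ∑ o, ∑ o', (α o * α o' + β o * β o') * min (τ o) (τ o') =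
        ∑ i, ∑ j, (a i * a j + b i * b j) * min (u i) (u j) := by
      have e1 : ∑ o, ∑ o', (α o * α o' + β o * β o') * min (τ o) (τ o') =
          ∑ o, ∑ o', α o * α o' * min (τ o) (τ o') + ∑ o, ∑ o', β o * β o' * min (τ o) (τ o') := by
        rw [← Finset.sum_add_distrib]
        refine Finset.sum_congr rfl fun o _ => ?_
        rw [← Finset.sum_add_distrib]
        refine Finset.sum_congr rfl fun o' _ => ?_
        ring
      have e3 : ∀ (γ : Option (Fin n) → ℝ) (c : Fin n → ℝ), (∀ i, γ (some i) = c i) →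
          ∑ o, ∑ o', γ o * γ o' * g o o' = ∑ i, ∑ j, c i * c j * min (u i) (u j) := by
        intro γ c hc
        rw [Fintype.sum_option]
        have z1 : ∑ o', γ none * γ o' * g none o' = 0 :=
          Finset.sum_eq_zero fun o' _ => by simp [g]
        rw [z1, zero_add]
        refine Finset.sum_congr rfl fun i _ => ?_
        rw [Fintype.sum_option]
        have z2 : γ (some i) * γ none * g (some i) none = 0 := by simp [g]
        rw [z2, zero_add]
        refine Finset.sum_congr rfl fun j _ => ?_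
        rw [hc, hc]
        rfl
      rw [e1, gen α hα, gen β hβ, e3 α a (fun i => rfl), e3 β b (fun i => rfl),
        ← Finset.sum_add_distrib]
      refine Finset.sum_congr rfl fun i _ => ?_
      rw [← Finset.sum_add_distrib]
      refine Finset.sum_congr rfl fun j _ => ?_
      ring
    rw [h1, h2] at h0
    exact h0

end Pool.Agent.BMR
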