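import Pool.Agent.Lib.BMR.Grid

/-!
A removability criterion for functions with small second differences.
-/

open MeasureTheory Set Filter Topology Complex

namespace Pool.Agent.BMR

variable {f : ℂ → ℂ} {K : Set ℂ}

lemma norm_gs_le (n : ℕ) (F : ℝ → ℝ → ℝ → ℝ → ℂ) (x y s t : ℝ) :
    ‖gs n F x y s t‖ ≤ gs n (fun x y s t => ‖F x y s t‖) x y s t := by
  induction n generalizing x y s t with
  | zero => exact le_rfl
  | succ n ih =>
    rw [gs, gs]
    refine (norm_add_le _ _).trans (add_le_add ((norm_add_le _ _).trans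
      (add_le_add ((norm_add_le _ _).trans (add_le_add (ih _ _ _ _) (ih _ _ _ _)))
        (ih _ _ _ _))) (ih _ _ _ _))

lemma gs_nonneg (n : ℕ) (F : ℝ → ℝ → ℝ → ℝ → ℝ) (hF : ∀ x y s t, 0 ≤ s → 0 ≤ t → 0 ≤ F x y s t)
    (x y s t : ℝ) (hs : 0 ≤ s) (ht : 0 ≤ t) : 0 ≤ gs n F x y s t := by
  induction n generalizing x y s t with
  | zero => exact hF x y s t hs ht
  | succ n ih =>
    rw [gs]
    have a := ih x y (s / 2) (t / 2) (by linarith) (by linarith)
    have b := ih (x + s / 2) y (s / 2) (t / 2) (by linarith) (by linarith)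
    have c := ih x (y + t / 2) (s / 2) (t / 2) (by linarith) (by linarith)
    have d := ih (x + s / 2) (y + t / 2) (s / 2) (t / 2) (by linarith) (by linarith)
    linarith

/-- Energy bound. -/
lemma energy (hf : Continuous f) (hK : DifferentiableOn ℂ f Kᶜ) (x y s t : ℝ) (hs : 0 < s)
    (ht : 0 < t) (δ : ℕ → ℝ) (hδ : ∀ k, 0 ≤ δ k)
    (h : ∀ k x' y', x ≤ x' → x' + s / 2 ^ k ≤ x + s → y ≤ y' → y' + t / 2 ^ k ≤ y + t →
      SD f x' y' (s / 2 ^ k) (t / 2 ^ k) (δ k)) (n : ℕ) :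
    gs n (en f) x y s t ≤ en f x y s t + ∑ k ∈ Finset.range n,
      16 * (s + t) ^ 2 / (s * t) ^ 2 * (4 ^ k * (δ k) ^ 2) * gs k (ar K) x y s t := by
  induction n with
  | zero => simp [gs]
  | succ n ih =>
    rw [Finset.sum_range_succ, ← add_assoc]
    have h1 : gs (n + 1) (en f) x y s t ≤ gs n (fun x y s' t' => en f x y s' t' +
        (16 * (s + t) ^ 2 / (s * t) ^ 2 * (4 ^ n * (δ n) ^ 2)) * ar K x y s' t') x y s t := by
      rw [gs_succ']
      refine gs_mono n _ _ x y s t hs.le ht.le ?_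
      intro x' y' g1 g2 g3 g4
      have p2 : (0 : ℝ) < 2 ^ n := by positivity
      have hs' : 0 < s / 2 ^ n := div_pos hs p2
      have ht' : 0 < t / 2 ^ n := div_pos ht p2
      by_cases hm : meets K x' y' (s / 2 ^ n) (t / 2 ^ n)
      · have k1 := en_step hf x' y' _ _ (δ n) hs' ht' (h n x' y' g1 g2 g3 g4) (hδ n)
        refine k1.trans (le_of_eq ?_)
        simp only [ar, hm, if_true]
        have e4 : (4 : ℝ) ^ n = 2 ^ n * 2 ^ n := by
          rw [← mul_pow]
          norm_num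
        rw [e4]
        have hp : (2 : ℝ) ^ n ≠ 0 := p2.ne'
        field_simp
      · -- everything vanishes
        have z : ∀ x1 y1, x' ≤ x1 → x1 + s / 2 ^ n / 2 ≤ x' + s / 2 ^ n → y' ≤ y1 →
            y1 + t / 2 ^ n / 2 ≤ y' + t / 2 ^ n →
            en f x1 y1 (s / 2 ^ n / 2) (t / 2 ^ n / 2) = 0 := by
          intro x1 y1 a1 a2 a3 a4
          have : bd f x1 y1 (s / 2 ^ n / 2) (t / 2 ^ n / 2) = 0 :=
            bd_eq_zero hK _ _ _ _ (by linarith) (by linarith) fun hc => hm (hc.mono a1 a2 a3 a4)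
          simp [en, this]
        have z0 : gs 1 (en f) x' y' (s / 2 ^ n) (t / 2 ^ n) = 0 := by
          simp only [gs]
          rw [z _ _ le_rfl (by linarith) le_rfl (by linarith),
            z _ _ (by linarith) (by linarith) le_rfl (by linarith),
            z _ _ le_rfl (by linarith) (by linarith) (by linarith),
            z _ _ (by linarith) (by linarith) (by linarith) (by linarith)]
          norm_num
        rw [z0]
        simp only [ar, hm, if_false, mul_zero, add_zero]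
        unfold en
        exact div_nonneg (sq_nonneg _) (mul_pos hs' ht').le
    rw [gs_add, gs_mul] at h1
    linarith

/-- The boundary integral is controlled by the energy and the area. -/
lemma bd_le (hf : Continuous f) (hK : DifferentiableOn ℂ f Kᶜ) (x y s t : ℝ) (hs : 0 < s)
    (ht : 0 < t) (n : ℕ) (l : ℝ) (hl : 0 < l) :
    ‖bd f x y s t‖ ≤ l / 2 * gs n (en f) x y s t + 1 / (2 * l) * gs n (ar K) x y s t := by
  rw [← bd_gs hf n x y s t, ← gs_mul, ← gs_mul, ← gs_add]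
  refine (norm_gs_le _ _ _ _ _ _).trans ?_
  refine gs_mono n _ _ x y s t hs.le ht.le ?_
  intro x' y' _ _ _ _
  have p2 : (0 : ℝ) < 2 ^ n := by positivity
  have hs' : 0 < s / 2 ^ n := div_pos hs p2
  have ht' : 0 < t / 2 ^ n := div_pos ht p2
  by_cases hm : meets K x' y' (s / 2 ^ n) (t / 2 ^ n)
  · simp only [ar, hm, if_true, en]
    set b := ‖bd f x' y' (s / 2 ^ n) (t / 2 ^ n)‖
    set A := s / 2 ^ n * (t / 2 ^ n) with hA
    have hA0 : 0 < A := mul_pos hs' ht'
    have h1 : l / 2 * (b ^ 2 / A) + 1 / (2 * l) * A - b = (l * b - A) ^ 2 / (2 * l * A) := by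
      field_simp
      ring
    have h2 : 0 ≤ (l * b - A) ^ 2 / (2 * l * A) := by positivity
    linarith
  · have : bd f x' y' (s / 2 ^ n) (t / 2 ^ n) = 0 :=
      bd_eq_zero hK _ _ _ _ hs'.le ht'.le hm
    simp [this, ar, hm, en]

/-- The sup norm neighbourhood. -/
def nb (K : Set ℂ) (r : ℝ) : Set (ℝ × ℝ) :=
  {p | ∃ z ∈ K, |z.re - p.1| ≤ r ∧ |z.im - p.2| ≤ r}

lemma nb_mono (K : Set ℂ) {r r' : ℝ} (h : r ≤ r') : nb K r ⊆ nb K r' := by
  rintro p ⟨z, hz, h1, h2⟩
  exact ⟨z, hz, h1.trans h, h2.trans h⟩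

/-- The counting area is at most the area of the neighbourhood. -/
lemma gs_ar_le (r : ℝ) (n : ℕ) (x y s t : ℝ) (hs : 0 ≤ s) (ht : 0 ≤ t) (hsr : s / 2 ^ n ≤ r)
    (htr : t / 2 ^ n ≤ r) :
    ENNReal.ofReal (gs n (ar K) x y s t) ≤
      volume (nb K r ∩ (Set.Ico x (x + s) ×ˢ Set.Ico y (y + t))) := by
  induction n generalizing x y s t with
  | zero =>
    simp only [gs, ar]
    rw [pow_zero, div_one] at hsr htr
    split_ifs with hm
    · obtain ⟨z, hz, g1, g2, g3, g4⟩ := hm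
      have h1 : nb K r ∩ (Set.Ico x (x + s) ×ˢ Set.Ico y (y + t)) =
          Set.Ico x (x + s) ×ˢ Set.Ico y (y + t) := by
        refine inter_eq_right.mpr ?_
        rintro ⟨a, b⟩ ⟨ha, hb⟩
        simp only [mem_Ico] at ha hb
        refine ⟨z, hz, ?_, ?_⟩
        · rw [abs_le]
          constructor <;> simp only <;> linarith
        · rw [abs_le]
          constructor <;> simp only <;> linarith
      rw [h1, Measure.volume_eq_prod, Measure.prod_prod, Real.volume_Ico, Real.volume_Ico,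
        add_sub_cancel_left, add_sub_cancel_left, ENNReal.ofReal_mul hs]
    · simp
  | succ n ih =>
    have e1 : ∀ s : ℝ, s / 2 / 2 ^ n = s / 2 ^ (n + 1) := fun s => by rw [pow_succ]; field_simp
    have q : ∀ x1 y1, ENNReal.ofReal (gs n (ar K) x1 y1 (s / 2) (t / 2)) ≤
        volume (nb K r ∩ (Set.Ico x1 (x1 + s / 2) ×ˢ Set.Ico y1 (y1 + t / 2))) := fun x1 y1 =>
      ih x1 y1 (s / 2) (t / 2) (by linarith) (by linarith) (by rw [e1]; exact hsr)
        (by rw [e1]; exact htr)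
    -- splitting of the volume
    have sh : ∀ x1 y1 s1 s2 t1 : ℝ, 0 ≤ s1 → 0 ≤ s2 →
        volume (nb K r ∩ (Set.Ico x1 (x1 + s1) ×ˢ Set.Ico y1 (y1 + t1))) +
        volume (nb K r ∩ (Set.Ico (x1 + s1) (x1 + s1 + s2) ×ˢ Set.Ico y1 (y1 + t1))) =
        volume (nb K r ∩ (Set.Ico x1 (x1 + s1 + s2) ×ˢ Set.Ico y1 (y1 + t1))) := by
      intro x1 y1 s1 s2 t1 h1 h2
      rw [← measure_inter_add_sdiff (nb K r ∩ (Set.Ico x1 (x1 + s1 + s2) ×ˢ Set.Ico y1 (y1 + t1)))
        (t := {p : ℝ × ℝ | p.1 < x1 + s1}) (measurableSet_lt measurable_fst measurable_const)]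
      congr 2
      · ext ⟨a, b⟩
        simp only [mem_inter_iff, mem_prod, mem_Ico, Set.mem_ofPred_eq]
        constructor
        · rintro ⟨g1, ⟨g2, g3⟩, g4⟩
          exact ⟨⟨g1, ⟨g2, by linarith⟩, g4⟩, g3⟩
        · rintro ⟨⟨g1, ⟨g2, _⟩, g4⟩, g3⟩
          exact ⟨g1, ⟨g2, g3⟩, g4⟩
      · ext ⟨a, b⟩
        simp only [mem_inter_iff, mem_prod, mem_Ico, Set.mem_sdiff, Set.mem_ofPred_eq, not_lt]
        constructor
        · rintro ⟨g1, ⟨g2, g3⟩, g4⟩
          exact ⟨⟨g1, ⟨by linarith, g3⟩, g4⟩, g2⟩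
        · rintro ⟨⟨g1, ⟨_, g3⟩, g4⟩, g2⟩
          exact ⟨g1, ⟨g2, g3⟩, g4⟩
    have sv : ∀ x1 y1 s1 t1 t2 : ℝ, 0 ≤ t1 → 0 ≤ t2 →
        volume (nb K r ∩ (Set.Ico x1 (x1 + s1) ×ˢ Set.Ico y1 (y1 + t1))) +
        volume (nb K r ∩ (Set.Ico x1 (x1 + s1) ×ˢ Set.Ico (y1 + t1) (y1 + t1 + t2))) =
        volume (nb K r ∩ (Set.Ico x1 (x1 + s1) ×ˢ Set.Ico y1 (y1 + t1 + t2))) := by
      intro x1 y1 s1 t1 t2 h1 h2
      rw [← measure_inter_add_sdiff (nb K r ∩ (Set.Ico x1 (x1 + s1) ×ˢ Set.Ico y1 (y1 + t1 + t2)))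
        (t := {p : ℝ × ℝ | p.2 < y1 + t1}) (measurableSet_lt measurable_snd measurable_const)]
      congr 2
      · ext ⟨a, b⟩
        simp only [mem_inter_iff, mem_prod, mem_Ico, Set.mem_ofPred_eq]
        constructor
        · rintro ⟨g1, g4, ⟨g2, g3⟩⟩
          exact ⟨⟨g1, g4, ⟨g2, by linarith⟩⟩, g3⟩
        · rintro ⟨⟨g1, g4, ⟨g2, _⟩⟩, g3⟩
          exact ⟨g1, g4, ⟨g2, g3⟩⟩
      · ext ⟨a, b⟩
        simp only [mem_inter_iff, mem_prod, mem_Ico, Set.mem_sdiff, Set.mem_ofPred_eq, not_lt]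
        constructor
        · rintro ⟨g1, g4, ⟨g2, g3⟩⟩
          exact ⟨⟨g1, g4, ⟨by linarith, g3⟩⟩, g2⟩
        · rintro ⟨⟨g1, g4, ⟨_, g3⟩⟩, g2⟩
          exact ⟨g1, g4, ⟨g2, g3⟩⟩
    rw [gs]
    have v1 := sh x y (s / 2) (s / 2) (t / 2) (by linarith) (by linarith)
    have v2 := sh x (y + t / 2) (s / 2) (s / 2) (t / 2) (by linarith) (by linarith)
    have v3 := sv x y (s / 2 + s / 2) (t / 2) (t / 2) (by linarith) (by linarith)
    have r1 : x + s / 2 + s / 2 = x + s := by ring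
    have r2 : y + t / 2 + t / 2 = y + t := by ring
    have r3 : s / 2 + s / 2 = s := by ring
    have q1 := q x y
    have q2 := q (x + s / 2) y
    have q3 := q x (y + t / 2)
    have q4 := q (x + s / 2) (y + t / 2)
    rw [r1] at v1 v2 q2 q4
    rw [r2] at v2 q3 q4
    rw [r3, r2] at v3
    rw [← v3, ← v1, ← v2]
    refine (ENNReal.ofReal_add_le).trans ?_
    refine (add_le_add ((ENNReal.ofReal_add_le).trans (add_le_add (ENNReal.ofReal_add_le)
      le_rfl)) le_rfl).trans ?_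
    refine (add_le_add (add_le_add (add_le_add q1 q2) q3) q4).trans ?_
    rw [add_assoc]

/-- The function `h ↦ h² log (1/h)` is increasing for small `h`. -/
lemma sq_log_mono {a b : ℝ} (ha : 0 < a) (hab : a ≤ b) (hb : b ≤ Real.exp (-1)) :
    a ^ 2 * Real.log (1 / a) ≤ b ^ 2 * Real.log (1 / b) := by
  have hb0 : 0 < b := ha.trans_le hab
  have hL : 1 ≤ Real.log (1 / b) := by
    rw [one_div, Real.log_inv]
    have := Real.log_le_log hb0 hb
    rw [Real.log_exp] at this
    linarith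
  have h1 : Real.log (1 / a) = Real.log (1 / b) + Real.log (b / a) := by
    rw [← Real.log_mul (by positivity) (by positivity)]
    congr 1
    field_simp
  have h2 : Real.log (b / a) ≤ b / a - 1 := Real.log_le_sub_one_of_pos (by positivity)
  have h3 : a ^ 2 * Real.log (b / a) ≤ a * (b - a) := by
    calc a ^ 2 * Real.log (b / a) ≤ a ^ 2 * (b / a - 1) :=
          mul_le_mul_of_nonneg_left h2 (sq_nonneg a)
      _ = a * (b - a) := by field_simp
  have h4 : a * (b - a) ≤ (b ^ 2 - a ^ 2) * Real.log (1 / b) := by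
    have h5 : 0 ≤ b ^ 2 - a ^ 2 := by nlinarith
    have h6 : a * (b - a) ≤ b ^ 2 - a ^ 2 := by nlinarith
    nlinarith
  rw [h1]
  nlinarith

/-- Small second differences: `o(|h| √(log 1/|h|))`, locally uniformly. -/
def SmallSD (f : ℂ → ℂ) : Prop :=
  ∀ R ε : ℝ, 0 < ε → ∃ δ > 0, ∀ z h : ℂ, ‖z‖ ≤ R → 0 < ‖h‖ → ‖h‖ < δ →
    ‖f (z + h) + f (z - h) - 2 * f z‖ ≤ ε * (‖h‖ * Real.sqrt (Real.log (1 / ‖h‖)))

/-- Second differences on the subrectangles of a given rectangle. -/
lemma sd_of_small (hf : Continuous f) (hsd : SmallSD f) (x y s t : ℝ) (hs : 0 < s) (ht : 0 < t)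
    (ε : ℝ) (hε : 0 < ε) : ∃ (k₀ : ℕ) (D : ℝ), 0 ≤ D ∧ ∀ k x' y', x ≤ x' →
      x' + s / 2 ^ k ≤ x + s → y ≤ y' → y' + t / 2 ^ k ≤ y + t →
      SD f x' y' (s / 2 ^ k) (t / 2 ^ k) (if k < k₀ then D else
        ε * ((s + t) / 2 ^ k * Real.sqrt (Real.log (1 / ((s + t) / 2 ^ k))))) := by
  -- a bound for the modulus of points of the rectangle
  obtain ⟨δ, hδ, hsd⟩ := hsd (|x| + s + (|y| + t)) ε hε
  -- bound of f on the rectangle
  have hcomp : IsCompact ((fun p : ℝ × ℝ => (p.1 : ℂ) + (p.2 : ℂ) * I) ''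
      (Set.Icc x (x + s) ×ˢ Set.Icc y (y + t))) :=
    (isCompact_Icc.prod isCompact_Icc).image (by fun_prop)
  obtain ⟨C, hC⟩ := hcomp.exists_bound_of_continuousOn hf.continuousOn
  have hC' : ∀ a b : ℝ, x ≤ a → a ≤ x + s → y ≤ b → b ≤ y + t →
      ‖f ((a : ℂ) + (b : ℂ) * I)‖ ≤ C := fun a b h1 h2 h3 h4 =>
    hC _ ⟨(a, b), ⟨⟨h1, h2⟩, ⟨h3, h4⟩⟩, rfl⟩
  have hst : 0 < s + t := by linarith
  -- threshold
  obtain ⟨k₀, hk₀⟩ := pow_unbounded_of_one_lt ((s + t) / min (δ / 2) (Real.exp (-1)))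
    (one_lt_two (α := ℝ))
  have hmin : 0 < min (δ / 2) (Real.exp (-1)) := lt_min (by linarith) (Real.exp_pos _)
  have hC0 : 0 ≤ C := (norm_nonneg _).trans (hC' x y le_rfl (by linarith) le_rfl (by linarith))
  refine ⟨k₀, 4 * C, by linarith, ?_⟩
  intro k x' y' g1 g2 g3 g4 a b h l a1 a2 b1 b2
  have p2 : (0 : ℝ) < 2 ^ k := by positivity
  have hs' : 0 < s / 2 ^ k := div_pos hs p2
  have ht' : 0 < t / 2 ^ k := div_pos ht p2
  have hh := abs_le.mp (le_refl |h|)
  have hl := abs_le.mp (le_refl |l|)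
  split_ifs with hk
  · have e1 := hC' (a + h) (b + l) (by linarith) (by linarith) (by linarith) (by linarith)
    have e2 := hC' (a - h) (b - l) (by linarith) (by linarith) (by linarith) (by linarith)
    have e3 := hC' a b (by linarith [abs_nonneg h]) (by linarith [abs_nonneg h])
      (by linarith [abs_nonneg l]) (by linarith [abs_nonneg l])
    refine (norm_sub_le _ _).trans ?_
    have e4 := norm_add_le (f (((a + h : ℝ) : ℂ) + ((b + l : ℝ) : ℂ) * I))
      (f (((a - h : ℝ) : ℂ) + ((b - l : ℝ) : ℂ) * I))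
    rw [norm_mul, Complex.norm_ofNat]
    linarith
  · -- small scale
    push Not at hk
    set H := (s + t) / 2 ^ k with hH
    have hHpos : 0 < H := div_pos hst p2
    have hHle : H ≤ min (δ / 2) (Real.exp (-1)) := by
      rw [hH, div_le_iff₀ p2]
      rw [div_lt_iff₀ hmin] at hk₀
      have : (2 : ℝ) ^ k₀ ≤ 2 ^ k := pow_le_pow_right₀ (by norm_num) hk
      nlinarith
    set w : ℂ := (h : ℂ) + (l : ℂ) * I with hw
    have hwn : ‖w‖ ≤ H := by
      have h1 : ‖w‖ ≤ |h| + |l| := by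
        rw [hw]
        refine (norm_add_le _ _).trans ?_
        rw [norm_mul, norm_I, mul_one, Complex.norm_real, Complex.norm_real, Real.norm_eq_abs,
          Real.norm_eq_abs]
      have h2 : |h| ≤ s / 2 ^ k := by linarith [abs_nonneg h]
      have h3 : |l| ≤ t / 2 ^ k := by linarith [abs_nonneg l]
      have h4 : H = s / 2 ^ k + t / 2 ^ k := by rw [hH, add_div]
      linarith
    have hrhs : 0 ≤ ε * (H * Real.sqrt (Real.log (1 / H))) := by positivity
    have ea : ((a + h : ℝ) : ℂ) + ((b + l : ℝ) : ℂ) * I = ((a : ℂ) + (b : ℂ) * I) + w := by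
      rw [hw]
      push_cast
      ring
    have eb : ((a - h : ℝ) : ℂ) + ((b - l : ℝ) : ℂ) * I = ((a : ℂ) + (b : ℂ) * I) - w := by
      rw [hw]
      push_cast
      ring
    rw [ea, eb]
    rcases eq_or_lt_of_le (norm_nonneg w) with h0 | h0
    · have : w = 0 := norm_eq_zero.mp h0.symm
      rw [this]
      simp only [add_zero, sub_zero]
      have : f ((a : ℂ) + (b : ℂ) * I) + f ((a : ℂ) + (b : ℂ) * I)
          - 2 * f ((a : ℂ) + (b : ℂ) * I) = 0 := by ring
      rw [this, norm_zero]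
      exact hrhs
    · have hz : ‖((a : ℂ) + (b : ℂ) * I)‖ ≤ |x| + s + (|y| + t) := by
        refine (norm_add_le _ _).trans ?_
        rw [norm_mul, norm_I, mul_one, Complex.norm_real, Complex.norm_real, Real.norm_eq_abs,
          Real.norm_eq_abs]
        have c1 : |a| ≤ |x| + s := by
          rw [abs_le]
          have := abs_le.mp (le_refl |x|)
          constructor <;> linarith [abs_nonneg h]
        have c2 : |b| ≤ |y| + t := by
          rw [abs_le]
          have := abs_le.mp (le_refl |y|)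
          constructor <;> linarith [abs_nonneg l]
        linarith
      have hδw : ‖w‖ < δ := lt_of_le_of_lt (hwn.trans (hHle.trans (min_le_left _ _))) (by linarith)
      refine (hsd _ w hz h0 hδw).trans ?_
      refine mul_le_mul_of_nonneg_left ?_ hε.le
      have m1 := sq_log_mono h0 hwn (hHle.trans (min_le_right _ _))
      have hLw : 0 ≤ Real.log (1 / ‖w‖) := by
        rw [one_div, Real.log_inv]
        have : Real.log ‖w‖ ≤ -1 := by
          have := Real.log_le_log h0 (hwn.trans (hHle.trans (min_le_right _ _)))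
          rwa [Real.log_exp] at this
        linarith
      have hLH : 0 ≤ Real.log (1 / H) := by
        rw [one_div, Real.log_inv]
        have : Real.log H ≤ -1 := by
          have := Real.log_le_log hHpos (hHle.trans (min_le_right _ _))
          rwa [Real.log_exp] at this
        linarith
      have n1 : ‖w‖ * Real.sqrt (Real.log (1 / ‖w‖)) =
          Real.sqrt (‖w‖ ^ 2 * Real.log (1 / ‖w‖)) := by
        rw [Real.sqrt_mul (sq_nonneg _), Real.sqrt_sq h0.le]
      have n2 : H * Real.sqrt (Real.log (1 / H)) = Real.sqrt (H ^ 2 * Real.log (1 / H)) := by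
        rw [Real.sqrt_mul (sq_nonneg _), Real.sqrt_sq hHpos.le]
      rw [n1, n2]
      exact Real.sqrt_le_sqrt m1

end Pool.Agent.BMR
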