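import Pool.Agent.Lib.BMR.Area2

/-!
Homeomorphisms with slowly growing linear dilatation on a set with small neighbourhoods.
-/

open MeasureTheory Set Filter Topology Complex

namespace Pool.Agent.BMR

variable {K : Set ℂ}

/-- Boundary integral against the oscillation. -/
lemma bd_le_osc {f : ℂ → ℂ} (hf : Continuous f) (x y s t : ℝ) (hs : 0 ≤ s) (ht : 0 ≤ t) (c : ℂ)
    (L : ℝ) (h : ∀ a b : ℝ, x ≤ a → a ≤ x + s → y ≤ b → b ≤ y + t →
      ‖f ((a : ℂ) + (b : ℂ) * I) - c‖ ≤ L) : ‖bd f x y s t‖ ≤ 2 * (s + t) * L := by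
  have e : bd f x y s t =
      (∫ u : ℝ in x..(x + s), (f ((u : ℂ) + (y : ℂ) * I) -
        f ((u : ℂ) + ((y + t : ℝ) : ℂ) * I))) +
      I * (∫ v : ℝ in y..(y + t), (f (((x + s : ℝ) : ℂ) + (v : ℂ) * I) -
        f ((x : ℂ) + (v : ℂ) * I))) := by
    rw [intervalIntegral.integral_sub (ii_h hf y _ _) (ii_h hf (y + t) _ _),
      intervalIntegral.integral_sub (ii_v hf (x + s) _ _) (ii_v hf x _ _)]
    unfold bd
    ring
  have hd : ∀ z w : ℂ, ‖z - c‖ ≤ L → ‖w - c‖ ≤ L → ‖z - w‖ ≤ 2 * L := by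
    intro z w hz hw
    have : z - w = (z - c) - (w - c) := by ring
    rw [this]
    exact (norm_sub_le _ _).trans (by linarith)
  have b1 : ‖∫ u : ℝ in x..(x + s), (f ((u : ℂ) + (y : ℂ) * I) -
        f ((u : ℂ) + ((y + t : ℝ) : ℂ) * I))‖ ≤ (2 * L) * |x + s - x| := by
    refine intervalIntegral.norm_integral_le_of_norm_le_const ?_
    intro u hu
    rw [uIoc_of_le (by linarith)] at hu
    exact hd _ _ (h u y hu.1.le hu.2 le_rfl (by linarith))
      (h u (y + t) hu.1.le hu.2 (by linarith) le_rfl)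
  have b2 : ‖∫ v : ℝ in y..(y + t), (f (((x + s : ℝ) : ℂ) + (v : ℂ) * I) -
        f ((x : ℂ) + (v : ℂ) * I))‖ ≤ (2 * L) * |y + t - y| := by
    refine intervalIntegral.norm_integral_le_of_norm_le_const ?_
    intro v hv
    rw [uIoc_of_le (by linarith)] at hv
    exact hd _ _ (h (x + s) v (by linarith) le_rfl hv.1.le hv.2)
      (h x v le_rfl (by linarith) hv.1.le hv.2)
  rw [add_sub_cancel_left, abs_of_nonneg hs] at b1
  rw [add_sub_cancel_left, abs_of_nonneg ht] at b2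
  rw [e]
  refine (norm_add_le _ _).trans ?_
  rw [norm_mul, norm_I, one_mul]
  linarith

/-- Half open rectangle. -/
def rc (x y s t : ℝ) : Set ℂ := {z | (x ≤ z.re ∧ z.re < x + s) ∧ (y ≤ z.im ∧ z.im < y + t)}

lemma measurableSet_rc (x y s t : ℝ) : MeasurableSet (rc x y s t) := by
  have h1 : MeasurableSet {z : ℂ | x ≤ z.re ∧ z.re < x + s} :=
    Complex.measurable_re (measurableSet_Ico (a := x) (b := x + s))
  have h2 : MeasurableSet {z : ℂ | y ≤ z.im ∧ z.im < y + t} :=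
    Complex.measurable_im (measurableSet_Ico (a := y) (b := y + t))
  exact h1.inter h2

/-- The area of the image. -/
noncomputable def nu (f : ℂ ≃ₜ ℂ) : Measure ℂ := volume.map f.symm

lemma nu_apply (f : ℂ ≃ₜ ℂ) {A : Set ℂ} (hA : MeasurableSet A) : nu f A = volume (f '' A) := by
  unfold nu
  rw [Measure.map_apply f.symm.continuous.measurable hA, f.image_eq_preimage_symm]

lemma nu_rc_ne_top (f : ℂ ≃ₜ ℂ) (x y s t : ℝ) : nu f (rc x y s t) ≠ ⊤ := by
  have hsub : rc x y s t ⊆ Metric.closedBall 0 (|x| + |s| + (|y| + |t|)) := by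
    rintro z ⟨⟨h1, h2⟩, h3, h4⟩
    rw [mem_closedBall_zero_iff]
    refine (Complex.norm_le_abs_re_add_abs_im z).trans (add_le_add ?_ ?_)
    · rw [abs_le]
      have a1 := abs_le.mp (le_refl |x|)
      have a2 := abs_le.mp (le_refl |s|)
      constructor <;> linarith [a1.1, a1.2, a2.1, a2.2, abs_nonneg x, abs_nonneg s]
    · rw [abs_le]
      have a1 := abs_le.mp (le_refl |y|)
      have a2 := abs_le.mp (le_refl |t|)
      constructor <;> linarith [a1.1, a1.2, a2.1, a2.2, abs_nonneg y, abs_nonneg t]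
  refine ((measure_mono hsub).trans_lt ?_).ne
  rw [nu_apply f Metric.isClosed_closedBall.measurableSet]
  exact ((ProperSpace.isCompact_closedBall 0 _).image f.continuous).measure_lt_top

/-- The area of the image of a rectangle. -/
noncomputable def rh (f : ℂ ≃ₜ ℂ) (x y s t : ℝ) : ℝ := (nu f (rc x y s t)).toReal

lemma rh_nonneg (f : ℂ ≃ₜ ℂ) (x y s t : ℝ) : 0 ≤ rh f x y s t := ENNReal.toReal_nonneg

lemma rh_mono (f : ℂ ≃ₜ ℂ) {x y s t x' y' s' t' : ℝ} (h1 : x' ≤ x) (h2 : x + s ≤ x' + s')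
    (h3 : y' ≤ y) (h4 : y + t ≤ y' + t') : rh f x y s t ≤ rh f x' y' s' t' := by
  refine ENNReal.toReal_mono (nu_rc_ne_top f _ _ _ _) (measure_mono ?_)
  rintro z ⟨⟨g1, g2⟩, g3, g4⟩
  exact ⟨⟨h1.trans g1, g2.trans_le h2⟩, h3.trans g3, g4.trans_le h4⟩

lemma rh_add_h (f : ℂ ≃ₜ ℂ) (x y s s' t : ℝ) (hs : 0 ≤ s) (hs' : 0 ≤ s') :
    rh f x y s t + rh f (x + s) y s' t = rh f x y (s + s') t := by
  unfold rh
  rw [← ENNReal.toReal_add (nu_rc_ne_top f _ _ _ _) (nu_rc_ne_top f _ _ _ _),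
    ← measure_union ?_ (measurableSet_rc _ _ _ _)]
  · congr 2
    ext z
    simp only [rc, mem_union, Set.mem_ofPred_eq]
    constructor
    · rintro (⟨⟨g1, g2⟩, g3⟩ | ⟨⟨g1, g2⟩, g3⟩)
      · exact ⟨⟨g1, by linarith⟩, g3⟩
      · exact ⟨⟨by linarith, by linarith⟩, g3⟩
    · rintro ⟨⟨g1, g2⟩, g3⟩
      rcases lt_or_ge z.re (x + s) with h | h
      · exact Or.inl ⟨⟨g1, h⟩, g3⟩
      · exact Or.inr ⟨⟨h, by linarith⟩, g3⟩
  · rw [Set.disjoint_left]
    rintro z ⟨⟨_, g2⟩, _⟩ ⟨⟨g1, _⟩, _⟩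
    linarith

lemma rh_add_v (f : ℂ ≃ₜ ℂ) (x y s t t' : ℝ) (ht : 0 ≤ t) (ht' : 0 ≤ t') :
    rh f x y s t + rh f x (y + t) s t' = rh f x y s (t + t') := by
  unfold rh
  rw [← ENNReal.toReal_add (nu_rc_ne_top f _ _ _ _) (nu_rc_ne_top f _ _ _ _),
    ← measure_union ?_ (measurableSet_rc _ _ _ _)]
  · congr 2
    ext z
    simp only [rc, mem_union, Set.mem_ofPred_eq]
    constructor
    · rintro (⟨g3, g1, g2⟩ | ⟨g3, g1, g2⟩)
      · exact ⟨g3, g1, by linarith⟩
      · exact ⟨g3, by linarith, by linarith⟩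
    · rintro ⟨g3, g1, g2⟩
      rcases lt_or_ge z.im (y + t) with h | h
      · exact Or.inl ⟨g3, g1, h⟩
      · exact Or.inr ⟨g3, h, by linarith⟩
  · rw [Set.disjoint_left]
    rintro z ⟨_, _, g2⟩ ⟨_, g1, _⟩
    linarith

/-- Grid sums of translated areas. -/
lemma gs_rh (f : ℂ ≃ₜ ℂ) (u v : ℝ) (n : ℕ) (x y s t : ℝ) (hs : 0 ≤ s) (ht : 0 ≤ t) :
    gs n (fun x y s t => rh f (x + u) (y + v) s t) x y s t = rh f (x + u) (y + v) s t := by
  induction n generalizing x y s t with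
  | zero => rfl
  | succ n ih =>
    rw [gs, ih _ _ _ _ (by linarith) (by linarith), ih _ _ _ _ (by linarith) (by linarith),
      ih _ _ _ _ (by linarith) (by linarith), ih _ _ _ _ (by linarith) (by linarith)]
    have h1 := rh_add_h f (x + u) (y + v) (s / 2) (s / 2) (t / 2) (by linarith) (by linarith)
    have h2 := rh_add_h f (x + u) (y + v + t / 2) (s / 2) (s / 2) (t / 2) (by linarith)
      (by linarith)
    have h3 := rh_add_v f (x + u) (y + v) (s / 2 + s / 2) (t / 2) (t / 2) (by linarith)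
      (by linarith)
    have e1 : x + s / 2 + u = x + u + s / 2 := by ring
    have e2 : y + t / 2 + v = y + v + t / 2 := by ring
    have e3 : s / 2 + s / 2 = s := by ring
    have e4 : t / 2 + t / 2 = t := by ring
    rw [e1, e2, add_assoc, h1, h2, h3, e3, e4]

lemma gs_sum {ι : Type*} (S : Finset ι) (F : ι → ℝ → ℝ → ℝ → ℝ → ℝ) (n : ℕ) (x y s t : ℝ) :
    gs n (fun x y s t => ∑ i ∈ S, F i x y s t) x y s t = ∑ i ∈ S, gs n (F i) x y s t := by
  induction n generalizing x y s t with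
  | zero => rfl
  | succ n ih =>
    rw [gs, ih, ih, ih, ih, ← Finset.sum_add_distrib, ← Finset.sum_add_distrib,
      ← Finset.sum_add_distrib]
    rfl

/-- The linear dilatation of `f` at the points of `K` is `o(√(log 1/r))`, uniformly. -/
def SmallDil (f : ℂ → ℂ) (K : Set ℂ) : Prop :=
  ∀ ε : ℝ, 0 < ε → ∃ δ > 0, ∀ x ∈ K, ∀ r : ℝ, 0 < r → r < δ → ∀ y z : ℂ, ‖y - x‖ ≤ r →
    r ≤ ‖z - x‖ → ‖f y - f x‖ ≤ ε * Real.sqrt (Real.log (1 / r)) * ‖f z - f x‖

/-- Oscillation against the area of the image. -/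
lemma osc_le_area (f : ℂ ≃ₜ ℂ) (x : ℂ) (r H : ℝ) (hH : 0 < H)
    (h : ∀ y z : ℂ, ‖y - x‖ ≤ r → r ≤ ‖z - x‖ → ‖f y - f x‖ ≤ H * ‖f z - f x‖) (y : ℂ)
    (hy : ‖y - x‖ ≤ r) :
    ENNReal.ofReal (‖f y - f x‖ ^ 2 / H ^ 2) ≤ nu f (Metric.ball x r) := by
  set l : ℝ := ‖f y - f x‖ / H with hl
  have hl0 : 0 ≤ l := by positivity
  have hsub : Metric.ball (f x) l ⊆ f '' Metric.ball x r := by
    intro w hw
    refine ⟨f.symm w, ?_, f.apply_symm_apply w⟩
    by_contra hc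
    rw [Metric.mem_ball, dist_eq_norm, not_lt] at hc
    have h1 := h y (f.symm w) hy hc
    rw [f.apply_symm_apply] at h1
    rw [Metric.mem_ball, dist_eq_norm, hl, lt_div_iff₀ hH] at hw
    linarith
  rw [nu_apply f Metric.isOpen_ball.measurableSet]
  refine le_trans ?_ (measure_mono hsub)
  rw [Complex.volume_ball]
  have e : ‖f y - f x‖ ^ 2 / H ^ 2 = l ^ 2 := by rw [hl, div_pow]
  rw [e, ENNReal.ofReal_pow hl0]
  calc ENNReal.ofReal l ^ 2 = ENNReal.ofReal l ^ 2 * 1 := (mul_one _).symm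
    _ ≤ _ := mul_le_mul' le_rfl (by
      have : (1 : NNReal) ≤ NNReal.pi := by
        have := Real.pi_gt_three
        exact_mod_cast (show (1 : ℝ) ≤ Real.pi by linarith)
      exact_mod_cast this)

/-- A neighbourhood of a cell is covered by translates. -/
lemma nu_ball_le (f : ℂ ≃ₜ ℂ) (k : ℕ) (x y s t : ℝ) (hs : 0 < s) (ht : 0 < t) (z : ℂ)
    (h1 : x ≤ z.re) (h2 : z.re ≤ x + s) (h3 : y ≤ z.im) (h4 : z.im ≤ y + t) (r : ℝ)
    (hrs : r ≤ k * s) (hrt : r ≤ k * t) :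
    (nu f (Metric.ball z r)).toReal ≤ ∑ p ∈ Finset.Icc (-(k : ℤ)) k ×ˢ Finset.Icc (-(k : ℤ)) k,
      rh f (x + p.1 * s) (y + p.2 * t) s t := by
  have hsub : Metric.ball z r ⊆ ⋃ p ∈ Finset.Icc (-(k : ℤ)) k ×ˢ Finset.Icc (-(k : ℤ)) k,
      rc (x + (p.1 : ℤ) * s) (y + (p.2 : ℤ) * t) s t := by
    intro w hw
    rw [Metric.mem_ball, dist_eq_norm] at hw
    have a1 := (Complex.abs_re_le_norm (w - z)).trans_lt hw
    have a2 := (Complex.abs_im_le_norm (w - z)).trans_lt hw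
    rw [Complex.sub_re, abs_lt] at a1
    rw [Complex.sub_im, abs_lt] at a2
    have key : ∀ (x s a b : ℝ), 0 < s → x ≤ b → b ≤ x + s → r ≤ k * s → -r < a - b → a - b < r →
        ∃ i : ℤ, i ∈ Finset.Icc (-(k : ℤ)) k ∧ x + i * s ≤ a ∧ a < x + i * s + s := by
      intro x s a b hs g1 g2 g3 g4 g5
      refine ⟨⌊(a - x) / s⌋, ?_, ?_, ?_⟩
      · rw [Finset.mem_Icc]
        constructor
        · rw [Int.le_floor, le_div_iff₀ hs]
          push_cast
          linarith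
        · have : ⌊(a - x) / s⌋ < (k : ℤ) + 1 := by
            rw [Int.floor_lt, div_lt_iff₀ hs]
            push_cast
            linarith
          omega
      · have := Int.floor_le ((a - x) / s)
        rw [le_div_iff₀ hs] at this
        linarith
      · have := Int.lt_floor_add_one ((a - x) / s)
        rw [div_lt_iff₀ hs] at this
        linarith
    obtain ⟨i, hi, b1, b2⟩ := key x s w.re z.re hs h1 h2 hrs a1.1 a1.2
    obtain ⟨j, hj, b3, b4⟩ := key y t w.im z.im ht h3 h4 hrt a2.1 a2.2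
    simp only [mem_iUnion, exists_prop]
    exact ⟨(i, j), Finset.mem_product.mpr ⟨hi, hj⟩, ⟨⟨b1, b2⟩, b3, b4⟩⟩
  have h5 := (measure_mono hsub).trans (measure_biUnion_finset_le (μ := nu f) _ _)
  have h6 := ENNReal.toReal_mono (ENNReal.sum_ne_top.mpr fun p _ => nu_rc_ne_top f _ _ _ _) h5
  rw [ENNReal.toReal_sum fun p _ => nu_rc_ne_top f _ _ _ _] at h6
  exact h6

/-- The boundary integral of a homeomorphism. -/
lemma bd_le_dil (f : ℂ ≃ₜ ℂ) (hK : DifferentiableOn ℂ (⇑f) Kᶜ) (k : ℕ) (x y s t : ℝ)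
    (hs : 0 < s) (ht : 0 < t) (hks : s + t ≤ k * s) (hkt : s + t ≤ k * t) (n : ℕ) (H : ℝ)
    (hH : 0 < H) (h : ∀ x₀ ∈ K, ∀ y₀ z₀ : ℂ, ‖y₀ - x₀‖ ≤ (s + t) / 2 ^ n →
      (s + t) / 2 ^ n ≤ ‖z₀ - x₀‖ → ‖f y₀ - f x₀‖ ≤ H * ‖f z₀ - f x₀‖) (l : ℝ) (hl : 0 < l) :
    ‖bd f x y s t‖ ≤ l * (2 * (s + t) ^ 2 / (s * t) * H ^ 2 * ((2 * k + 1) ^ 2 *
      rh f (x - k * s) (y - k * t) ((2 * k + 1) * s) ((2 * k + 1) * t))) +
      1 / (2 * l) * gs n (ar K) x y s t := by
  have hf := f.continuous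
  have p2 : (0 : ℝ) < 2 ^ n := by positivity
  set S := Finset.Icc (-(k : ℤ)) k ×ˢ Finset.Icc (-(k : ℤ)) k with hS
  set c : ℝ := 2 * (s + t) ^ 2 / (s * t) * H ^ 2 with hc
  have hc0 : 0 ≤ c := by positivity
  -- the majorant
  let G : ℝ → ℝ → ℝ → ℝ → ℝ := fun x' y' s' t' => l * c * ∑ p ∈ S,
    rh f (x' + (p.1 : ℤ) * (s / 2 ^ n)) (y' + (p.2 : ℤ) * (t / 2 ^ n)) s' t'
  have step : ‖bd f x y s t‖ ≤ gs n (fun x y s t => G x y s t + 1 / (2 * l) * ar K x y s t)
      x y s t := by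
    rw [← bd_gs hf n x y s t]
    refine (norm_gs_le _ _ _ _ _ _).trans ?_
    refine gs_mono n _ _ x y s t hs.le ht.le ?_
    intro x' y' _ _ _ _
    have hs' : 0 < s / 2 ^ n := div_pos hs p2
    have ht' : 0 < t / 2 ^ n := div_pos ht p2
    have hG0 : 0 ≤ G x' y' (s / 2 ^ n) (t / 2 ^ n) :=
      mul_nonneg (mul_nonneg hl.le hc0) (Finset.sum_nonneg fun p _ => rh_nonneg _ _ _ _ _)
    by_cases hm : meets K x' y' (s / 2 ^ n) (t / 2 ^ n)
    · obtain ⟨x₀, hx₀, g1, g2, g3, g4⟩ := id hm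
      -- the oscillation
      set r : ℝ := (s + t) / 2 ^ n with hr
      have hr0 : 0 < r := div_pos (by linarith) p2
      have hrr : r = s / 2 ^ n + t / 2 ^ n := by rw [hr, add_div]
      obtain ⟨w, hw, hwmax⟩ := (ProperSpace.isCompact_closedBall x₀ r).exists_isMaxOn
        ⟨x₀, Metric.mem_closedBall_self hr0.le⟩
        (f := fun w => ‖f w - f x₀‖) (by fun_prop)
      set L : ℝ := ‖f w - f x₀‖ with hL
      have hL0 : 0 ≤ L := norm_nonneg _
      have hosc : ∀ a b : ℝ, x' ≤ a → a ≤ x' + s / 2 ^ n → y' ≤ b → b ≤ y' + t / 2 ^ n →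
          ‖f ((a : ℂ) + (b : ℂ) * I) - f x₀‖ ≤ L := by
        intro a b a1 a2 a3 a4
        refine hwmax ?_
        rw [Metric.mem_closedBall, dist_eq_norm]
        refine (Complex.norm_le_abs_re_add_abs_im _).trans ?_
        have e1 : ((a : ℂ) + (b : ℂ) * I - x₀).re = a - x₀.re := by simp
        have e2 : ((a : ℂ) + (b : ℂ) * I - x₀).im = b - x₀.im := by simp
        rw [e1, e2, hrr]
        refine add_le_add ?_ ?_
        · rw [abs_le]
          constructor <;> linarith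
        · rw [abs_le]
          constructor <;> linarith
      have hbd := bd_le_osc hf x' y' (s / 2 ^ n) (t / 2 ^ n) hs'.le ht'.le (f x₀) L hosc
      -- the area
      have har := osc_le_area f x₀ r H hH (h x₀ hx₀) w (by
        rw [Metric.mem_closedBall, dist_eq_norm] at hw
        exact hw)
      have hks' : r ≤ k * (s / 2 ^ n) := by
        rw [hr, ← mul_div_assoc]
        gcongr
      have hkt' : r ≤ k * (t / 2 ^ n) := by
        rw [hr, ← mul_div_assoc]
        gcongr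
      have hnu := nu_ball_le f k x' y' (s / 2 ^ n) (t / 2 ^ n) hs' ht' x₀ g1 g2 g3 g4 r hks' hkt'
      have hfin : nu f (Metric.ball x₀ r) ≠ ⊤ := by
        refine ((measure_mono Metric.ball_subset_closedBall).trans_lt ?_).ne
        rw [nu_apply f Metric.isClosed_closedBall.measurableSet]
        exact ((ProperSpace.isCompact_closedBall x₀ _).image f.continuous).measure_lt_top
      have har' := ENNReal.toReal_mono hfin har
      rw [ENNReal.toReal_ofReal (by positivity)] at har'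
      have hL2 : L ^ 2 / H ^ 2 ≤ ∑ p ∈ S, rh f (x' + (p.1 : ℤ) * (s / 2 ^ n))
          (y' + (p.2 : ℤ) * (t / 2 ^ n)) (s / 2 ^ n) (t / 2 ^ n) := har'.trans hnu
      have hL3 : l * c * (L ^ 2 / H ^ 2) ≤ G x' y' (s / 2 ^ n) (t / 2 ^ n) :=
        mul_le_mul_of_nonneg_left hL2 (mul_nonneg hl.le hc0)
      -- Cauchy-Schwarz
      have hA : ar K x' y' (s / 2 ^ n) (t / 2 ^ n) = s / 2 ^ n * (t / 2 ^ n) := by
        simp only [ar, hm, if_true]
      rw [hA]
      refine hbd.trans ?_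
      have e1 : l * c * (L ^ 2 / H ^ 2) = l / 2 * (2 * (s / 2 ^ n + t / 2 ^ n) * L) ^ 2 /
          (s / 2 ^ n * (t / 2 ^ n)) := by
        rw [hc]
        field_simp
      rw [e1] at hL3
      set b := 2 * (s / 2 ^ n + t / 2 ^ n) * L
      set A := s / 2 ^ n * (t / 2 ^ n) with hAdef
      have hA0 : 0 < A := mul_pos hs' ht'
      have h1 : l / 2 * b ^ 2 / A + 1 / (2 * l) * A - b = (l * b - A) ^ 2 / (2 * l * A) := by
        field_simp
        ring
      have h2 : 0 ≤ (l * b - A) ^ 2 / (2 * l * A) := by positivity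
      linarith
    · have : bd f x' y' (s / 2 ^ n) (t / 2 ^ n) = 0 :=
        bd_eq_zero hK _ _ _ _ hs'.le ht'.le hm
      rw [this, norm_zero]
      simp only [ar, hm, if_false, mul_zero, add_zero]
      exact hG0
  refine step.trans ?_
  rw [gs_add, gs_mul n (1 / (2 * l)) (ar K) x y s t]
  have e2 : gs n G x y s t ≤ l * (c * ((2 * k + 1) ^ 2 *
      rh f (x - k * s) (y - k * t) ((2 * k + 1) * s) ((2 * k + 1) * t))) := by
    have e3 : gs n G x y s t = l * c * ∑ p ∈ S,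
        rh f (x + (p.1 : ℤ) * (s / 2 ^ n)) (y + (p.2 : ℤ) * (t / 2 ^ n)) s t := by
      change gs n (fun x' y' s' t' => l * c * ∑ p ∈ S,
        rh f (x' + (p.1 : ℤ) * (s / 2 ^ n)) (y' + (p.2 : ℤ) * (t / 2 ^ n)) s' t') x y s t = _
      rw [gs_mul n (l * c) (fun x' y' s' t' => ∑ p ∈ S,
        rh f (x' + (p.1 : ℤ) * (s / 2 ^ n)) (y' + (p.2 : ℤ) * (t / 2 ^ n)) s' t') x y s t,
        gs_sum]
      congr 1
      exact Finset.sum_congr rfl fun p _ => gs_rh f _ _ n x y s t hs.le ht.le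
    rw [e3, mul_assoc]
    refine mul_le_mul_of_nonneg_left (mul_le_mul_of_nonneg_left ?_ hc0) hl.le
    have e4 : ∀ p ∈ S, rh f (x + (p.1 : ℤ) * (s / 2 ^ n)) (y + (p.2 : ℤ) * (t / 2 ^ n)) s t ≤
        rh f (x - k * s) (y - k * t) ((2 * k + 1) * s) ((2 * k + 1) * t) := by
      intro p hp
      rw [hS, Finset.mem_product, Finset.mem_Icc, Finset.mem_Icc] at hp
      have c1 : (-(k : ℝ)) ≤ (p.1 : ℝ) := by exact_mod_cast hp.1.1
      have c2 : (p.1 : ℝ) ≤ k := by exact_mod_cast hp.1.2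
      have c3 : (-(k : ℝ)) ≤ (p.2 : ℝ) := by exact_mod_cast hp.2.1
      have c4 : (p.2 : ℝ) ≤ k := by exact_mod_cast hp.2.2
      have q1 : ∀ (a s : ℝ), 0 < s → -(k : ℝ) ≤ a → a ≤ k → -(k * s) ≤ a * (s / 2 ^ n) ∧
          a * (s / 2 ^ n) ≤ k * s := by
        intro a s hs h1 h2
        have h3 : s / 2 ^ n ≤ s := div_le_self hs.le (one_le_pow₀ (by norm_num))
        have h4 : 0 < s / 2 ^ n := div_pos hs p2
        have h5 : 0 ≤ (k : ℝ) := Nat.cast_nonneg k
        constructor <;> nlinarith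
      have d1 := q1 p.1 s hs c1 c2
      have d2 := q1 p.2 t ht c3 c4
      refine rh_mono f ?_ ?_ ?_ ?_ <;> linarith [d1.1, d1.2, d2.1, d2.2]
    refine (Finset.sum_le_sum e4).trans ?_
    rw [Finset.sum_const, nsmul_eq_mul]
    refine mul_le_mul_of_nonneg_right (le_of_eq ?_) (rh_nonneg _ _ _ _ _)
    rw [hS, Finset.card_product, Int.card_Icc]
    have : ((k : ℤ) + 1 - -(k : ℤ)).toNat = 2 * k + 1 := by omega
    rw [this]
    push_cast
    ring
  linarith

/-- The criterion for homeomorphisms. -/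
theorem criterion_dil (f : ℂ ≃ₜ ℂ) (hK : DifferentiableOn ℂ (⇑f) Kᶜ) (v : ℕ → ℝ)
    (hv0 : ∀ n, 0 ≤ v n) (hv : ∀ n, volume (nb K (1 / 2 ^ n)) ≤ ENNReal.ofReal (v n)) (L : ℝ)
    (hL : ∃ᶠ n : ℕ in atTop, (n : ℝ) * v n ≤ L)
    (hd : SmallDil (⇑f) K) : Differentiable ℂ (⇑f) := by
  refine differentiable_of_bd f.continuous fun x y s t hs ht => ?_
  have hL0 : 0 ≤ L := by
    obtain ⟨n, h1⟩ := hL.exists
    exact le_trans (mul_nonneg (Nat.cast_nonneg _) (hv0 n)) h1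
  obtain ⟨m, hm⟩ := pow_unbounded_of_one_lt (max s t) (one_lt_two (α := ℝ))
  have hsm : s ≤ 2 ^ m := (le_max_left _ _).trans hm.le
  have htm : t ≤ 2 ^ m := (le_max_right _ _).trans hm.le
  have hst : 0 < s + t := by linarith
  obtain ⟨k, hk⟩ := exists_nat_ge (max ((s + t) / s) ((s + t) / t))
  have hks : s + t ≤ k * s := by
    have := (le_max_left _ _).trans hk
    rwa [div_le_iff₀ hs] at this
  have hkt : s + t ≤ k * t := by
    have := (le_max_right _ _).trans hk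
    rwa [div_le_iff₀ ht] at this
  set c₁ : ℝ := |Real.log (s + t)| with hc₁
  have hc₁0 : 0 ≤ c₁ := abs_nonneg _
  set A : ℝ := (2 * k + 1) ^ 2 *
      rh f (x - k * s) (y - k * t) ((2 * k + 1) * s) ((2 * k + 1) * t) with hA
  have hA0 : 0 ≤ A := mul_nonneg (by positivity) (rh_nonneg _ _ _ _ _)
  set D : ℝ := 2 * (s + t) ^ 2 / (s * t) * (1 + m + c₁) * A with hD
  have hD0 : 0 ≤ D := by positivity
  have key : ∀ η ε : ℝ, 0 < η → 0 < ε → ‖bd f x y s t‖ ≤ η * ε ^ 2 * D + L / (2 * η) := by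
    intro η ε hη hε
    obtain ⟨δ, hδ, hdδ⟩ := hd ε hε
    have hδ' : ∀ᶠ N : ℕ in atTop, (s + t) * (1 / 2 : ℝ) ^ N < min δ 1 := by
      have h1 : Tendsto (fun N : ℕ => (s + t) * (1 / 2 : ℝ) ^ N) atTop (𝓝 ((s + t) * 0)) :=
        (tendsto_pow_atTop_nhds_zero_of_lt_one (by norm_num) (by norm_num)).const_mul _
      rw [mul_zero] at h1
      exact h1.eventually (gt_mem_nhds (lt_min hδ one_pos))
    obtain ⟨N, h1, h2, h3⟩ := (hL.and_eventually (hδ'.and (eventually_ge_atTop 1))).exists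
    have hN : (1 : ℝ) ≤ N := by exact_mod_cast h3
    have hNpos : (0 : ℝ) < N := by linarith
    have p2 : (0 : ℝ) < 2 ^ (N + m) := by positivity
    set r : ℝ := (s + t) / 2 ^ (N + m) with hr
    have hr0 : 0 < r := div_pos hst p2
    have hrle : r ≤ (s + t) * (1 / 2 : ℝ) ^ N := by
      rw [hr, one_div_pow, mul_one_div]
      have : (2 : ℝ) ^ N ≤ 2 ^ (N + m) := pow_le_pow_right₀ (by norm_num) (Nat.le_add_right _ _)
      gcongr
    have hrδ : r < δ := hrle.trans_lt (h2.trans_le (min_le_left _ _))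
    have hr1 : r < 1 := hrle.trans_lt (h2.trans_le (min_le_right _ _))
    have hlog : 0 < Real.log (1 / r) := by
      apply Real.log_pos
      rw [one_lt_div hr0]
      exact hr1
    have hlog2 : Real.log (1 / r) ≤ (1 + m + c₁) * N := by
      have e1 : Real.log (1 / r) = (N + m : ℕ) * Real.log 2 - Real.log (s + t) := by
        rw [hr, one_div_div, Real.log_div p2.ne' hst.ne', Real.log_pow]
      rw [e1]
      have e2 : Real.log 2 ≤ 1 := by
        have := Real.log_two_lt_d9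
        linarith
      have e3 : -Real.log (s + t) ≤ c₁ := neg_le_abs _
      have e4 : ((N + m : ℕ) : ℝ) * Real.log 2 ≤ (N + m : ℕ) := by
        calc ((N + m : ℕ) : ℝ) * Real.log 2 ≤ (N + m : ℕ) * 1 :=
              mul_le_mul_of_nonneg_left e2 (Nat.cast_nonneg _)
          _ = _ := mul_one _
      push_cast at e4 ⊢
      have e5 : (m : ℝ) ≤ m * N := le_mul_of_one_le_right (Nat.cast_nonneg _) hN
      have e6 : c₁ ≤ c₁ * N := le_mul_of_one_le_right hc₁0 hN
      linarith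
    have b := bd_le_dil f hK k x y s t hs ht hks hkt (N + m)
      (ε * Real.sqrt (Real.log (1 / r))) (by positivity)
      (fun x₀ hx₀ y₀ z₀ g1 g2 => hdδ x₀ hx₀ r hr0 hrδ y₀ z₀ g1 g2) (η / N) (by positivity)
    have hP : gs (N + m) (ar K) x y s t ≤ v N :=
      gs_ar_le_v v hv0 hv m N x y s t hs.le ht.le hsm htm
    refine b.trans (add_le_add ?_ ?_)
    · rw [mul_pow, Real.sq_sqrt hlog.le, ← hA]
      calc η / N * (2 * (s + t) ^ 2 / (s * t) * (ε ^ 2 * Real.log (1 / r)) * A)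
          = η * ε ^ 2 * (2 * (s + t) ^ 2 / (s * t) * A) * (Real.log (1 / r) / N) := by ring
        _ ≤ η * ε ^ 2 * (2 * (s + t) ^ 2 / (s * t) * A) * (1 + m + c₁) := by
            refine mul_le_mul_of_nonneg_left ?_ (by positivity)
            rw [div_le_iff₀ hNpos]
            exact hlog2
        _ = η * ε ^ 2 * D := by rw [hD]; ring
    · calc 1 / (2 * (η / N)) * gs (N + m) (ar K) x y s t
          ≤ 1 / (2 * (η / N)) * v N := mul_le_mul_of_nonneg_left hP (by positivity)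
        _ = (N * v N) / (2 * η) := by field_simp
        _ ≤ L / (2 * η) := by gcongr
  have h0 : ‖bd f x y s t‖ ≤ 0 := by
    refine le_of_forall_pos_le_add fun τ hτ => ?_
    rw [zero_add]
    have hη : 0 < (L + 1) / τ := by positivity
    have hq : 0 < τ / (2 * ((L + 1) / τ) * (D + 1)) := by positivity
    refine (key ((L + 1) / τ) (Real.sqrt (τ / (2 * ((L + 1) / τ) * (D + 1)))) hη
      (Real.sqrt_pos.mpr hq)).trans ?_
    rw [Real.sq_sqrt hq.le]
    have e1 : (L + 1) / τ * (τ / (2 * ((L + 1) / τ) * (D + 1))) * D = τ / 2 * (D / (D + 1)) := by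
      field_simp
    have e2 : D / (D + 1) ≤ 1 := by
      rw [div_le_one (by linarith)]
      linarith
    have e3 : L / (2 * ((L + 1) / τ)) = τ / 2 * (L / (L + 1)) := by
      field_simp
    have e4 : L / (L + 1) ≤ 1 := by
      rw [div_le_one (by linarith)]
      linarith
    rw [e1, e3]
    nlinarith
  exact norm_le_zero_iff.mp h0

/-- Almost surely, every homeomorphism of the plane which is holomorphic off the Brownian trace and
has linear dilatation `o(√(log 1/r))` on the trace is holomorphic. -/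
theorem IsPBM.dil {Ω : Type} [MeasurableSpace Ω] {P : Measure Ω} {B : ℝ → Ω → ℂ}
    [IsProbabilityMeasure P] (h : IsPBM P B) :
    ∀ᵐ ω ∂P, ∀ f : ℂ ≃ₜ ℂ, DifferentiableOn ℂ (⇑f) ((fun t => B t ω) '' Set.Icc (0 : ℝ) 1)ᶜ →
      SmallDil (⇑f) ((fun t => B t ω) '' Set.Icc (0 : ℝ) 1) → Differentiable ℂ (⇑f) := by
  have hK : ∀ ω, IsCompact ((fun t => B t ω) '' Set.Icc (0 : ℝ) 1) := fun ω =>
    isCompact_Icc.image (h.cont ω)
  filter_upwards [h.areaBd.ae hK] with ω hω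
  obtain ⟨v, L, h1, h2, h3⟩ := hω
  intro f hf hs
  exact criterion_dil f hf v h1 h2 L (h3.mono fun n hn => hn.1) hs

end Pool.Agent.BMR
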