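import Mathlib

/-!
Boundary integrals over dyadic subdivisions of a rectangle.
-/

open MeasureTheory Set Filter Topology Complex

namespace Pool.Agent.BMR

/-- Boundary integral over the rectangle with lower left corner `x + iy` and sides `s`, `t`. -/
noncomputable def bd (f : ℂ → ℂ) (x y s t : ℝ) : ℂ :=
  (∫ u : ℝ in x..(x + s), f ((u : ℂ) + (y : ℂ) * I)) -
  (∫ u : ℝ in x..(x + s), f ((u : ℂ) + ((y + t : ℝ) : ℂ) * I)) +
  I * (∫ v : ℝ in y..(y + t), f (((x + s : ℝ) : ℂ) + (v : ℂ) * I)) -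
  I * (∫ v : ℝ in y..(y + t), f ((x : ℂ) + (v : ℂ) * I))

/-- Sum over the `4^n` subrectangles of level `n`. -/
noncomputable def gs {β : Type*} [Add β] : ℕ → (ℝ → ℝ → ℝ → ℝ → β) → ℝ → ℝ → ℝ → ℝ → β
  | 0, F, x, y, s, t => F x y s t
  | n + 1, F, x, y, s, t =>
      gs n F x y (s / 2) (t / 2) + gs n F (x + s / 2) y (s / 2) (t / 2) +
      gs n F x (y + t / 2) (s / 2) (t / 2) + gs n F (x + s / 2) (y + t / 2) (s / 2) (t / 2)

lemma gs_succ' {β : Type*} [Add β] (n : ℕ) (F : ℝ → ℝ → ℝ → ℝ → β) (x y s t : ℝ) :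
    gs (n + 1) F x y s t = gs n (gs 1 F) x y s t := by
  induction n generalizing x y s t with
  | zero => rfl
  | succ n ih =>
    rw [gs, ih, ih, ih, ih]
    rfl

/-- Monotonicity of the grid sums. -/
lemma gs_mono {β : Type*} [AddCommMonoid β] [PartialOrder β] [IsOrderedAddMonoid β]
    (n : ℕ) (F G : ℝ → ℝ → ℝ → ℝ → β) (x y s t : ℝ) (hs : 0 ≤ s) (ht : 0 ≤ t)
    (h : ∀ x' y', x ≤ x' → x' + s / 2 ^ n ≤ x + s → y ≤ y' → y' + t / 2 ^ n ≤ y + t →
      F x' y' (s / 2 ^ n) (t / 2 ^ n) ≤ G x' y' (s / 2 ^ n) (t / 2 ^ n)) :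
    gs n F x y s t ≤ gs n G x y s t := by
  induction n generalizing x y s t with
  | zero =>
    have := h x y le_rfl (by simp) le_rfl (by simp)
    simpa [gs] using this
  | succ n ih =>
    have e1 : ∀ s : ℝ, s / 2 / 2 ^ n = s / 2 ^ (n + 1) := fun s => by rw [pow_succ]; field_simp
    have q : ∀ x1 y1, x ≤ x1 → x1 + s / 2 ≤ x + s → y ≤ y1 → y1 + t / 2 ≤ y + t →
        gs n F x1 y1 (s / 2) (t / 2) ≤ gs n G x1 y1 (s / 2) (t / 2) := by
      intro x1 y1 h1 h2 h3 h4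
      refine ih x1 y1 (s / 2) (t / 2) (by linarith) (by linarith) ?_
      intro x' y' g1 g2 g3 g4
      rw [e1, e1] at *
      exact h x' y' (h1.trans g1) (g2.trans h2) (h3.trans g3) (g4.trans h4)
    rw [gs, gs]
    refine add_le_add (add_le_add (add_le_add ?_ ?_) ?_) ?_
    · exact q x y le_rfl (by linarith) le_rfl (by linarith)
    · exact q _ y (by linarith) (by linarith) le_rfl (by linarith)
    · exact q x _ le_rfl (by linarith) (by linarith) (by linarith)
    · exact q _ _ (by linarith) (by linarith) (by linarith) (by linarith)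

lemma gs_add {β : Type*} [AddCommMonoid β] (n : ℕ) (F G : ℝ → ℝ → ℝ → ℝ → β) (x y s t : ℝ) :
    gs n (fun x y s t => F x y s t + G x y s t) x y s t = gs n F x y s t + gs n G x y s t := by
  induction n generalizing x y s t with
  | zero => rfl
  | succ n ih =>
    rw [gs, gs, gs, ih, ih, ih, ih]
    abel

lemma gs_mul (n : ℕ) (c : ℝ) (F : ℝ → ℝ → ℝ → ℝ → ℝ) (x y s t : ℝ) :
    gs n (fun x y s t => c * F x y s t) x y s t = c * gs n F x y s t := by
  induction n generalizing x y s t with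
  | zero => rfl
  | succ n ih =>
    rw [gs, gs, ih, ih, ih, ih]
    ring

variable {f : ℂ → ℂ}

lemma ii_h (hf : Continuous f) (c : ℝ) (a b : ℝ) :
    IntervalIntegrable (fun u : ℝ => f ((u : ℂ) + (c : ℂ) * I)) volume a b :=
  (by fun_prop : Continuous fun u : ℝ => f ((u : ℂ) + (c : ℂ) * I)).intervalIntegrable _ _

lemma ii_v (hf : Continuous f) (c : ℝ) (a b : ℝ) :
    IntervalIntegrable (fun v : ℝ => f ((c : ℂ) + (v : ℂ) * I)) volume a b :=
  (by fun_prop : Continuous fun v : ℝ => f ((c : ℂ) + (v : ℂ) * I)).intervalIntegrable _ _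

/-- Additivity in the horizontal direction. -/
lemma bd_add_h (hf : Continuous f) (x y s s' t : ℝ) :
    bd f x y s t + bd f (x + s) y s' t = bd f x y (s + s') t := by
  unfold bd
  have h1 := intervalIntegral.integral_add_adjacent_intervals (ii_h hf y x (x + s))
    (ii_h hf y (x + s) (x + s + s'))
  have h2 := intervalIntegral.integral_add_adjacent_intervals (ii_h hf (y + t) x (x + s))
    (ii_h hf (y + t) (x + s) (x + s + s'))
  rw [← add_assoc, ← h1, ← h2]
  ring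

/-- Additivity in the vertical direction. -/
lemma bd_add_v (hf : Continuous f) (x y s t t' : ℝ) :
    bd f x y s t + bd f x (y + t) s t' = bd f x y s (t + t') := by
  unfold bd
  have h1 := intervalIntegral.integral_add_adjacent_intervals (ii_v hf x y (y + t))
    (ii_v hf x (y + t) (y + t + t'))
  have h2 := intervalIntegral.integral_add_adjacent_intervals (ii_v hf (x + s) y (y + t))
    (ii_v hf (x + s) (y + t) (y + t + t'))
  rw [← add_assoc, ← h1, ← h2]
  ring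

lemma bd_gs_one (hf : Continuous f) (x y s t : ℝ) : gs 1 (bd f) x y s t = bd f x y s t := by
  simp only [gs]
  have h1 := bd_add_h hf x y (s / 2) (s / 2) (t / 2)
  have h2 := bd_add_h hf x (y + t / 2) (s / 2) (s / 2) (t / 2)
  have h3 := bd_add_v hf x y (s / 2 + s / 2) (t / 2) (t / 2)
  rw [add_assoc, add_assoc, ← add_assoc, h1, h2, h3]
  congr 1 <;> ring

lemma bd_gs (hf : Continuous f) (n : ℕ) (x y s t : ℝ) : gs n (bd f) x y s t = bd f x y s t := by
  induction n generalizing x y s t with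
  | zero => rfl
  | succ n ih =>
    rw [gs, ih, ih, ih, ih]
    exact bd_gs_one hf x y s t

/-- Shift of the horizontal variable. -/
lemma shift_h (g : ℝ → ℂ) (x s : ℝ) : ∫ u : ℝ in (x + s)..(x + s + s), g u =
    ∫ u : ℝ in x..(x + s), g (u + s) := by
  rw [intervalIntegral.integral_comp_add_right]

/-- Second difference bound on a rectangle. -/
def SD (f : ℂ → ℂ) (x y s t δ : ℝ) : Prop :=
  ∀ a b h k : ℝ, x ≤ a - |h| → a + |h| ≤ x + s → y ≤ b - |k| → b + |k| ≤ y + t →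
    ‖f (((a + h : ℝ) : ℂ) + ((b + k : ℝ) : ℂ) * I) + f (((a - h : ℝ) : ℂ) + ((b - k : ℝ) : ℂ) * I)
      - 2 * f ((a : ℂ) + (b : ℂ) * I)‖ ≤ δ

/-- Difference of two horizontally adjacent boundary integrals. -/
lemma adj_h (hf : Continuous f) (x y s t δ : ℝ) (hs : 0 ≤ s) (ht : 0 ≤ t)
    (h : SD f x y (2 * s) t δ) :
    ‖bd f x y s t - bd f (x + s) y s t‖ ≤ (2 * s + t) * δ := by
  have e : bd f x y s t - bd f (x + s) y s t =
      (∫ u : ℝ in x..(x + s), (f ((u : ℂ) + (y : ℂ) * I) - f (((u + s : ℝ) : ℂ) + (y : ℂ) * I)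
        - f ((u : ℂ) + ((y + t : ℝ) : ℂ) * I) + f (((u + s : ℝ) : ℂ) + ((y + t : ℝ) : ℂ) * I))) -
      I * (∫ v : ℝ in y..(y + t), (f ((x : ℂ) + (v : ℂ) * I)
        + f (((x + s + s : ℝ) : ℂ) + (v : ℂ) * I) - 2 * f (((x + s : ℝ) : ℂ) + (v : ℂ) * I))) := by
    have c1 : Continuous fun u : ℝ => f ((u : ℂ) + (y : ℂ) * I) := by fun_prop
    have c2 : Continuous fun u : ℝ => f (((u + s : ℝ) : ℂ) + (y : ℂ) * I) := by fun_prop
    have c3 : Continuous fun u : ℝ => f ((u : ℂ) + ((y + t : ℝ) : ℂ) * I) := by fun_prop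
    have c4 : Continuous fun u : ℝ => f (((u + s : ℝ) : ℂ) + ((y + t : ℝ) : ℂ) * I) := by fun_prop
    have d1 : Continuous fun v : ℝ => f ((x : ℂ) + (v : ℂ) * I) := by fun_prop
    have d2 : Continuous fun v : ℝ => f (((x + s + s : ℝ) : ℂ) + (v : ℂ) * I) := by fun_prop
    have d3 : Continuous fun v : ℝ => 2 * f (((x + s : ℝ) : ℂ) + (v : ℂ) * I) := by fun_prop
    have c12 : Continuous fun u : ℝ => f ((u : ℂ) + (y : ℂ) * I)
        - f (((u + s : ℝ) : ℂ) + (y : ℂ) * I) := by fun_prop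
    have c123 : Continuous fun u : ℝ => f ((u : ℂ) + (y : ℂ) * I)
        - f (((u + s : ℝ) : ℂ) + (y : ℂ) * I) - f ((u : ℂ) + ((y + t : ℝ) : ℂ) * I) := by
      fun_prop
    have d12 : Continuous fun v : ℝ => f ((x : ℂ) + (v : ℂ) * I)
        + f (((x + s + s : ℝ) : ℂ) + (v : ℂ) * I) := by fun_prop
    rw [intervalIntegral.integral_add (c123.intervalIntegrable _ _)
        (c4.intervalIntegrable _ _),
      intervalIntegral.integral_sub (c12.intervalIntegrable _ _)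
        (c3.intervalIntegrable _ _),
      intervalIntegral.integral_sub (c1.intervalIntegrable _ _) (c2.intervalIntegrable _ _),
      intervalIntegral.integral_sub (d12.intervalIntegrable _ _)
        (d3.intervalIntegrable _ _),
      intervalIntegral.integral_add (d1.intervalIntegrable _ _) (d2.intervalIntegrable _ _),
      intervalIntegral.integral_const_mul]
    unfold bd
    rw [shift_h (fun u : ℝ => f ((u : ℂ) + (y : ℂ) * I)),
      shift_h (fun u : ℝ => f ((u : ℂ) + ((y + t : ℝ) : ℂ) * I))]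
    ring
  rw [e]
  have b1 : ‖∫ u : ℝ in x..(x + s), (f ((u : ℂ) + (y : ℂ) * I)
      - f (((u + s : ℝ) : ℂ) + (y : ℂ) * I)
        - f ((u : ℂ) + ((y + t : ℝ) : ℂ) * I) + f (((u + s : ℝ) : ℂ) + ((y + t : ℝ) : ℂ) * I))‖ ≤
      (2 * δ) * |x + s - x| := by
    refine intervalIntegral.norm_integral_le_of_norm_le_const ?_
    intro u hu
    rw [uIoc_of_le (by linarith)] at hu
    have g1 := h (u + s / 2) (y + t / 2) (s / 2) (t / 2)
      (by rw [abs_of_nonneg (by linarith)]; linarith [hu.1])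
      (by rw [abs_of_nonneg (by linarith)]; linarith [hu.2])
      (by rw [abs_of_nonneg (by linarith)]; linarith)
      (by rw [abs_of_nonneg (by linarith)]; linarith)
    have g2 := h (u + s / 2) (y + t / 2) (-(s / 2)) (t / 2)
      (by rw [abs_neg, abs_of_nonneg (by linarith)]; linarith [hu.1])
      (by rw [abs_neg, abs_of_nonneg (by linarith)]; linarith [hu.2])
      (by rw [abs_of_nonneg (by linarith)]; linarith)
      (by rw [abs_of_nonneg (by linarith)]; linarith)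
    have r1 : u + s / 2 + s / 2 = u + s := by ring
    have r2 : u + s / 2 - s / 2 = u := by ring
    have r3 : y + t / 2 + t / 2 = y + t := by ring
    have r4 : y + t / 2 - t / 2 = y := by ring
    have r5 : u + s / 2 + -(s / 2) = u := by ring
    have r6 : u + s / 2 - -(s / 2) = u + s := by ring
    rw [r1, r2, r3, r4] at g1
    rw [r5, r6, r3, r4] at g2
    have e2 : f ((u : ℂ) + (y : ℂ) * I) - f (((u + s : ℝ) : ℂ) + (y : ℂ) * I)
        - f ((u : ℂ) + ((y + t : ℝ) : ℂ) * I) + f (((u + s : ℝ) : ℂ) + ((y + t : ℝ) : ℂ) * I) =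
        (f (((u + s : ℝ) : ℂ) + ((y + t : ℝ) : ℂ) * I) + f ((u : ℂ) + (y : ℂ) * I)
          - 2 * f (((u + s / 2 : ℝ) : ℂ) + ((y + t / 2 : ℝ) : ℂ) * I)) -
        (f ((u : ℂ) + ((y + t : ℝ) : ℂ) * I) + f (((u + s : ℝ) : ℂ) + (y : ℂ) * I)
          - 2 * f (((u + s / 2 : ℝ) : ℂ) + ((y + t / 2 : ℝ) : ℂ) * I)) := by ring
    rw [e2]
    refine (norm_sub_le _ _).trans ?_
    linarith
  have b2 : ‖∫ v : ℝ in y..(y + t), (f ((x : ℂ) + (v : ℂ) * I)
        + f (((x + s + s : ℝ) : ℂ) + (v : ℂ) * I)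
        - 2 * f (((x + s : ℝ) : ℂ) + (v : ℂ) * I))‖ ≤ δ * |y + t - y| := by
    refine intervalIntegral.norm_integral_le_of_norm_le_const ?_
    intro v hv
    rw [uIoc_of_le (by linarith)] at hv
    have g1 := h (x + s) v (-s) 0
      (by rw [abs_neg, abs_of_nonneg hs]; linarith)
      (by rw [abs_neg, abs_of_nonneg hs]; linarith)
      (by rw [abs_zero]; linarith [hv.1])
      (by rw [abs_zero]; linarith [hv.2])
    have r1 : x + s + -s = x := by ring
    have r2 : x + s - -s = x + s + s := by ring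
    rw [r1, r2, add_zero, sub_zero] at g1
    exact g1
  refine (norm_sub_le _ _).trans ?_
  rw [norm_mul, norm_I, one_mul]
  have r1 : |x + s - x| = s := by
    rw [add_sub_cancel_left, abs_of_nonneg hs]
  have r2 : |y + t - y| = t := by
    rw [add_sub_cancel_left, abs_of_nonneg ht]
  rw [r1] at b1
  rw [r2] at b2
  nlinarith

/-- Difference of two vertically adjacent boundary integrals. -/
lemma adj_v (hf : Continuous f) (x y s t δ : ℝ) (hs : 0 ≤ s) (ht : 0 ≤ t)
    (h : SD f x y s (2 * t) δ) :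
    ‖bd f x y s t - bd f x (y + t) s t‖ ≤ (s + 2 * t) * δ := by
  have e : bd f x y s t - bd f x (y + t) s t =
      (∫ u : ℝ in x..(x + s), (f ((u : ℂ) + (y : ℂ) * I)
        + f ((u : ℂ) + ((y + t + t : ℝ) : ℂ) * I) - 2 * f ((u : ℂ) + ((y + t : ℝ) : ℂ) * I))) +
      I * (∫ v : ℝ in y..(y + t), (f (((x + s : ℝ) : ℂ) + (v : ℂ) * I)
        - f (((x + s : ℝ) : ℂ) + ((v + t : ℝ) : ℂ) * I) - f ((x : ℂ) + (v : ℂ) * I)
        + f ((x : ℂ) + ((v + t : ℝ) : ℂ) * I))) := by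
    have c1 : Continuous fun v : ℝ => f (((x + s : ℝ) : ℂ) + (v : ℂ) * I) := by fun_prop
    have c2 : Continuous fun v : ℝ => f (((x + s : ℝ) : ℂ) + ((v + t : ℝ) : ℂ) * I) := by
      fun_prop
    have c3 : Continuous fun v : ℝ => f ((x : ℂ) + (v : ℂ) * I) := by fun_prop
    have c4 : Continuous fun v : ℝ => f ((x : ℂ) + ((v + t : ℝ) : ℂ) * I) := by fun_prop
    have d1 : Continuous fun u : ℝ => f ((u : ℂ) + (y : ℂ) * I) := by fun_prop
    have d2 : Continuous fun u : ℝ => f ((u : ℂ) + ((y + t + t : ℝ) : ℂ) * I) := by fun_prop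
    have d3 : Continuous fun u : ℝ => 2 * f ((u : ℂ) + ((y + t : ℝ) : ℂ) * I) := by fun_prop
    have c12 : Continuous fun v : ℝ => f (((x + s : ℝ) : ℂ) + (v : ℂ) * I)
        - f (((x + s : ℝ) : ℂ) + ((v + t : ℝ) : ℂ) * I) := by fun_prop
    have c123 : Continuous fun v : ℝ => f (((x + s : ℝ) : ℂ) + (v : ℂ) * I)
        - f (((x + s : ℝ) : ℂ) + ((v + t : ℝ) : ℂ) * I) - f ((x : ℂ) + (v : ℂ) * I) := by
      fun_prop
    have d12 : Continuous fun u : ℝ => f ((u : ℂ) + (y : ℂ) * I)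
        + f ((u : ℂ) + ((y + t + t : ℝ) : ℂ) * I) := by fun_prop
    rw [intervalIntegral.integral_add (c123.intervalIntegrable _ _)
        (c4.intervalIntegrable _ _),
      intervalIntegral.integral_sub (c12.intervalIntegrable _ _)
        (c3.intervalIntegrable _ _),
      intervalIntegral.integral_sub (c1.intervalIntegrable _ _) (c2.intervalIntegrable _ _),
      intervalIntegral.integral_sub (d12.intervalIntegrable _ _)
        (d3.intervalIntegrable _ _),
      intervalIntegral.integral_add (d1.intervalIntegrable _ _) (d2.intervalIntegrable _ _),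
      intervalIntegral.integral_const_mul]
    unfold bd
    rw [shift_h (fun v : ℝ => f (((x + s : ℝ) : ℂ) + (v : ℂ) * I)),
      shift_h (fun v : ℝ => f ((x : ℂ) + (v : ℂ) * I))]
    ring
  rw [e]
  have b1 : ‖∫ v : ℝ in y..(y + t), (f (((x + s : ℝ) : ℂ) + (v : ℂ) * I)
        - f (((x + s : ℝ) : ℂ) + ((v + t : ℝ) : ℂ) * I) - f ((x : ℂ) + (v : ℂ) * I)
        + f ((x : ℂ) + ((v + t : ℝ) : ℂ) * I))‖ ≤ (2 * δ) * |y + t - y| := by
    refine intervalIntegral.norm_integral_le_of_norm_le_const ?_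
    intro v hv
    rw [uIoc_of_le (by linarith)] at hv
    have g1 := h (x + s / 2) (v + t / 2) (s / 2) (t / 2)
      (by rw [abs_of_nonneg (by linarith)]; linarith)
      (by rw [abs_of_nonneg (by linarith)]; linarith)
      (by rw [abs_of_nonneg (by linarith)]; linarith [hv.1])
      (by rw [abs_of_nonneg (by linarith)]; linarith [hv.2])
    have g2 := h (x + s / 2) (v + t / 2) (-(s / 2)) (t / 2)
      (by rw [abs_neg, abs_of_nonneg (by linarith)]; linarith)
      (by rw [abs_neg, abs_of_nonneg (by linarith)]; linarith)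
      (by rw [abs_of_nonneg (by linarith)]; linarith [hv.1])
      (by rw [abs_of_nonneg (by linarith)]; linarith [hv.2])
    have r1 : x + s / 2 + s / 2 = x + s := by ring
    have r2 : x + s / 2 - s / 2 = x := by ring
    have r3 : v + t / 2 + t / 2 = v + t := by ring
    have r4 : v + t / 2 - t / 2 = v := by ring
    have r5 : x + s / 2 + -(s / 2) = x := by ring
    have r6 : x + s / 2 - -(s / 2) = x + s := by ring
    rw [r1, r2, r3, r4] at g1
    rw [r5, r6, r3, r4] at g2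
    have e2 : f (((x + s : ℝ) : ℂ) + (v : ℂ) * I)
        - f (((x + s : ℝ) : ℂ) + ((v + t : ℝ) : ℂ) * I) - f ((x : ℂ) + (v : ℂ) * I)
        + f ((x : ℂ) + ((v + t : ℝ) : ℂ) * I) =
        (f ((x : ℂ) + ((v + t : ℝ) : ℂ) * I) + f (((x + s : ℝ) : ℂ) + (v : ℂ) * I)
          - 2 * f (((x + s / 2 : ℝ) : ℂ) + ((v + t / 2 : ℝ) : ℂ) * I)) -
        (f (((x + s : ℝ) : ℂ) + ((v + t : ℝ) : ℂ) * I) + f ((x : ℂ) + (v : ℂ) * I)
          - 2 * f (((x + s / 2 : ℝ) : ℂ) + ((v + t / 2 : ℝ) : ℂ) * I)) := by ring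
    rw [e2]
    refine (norm_sub_le _ _).trans ?_
    linarith
  have b2 : ‖∫ u : ℝ in x..(x + s), (f ((u : ℂ) + (y : ℂ) * I)
        + f ((u : ℂ) + ((y + t + t : ℝ) : ℂ) * I)
        - 2 * f ((u : ℂ) + ((y + t : ℝ) : ℂ) * I))‖ ≤ δ * |x + s - x| := by
    refine intervalIntegral.norm_integral_le_of_norm_le_const ?_
    intro u hu
    rw [uIoc_of_le (by linarith)] at hu
    have g1 := h u (y + t) 0 (-t)
      (by rw [abs_zero]; linarith [hu.1])
      (by rw [abs_zero]; linarith [hu.2])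
      (by rw [abs_neg, abs_of_nonneg ht]; linarith)
      (by rw [abs_neg, abs_of_nonneg ht]; linarith)
    have r1 : y + t + -t = y := by ring
    have r2 : y + t - -t = y + t + t := by ring
    rw [r1, r2, add_zero, sub_zero] at g1
    exact g1
  refine (norm_add_le _ _).trans ?_
  rw [norm_mul, norm_I, one_mul]
  have r1 : |x + s - x| = s := by
    rw [add_sub_cancel_left, abs_of_nonneg hs]
  have r2 : |y + t - y| = t := by
    rw [add_sub_cancel_left, abs_of_nonneg ht]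
  rw [r2] at b1
  rw [r1] at b2
  nlinarith

lemma SD.mono {x y s t δ x' y' s' t' : ℝ} (h : SD f x y s t δ) (h1 : x ≤ x')
    (h2 : x' + s' ≤ x + s) (h3 : y ≤ y') (h4 : y' + t' ≤ y + t) : SD f x' y' s' t' δ :=
  fun a b p q g1 g2 g3 g4 => h a b p q (h1.trans g1) (g2.trans h2) (h3.trans g3) (g4.trans h4)

/-- Normalized square of the boundary integral. -/
noncomputable def en (f : ℂ → ℂ) (x y s t : ℝ) : ℝ := ‖bd f x y s t‖ ^ 2 / (s * t)

lemma four_sq (a b c d : ℂ) (D : ℝ) (hab : ‖a - b‖ ≤ D) (hcd : ‖c - d‖ ≤ D) (hac : ‖a - c‖ ≤ D)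
    (hbd : ‖b - d‖ ≤ D) :
    ‖a‖ ^ 2 + ‖b‖ ^ 2 + ‖c‖ ^ 2 + ‖d‖ ^ 2 ≤ ‖a + b + c + d‖ ^ 2 / 4 + 4 * D ^ 2 := by
  have hD : 0 ≤ D := (norm_nonneg _).trans hab
  -- reduce to real and imaginary parts
  have n2 : ∀ z : ℂ, ‖z‖ ^ 2 = z.re ^ 2 + z.im ^ 2 := fun z => by
    rw [← normSq_eq_norm_sq, normSq_apply]
    ring
  have h1 : ‖a - b‖ ^ 2 ≤ D ^ 2 := pow_le_pow_left₀ (norm_nonneg _) hab 2
  have h2 : ‖c - d‖ ^ 2 ≤ D ^ 2 := pow_le_pow_left₀ (norm_nonneg _) hcd 2
  have h3 : ‖a - c‖ ^ 2 ≤ D ^ 2 := pow_le_pow_left₀ (norm_nonneg _) hac 2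
  have h4 : ‖b - d‖ ^ 2 ≤ D ^ 2 := pow_le_pow_left₀ (norm_nonneg _) hbd 2
  have key : ‖a‖ ^ 2 + ‖b‖ ^ 2 + ‖c‖ ^ 2 + ‖d‖ ^ 2 - ‖a + b + c + d‖ ^ 2 / 4 ≤
      ‖a - b‖ ^ 2 + ‖c - d‖ ^ 2 + ‖a - c‖ ^ 2 + ‖b - d‖ ^ 2 := by
    simp only [n2, add_re, add_im, sub_re, sub_im]
    nlinarith [sq_nonneg (a.re - b.re + c.re - d.re), sq_nonneg (a.re - b.re - c.re + d.re),
      sq_nonneg (a.re + b.re - c.re - d.re), sq_nonneg (a.im - b.im + c.im - d.im),
      sq_nonneg (a.im - b.im - c.im + d.im), sq_nonneg (a.im + b.im - c.im - d.im)]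
  linarith

/-- The energy grows at most by the second differences. -/
lemma en_step (hf : Continuous f) (x y s t δ : ℝ) (hs : 0 < s) (ht : 0 < t)
    (h : SD f x y s t δ) (hδ : 0 ≤ δ) :
    gs 1 (en f) x y s t ≤ en f x y s t + 16 * (s + t) ^ 2 * δ ^ 2 / (s * t) := by
  have hs2 : 0 < s / 2 := by linarith
  have ht2 : 0 < t / 2 := by linarith
  have q : ∀ x1 y1, x ≤ x1 → x1 + s / 2 ≤ x + s → y ≤ y1 → y1 + t / 2 ≤ y + t → True := by
    intros
    trivial
  have D1 : ∀ y1, y ≤ y1 → y1 + t / 2 ≤ y + t →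
      ‖bd f x y1 (s / 2) (t / 2) - bd f (x + s / 2) y1 (s / 2) (t / 2)‖ ≤ (s + t) * δ := by
    intro y1 h1 h2
    have := adj_h hf x y1 (s / 2) (t / 2) δ hs2.le ht2.le
      (h.mono le_rfl (by linarith) h1 h2)
    refine this.trans (mul_le_mul_of_nonneg_right ?_ hδ)
    linarith
  have D2 : ∀ x1, x ≤ x1 → x1 + s / 2 ≤ x + s →
      ‖bd f x1 y (s / 2) (t / 2) - bd f x1 (y + t / 2) (s / 2) (t / 2)‖ ≤ (s + t) * δ := by
    intro x1 h1 h2
    have := adj_v hf x1 y (s / 2) (t / 2) δ hs2.le ht2.le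
      (h.mono h1 h2 le_rfl (by linarith))
    refine this.trans (mul_le_mul_of_nonneg_right ?_ hδ)
    linarith
  have k1 := D1 y le_rfl (by linarith)
  have k2 := D1 (y + t / 2) (by linarith) (by linarith)
  have k3 := D2 x le_rfl (by linarith)
  have k4 := D2 (x + s / 2) (by linarith) (by linarith)
  have k5 := four_sq _ _ _ _ _ k1 k2 k3 k4
  have k6 : bd f x y (s / 2) (t / 2) + bd f (x + s / 2) y (s / 2) (t / 2) +
      bd f x (y + t / 2) (s / 2) (t / 2) + bd f (x + s / 2) (y + t / 2) (s / 2) (t / 2) =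
      bd f x y s t := bd_gs_one hf x y s t
  rw [k6] at k5
  simp only [gs, en]
  have hst : 0 < s * t := mul_pos hs ht
  have e1 : s / 2 * (t / 2) = s * t / 4 := by ring
  rw [e1, ← add_div, ← add_div, ← add_div, ← add_div, div_le_div_iff₀ (by linarith) hst]
  have : (‖bd f x y s t‖ ^ 2 + 16 * (s + t) ^ 2 * δ ^ 2) * (s * t / 4) =
      (‖bd f x y s t‖ ^ 2 / 4 + 4 * ((s + t) * δ) ^ 2) * (s * t) := by ring
  rw [this]
  exact mul_le_mul_of_nonneg_right k5 hst.le

/-- The rectangle meets the set. -/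
def meets (K : Set ℂ) (x y s t : ℝ) : Prop :=
  ∃ z ∈ K, x ≤ z.re ∧ z.re ≤ x + s ∧ y ≤ z.im ∧ z.im ≤ y + t

lemma meets.mono {K : Set ℂ} {x y s t x' y' s' t' : ℝ} (h : meets K x' y' s' t') (h1 : x ≤ x')
    (h2 : x' + s' ≤ x + s) (h3 : y ≤ y') (h4 : y' + t' ≤ y + t) : meets K x y s t := by
  obtain ⟨z, hz, g1, g2, g3, g4⟩ := h
  exact ⟨z, hz, h1.trans g1, g2.trans h2, h3.trans g3, g4.trans h4⟩

/-- Cauchy: no boundary integral off the set. -/
lemma bd_eq_zero {K : Set ℂ} (hK : DifferentiableOn ℂ f Kᶜ) (x y s t : ℝ)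
    (hs : 0 ≤ s) (ht : 0 ≤ t) (h : ¬ meets K x y s t) : bd f x y s t = 0 := by
  have hd : DifferentiableOn ℂ f (uIcc x (x + s) ×ℂ uIcc y (y + t)) := by
    refine hK.mono ?_
    intro z hz hzK
    rw [mem_reProdIm, uIcc_of_le (by linarith), uIcc_of_le (by linarith)] at hz
    exact h ⟨z, hzK, hz.1.1, hz.1.2, hz.2.1, hz.2.2⟩
  have := integral_boundary_rect_eq_zero_of_differentiableOn f ⟨x, y⟩ ⟨x + s, y + t⟩ hd
  simpa [bd, smul_eq_mul] using this

open Classical in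
/-- The area if the rectangle meets the set, else zero. -/
noncomputable def ar (K : Set ℂ) (x y s t : ℝ) : ℝ := if meets K x y s t then s * t else 0

lemma ar_nonneg {K : Set ℂ} (x y s t : ℝ) (hs : 0 ≤ s) (ht : 0 ≤ t) : 0 ≤ ar K x y s t := by
  unfold ar
  split_ifs
  · exact mul_nonneg hs ht
  · exact le_rfl

end Pool.Agent.BMR
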