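import Mathlib

/-!
Planar Brownian motion on `[0,1]`: uniqueness of the law of the coordinates, scaling, Markov
property (independence of the two halves).
-/

open MeasureTheory Set Filter Topology ProbabilityTheory

namespace Pool.Agent.BMR

set_option linter.unusedSectionVars false

/-- Standard planar Brownian motion on `[0,1]` started at `0`, as in the frozen statement. -/
structure IsPBM {Ω : Type} [MeasurableSpace Ω] (P : Measure Ω) (B : ℝ → Ω → ℂ) : Prop where
  zero : ∀ ω, B 0 ω = 0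
  cont : ∀ ω, Continuous (fun t => B t ω)
  law : ∀ (n : ℕ) (t : Fin n → ℝ) (a b : Fin n → ℝ),
    (∀ i, t i ∈ Set.Icc (0 : ℝ) 1) →
      P.map (fun ω => ∑ i, (a i * (B (t i) ω).re + b i * (B (t i) ω).im)) =
        gaussianReal 0 (∑ i, ∑ j, (a i * a j + b i * b j) * min (t i) (t j)).toNNReal

variable {Ω : Type} [MeasurableSpace Ω] {P : Measure Ω} {B : ℝ → Ω → ℂ}

lemma IsPBM.map_lin (h : IsPBM P B) {ι : Type*} [Fintype ι] (t a b : ι → ℝ)
    (ht : ∀ i, t i ∈ Set.Icc (0 : ℝ) 1) :
    P.map (fun ω => ∑ i, (a i * (B (t i) ω).re + b i * (B (t i) ω).im)) =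
      gaussianReal 0 (∑ i, ∑ j, (a i * a j + b i * b j) * min (t i) (t j)).toNNReal := by
  have e := (Fintype.equivFin ι).symm
  have h1 := h.law (Fintype.card ι) (t ∘ e) (a ∘ e) (b ∘ e) (fun i => ht _)
  have h2 : (fun ω => ∑ i, ((a ∘ e) i * (B ((t ∘ e) i) ω).re + (b ∘ e) i * (B ((t ∘ e) i) ω).im))
      = fun ω => ∑ i, (a i * (B (t i) ω).re + b i * (B (t i) ω).im) := by
    ext ω
    exact e.sum_comp (fun i => a i * (B (t i) ω).re + b i * (B (t i) ω).im)
  have h3 : ∑ i, ∑ j, ((a ∘ e) i * (a ∘ e) j + (b ∘ e) i * (b ∘ e) j) *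
      min ((t ∘ e) i) ((t ∘ e) j) = ∑ i, ∑ j, (a i * a j + b i * b j) * min (t i) (t j) := by
    rw [← e.sum_comp (fun i => ∑ j, (a i * a j + b i * b j) * min (t i) (t j))]
    refine Finset.sum_congr rfl fun i _ => ?_
    exact e.sum_comp (fun j => (a (e i) * a j + b (e i) * b j) * min (t (e i)) (t j))
  rw [h2, h3] at h1
  exact h1

/-- The real coordinates: `true` for the real part, `false` for the imaginary part. -/
def co (B : ℝ → Ω → ℂ) (p : ℝ × Bool) (ω : Ω) : ℝ :=
  if p.2 then (B p.1 ω).re else (B p.1 ω).im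

lemma co_eq (B : ℝ → Ω → ℂ) (p : ℝ × Bool) (ω : Ω) (c : ℝ) :
    c * co B p ω = (if p.2 then c else 0) * (B p.1 ω).re + (if p.2 then 0 else c) * (B p.1 ω).im := by
  unfold co
  split_ifs <;> simp

/-- Variance of a linear combination of coordinates. -/
noncomputable def qv {ι : Type*} [Fintype ι] (p : ι → ℝ × Bool) (c : ι → ℝ) : ℝ :=
  ∑ i, ∑ j, ((if (p i).2 then c i else 0) * (if (p j).2 then c j else 0) +
    (if (p i).2 then 0 else c i) * (if (p j).2 then 0 else c j)) * min (p i).1 (p j).1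

lemma IsPBM.map_co (h : IsPBM P B) {ι : Type*} [Fintype ι] (p : ι → ℝ × Bool) (c : ι → ℝ)
    (hp : ∀ i, (p i).1 ∈ Set.Icc (0 : ℝ) 1) :
    P.map (fun ω => ∑ i, c i * co B (p i) ω) = gaussianReal 0 (qv p c).toNNReal := by
  have h1 := h.map_lin (fun i => (p i).1) (fun i => if (p i).2 then c i else 0)
    (fun i => if (p i).2 then 0 else c i) hp
  have h2 : (fun ω => ∑ i, c i * co B (p i) ω) = fun ω => ∑ i,
      ((if (p i).2 then c i else 0) * (B (p i).1 ω).re +
        (if (p i).2 then 0 else c i) * (B (p i).1 ω).im) := by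
    ext ω
    exact Finset.sum_congr rfl fun i _ => co_eq B (p i) ω (c i)
  rw [h2]
  exact h1

lemma IsPBM.aemeasurable_co (h : IsPBM P B) (p : ℝ × Bool) (hp : p.1 ∈ Set.Icc (0 : ℝ) 1) :
    AEMeasurable (co B p) P := by
  have h1 := h.map_co (ι := Unit) (fun _ => p) (fun _ => 1) (fun _ => hp)
  simp only [Finset.univ_unique, Finset.sum_const, Finset.card_singleton, one_smul, one_mul] at h1
  refine AEMeasurable.of_map_ne_zero ?_
  have h2 : P.map (co B p) = gaussianReal 0 (qv (ι := Unit) (fun _ => p) (fun _ => 1)).toNNReal := h1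
  rw [h2]
  exact IsProbabilityMeasure.ne_zero _

lemma dual_eq {ι : Type*} [Fintype ι] [DecidableEq ι] (L : StrongDual ℝ (ι → ℝ)) (v : ι → ℝ) :
    L v = ∑ i, L (Pi.single i 1) * v i := by
  conv_lhs => rw [← Finset.univ_sum_single v]
  rw [map_sum]
  refine Finset.sum_congr rfl fun i _ => ?_
  have : (Pi.single i (v i) : ι → ℝ) = v i • (Pi.single i 1 : ι → ℝ) := by
    ext j
    by_cases hj : j = i
    · subst hj; simp
    · simp [hj]
  rw [this, map_smul, smul_eq_mul, mul_comm]

lemma IsPBM.map_dual (h : IsPBM P B) {ι : Type*} [Fintype ι] [DecidableEq ι] (p : ι → ℝ × Bool)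
    (hp : ∀ i, (p i).1 ∈ Set.Icc (0 : ℝ) 1) (L : StrongDual ℝ (ι → ℝ)) :
    (P.map (fun ω i => co B (p i) ω)).map L =
      gaussianReal 0 (qv p (fun i => L (Pi.single i 1))).toNNReal := by
  have hm : AEMeasurable (fun ω i => co B (p i) ω) P :=
    aemeasurable_pi_lambda _ fun i => h.aemeasurable_co (p i) (hp i)
  rw [AEMeasurable.map_map_of_aemeasurable (by fun_prop) hm, ← h.map_co p _ hp]
  congr 1
  ext ω
  simp only [Function.comp]
  exact dual_eq L _

lemma IsPBM.gaussian (h : IsPBM P B) {T : Type*} (p : T → ℝ × Bool)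
    (hp : ∀ i, (p i).1 ∈ Set.Icc (0 : ℝ) 1) :
    IsGaussianProcess (fun (i : T) (ω : Ω) => co B (p i) ω) P where
  hasGaussianLaw I := by
    classical
    refine ⟨?_⟩
    exact isGaussian_of_map_eq_gaussianReal fun L =>
      ⟨0, _, h.map_dual (fun i : I => p i) (fun i => hp i) L⟩

/-- Uniqueness of the law of the coordinates. -/
lemma map_unique {Ω' : Type} [MeasurableSpace Ω'] {P' : Measure Ω'} {B' : ℝ → Ω' → ℂ}
    [IsFiniteMeasure P] [IsFiniteMeasure P']
    (h : IsPBM P B) (h' : IsPBM P' B') {T : Type*} (p : T → ℝ × Bool)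
    (hT : Countable T)
    (hp : ∀ i, (p i).1 ∈ Set.Icc (0 : ℝ) 1) :
    P.map (fun ω i => co B (p i) ω) = P'.map (fun ω i => co B' (p i) ω) := by
  classical
  have hm : AEMeasurable (fun ω i => co B (p i) ω) P :=
    aemeasurable_pi_lambda _ fun i => h.aemeasurable_co (p i) (hp i)
  have hm' : AEMeasurable (fun ω i => co B' (p i) ω) P' :=
    aemeasurable_pi_lambda _ fun i => h'.aemeasurable_co (p i) (hp i)
  have key : ∀ I : Finset T, (P.map (fun ω i => co B (p i) ω)).map I.restrict =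
      (P'.map (fun ω i => co B' (p i) ω)).map I.restrict := by
    intro I
    rw [AEMeasurable.map_map_of_aemeasurable (by fun_prop) hm,
      AEMeasurable.map_map_of_aemeasurable (by fun_prop) hm']
    refine Measure.ext_of_charFunDual ?_
    ext L
    rw [charFunDual_eq_charFun_map_one, charFunDual_eq_charFun_map_one]
    have h1 := h.map_dual (fun i : I => p i) (fun i => hp i) L
    have h2 := h'.map_dual (fun i : I => p i) (fun i => hp i) L
    have h3 : Finset.restrict I ∘ (fun ω i => co B (p i) ω) =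
        fun (ω : Ω) (i : I) => co B (p i) ω := rfl
    have h4 : Finset.restrict I ∘ (fun ω i => co B' (p i) ω) =
        fun (ω : Ω') (i : I) => co B' (p i) ω := rfl
    rw [h3, h4, h1, h2]
  exact IsProjectiveLimit.unique
    (P := fun I : Finset T => (P.map (fun ω i => co B (p i) ω)).map I.restrict)
    (fun I => rfl) (fun I => (key I).symm)

end Pool.Agent.BMR
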