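import Mathlib

/-!
A real function which maps a closed null set to a null set and has an integrable derivative off
this set is the integral of its derivative.
-/

open MeasureTheory Set Filter Topology

namespace Pool.Agent.BMR

lemma line_bound (u w : ℝ → ℝ) (hu : Continuous u) (F : Set ℝ) (hF : IsClosed F) (a b : ℝ)
    (hd : ∀ x ∉ F, HasDerivAt u (w x) x) (hw : IntegrableOn w (Icc a b))
    (hN : volume (u '' (F ∩ Icc a b)) = 0) (c d : ℝ) (hac : a ≤ c) (hcd : c ≤ d) (hdb : d ≤ b) :
    |u d - u c| ≤ ∫ x in c..d, |w x| := by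
  have hwcd : IntegrableOn w (Icc c d) := hw.mono_set (Icc_subset_Icc hac hdb)
  have h1 : uIcc (u c) (u d) ⊆ u '' (Icc c d) := by
    have := intermediate_value_uIcc (hu.continuousOn (s := uIcc c d))
    rwa [uIcc_of_le hcd] at this
  have h2 : u '' Icc c d ⊆ u '' (Icc c d \ F) ∪ u '' (F ∩ Icc a b) := by
    rintro _ ⟨x, hx, rfl⟩
    by_cases hxF : x ∈ F
    · exact Or.inr ⟨x, ⟨hxF, hac.trans hx.1, hx.2.trans hdb⟩, rfl⟩
    · exact Or.inl ⟨x, ⟨hx, hxF⟩, rfl⟩
  have h3 : volume (u '' (Icc c d \ F)) ≤ ∫⁻ x in Icc c d \ F, ENNReal.ofReal |w x| := by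
    have := addHaar_image_le_lintegral_abs_det_fderiv volume (s := Icc c d \ F) (f := u)
      (f' := fun x => ContinuousLinearMap.toSpanSingleton ℝ (w x))
      (measurableSet_Icc.diff hF.measurableSet)
      (fun x hx => (hd x hx.2).hasFDerivAt.hasFDerivWithinAt)
    simpa only [ContinuousLinearMap.det_toSpanSingleton] using this
  have h4 : ∫⁻ x in Icc c d \ F, ENNReal.ofReal |w x| ≤ ∫⁻ x in Icc c d, ENNReal.ofReal |w x| :=
    lintegral_mono_set sdiff_subset
  have h5 : ∫⁻ x in Icc c d, ENNReal.ofReal |w x| = ENNReal.ofReal (∫ x in Icc c d, |w x|) := by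
    rw [ofReal_integral_eq_lintegral_ofReal hwcd.abs]
    exact Eventually.of_forall fun x => abs_nonneg _
  have h6 : volume (uIcc (u c) (u d)) ≤ ENNReal.ofReal (∫ x in Icc c d, |w x|) := by
    refine (measure_mono (h1.trans h2)).trans ((measure_union_le _ _).trans ?_)
    rw [hN, add_zero, ← h5]
    exact h3.trans h4
  rw [Real.volume_interval] at h6
  have h7 : 0 ≤ ∫ x in Icc c d, |w x| := integral_nonneg fun x => abs_nonneg _
  have h8 := (ENNReal.ofReal_le_ofReal_iff h7).mp h6
  rw [intervalIntegral.integral_of_le hcd, ← integral_Icc_eq_integral_Ioc]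
  exact h8

/-- The fundamental theorem of calculus. -/
theorem line_ftc (u w : ℝ → ℝ) (hu : Continuous u) (F : Set ℝ) (hF : IsClosed F) (a b : ℝ)
    (hab : a ≤ b) (hF0 : volume (F ∩ Icc a b) = 0)
    (hd : ∀ x ∉ F, HasDerivAt u (w x) x) (hw : IntegrableOn w (Icc a b))
    (hN : volume (u '' (F ∩ Icc a b)) = 0) :
    ∫ x in a..b, w x = u b - u a := by
  have hii : IntervalIntegrable w volume a b := by
    rw [intervalIntegrable_iff_integrableOn_Icc_of_le hab]
    exact hw
  have hii' : IntervalIntegrable (fun x => |w x|) volume a b := hii.abs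
  have hac : AbsolutelyContinuousOnInterval (fun x => ∫ v in a..x, |w v|) a b :=
    hii'.absolutelyContinuousOnInterval_intervalIntegral (by simp)
  have key : ∀ c ∈ uIcc a b, ∀ d ∈ uIcc a b, dist (u c) (u d) ≤
      dist (∫ v in a..c, |w v|) (∫ v in a..d, |w v|) := by
    have aux : ∀ c ∈ Icc a b, ∀ d ∈ Icc a b, c ≤ d → dist (u c) (u d) ≤
        dist (∫ v in a..c, |w v|) (∫ v in a..d, |w v|) := by
      intro c hc d hd' hcd
      have h1 := line_bound u w hu F hF a b hd hw hN c d hc.1 hcd hd'.2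
      have i1 : IntervalIntegrable (fun x => |w x|) volume a c :=
        hii'.mono_set (by rw [uIcc_of_le hc.1, uIcc_of_le hab]; exact Icc_subset_Icc le_rfl hc.2)
      have i2 : IntervalIntegrable (fun x => |w x|) volume c d :=
        hii'.mono_set (by rw [uIcc_of_le hcd, uIcc_of_le hab]; exact Icc_subset_Icc hc.1 hd'.2)
      have h2 := intervalIntegral.integral_add_adjacent_intervals i1 i2
      rw [Real.dist_eq, Real.dist_eq, abs_sub_comm, ← h2, sub_add_cancel_left, abs_neg]
      exact h1.trans (le_abs_self _)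
    intro c hc d hd'
    rw [uIcc_of_le hab] at hc hd'
    rcases le_total c d with h | h
    · exact aux c hc d hd' h
    · rw [dist_comm, dist_comm (∫ v in a..c, |w v|)]
      exact aux d hd' c hc h
  have hacu : AbsolutelyContinuousOnInterval u a b := by
    rw [absolutelyContinuousOnInterval_iff] at hac ⊢
    intro ε hε
    obtain ⟨δ, hδ, h⟩ := hac ε hε
    refine ⟨δ, hδ, fun E hE hs => lt_of_le_of_lt (Finset.sum_le_sum fun i hi => ?_) (h E hE hs)⟩
    have := hE.1 i hi
    exact key _ this.1 _ this.2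
  have h1 := hacu.integral_deriv_eq_sub
  rw [← h1]
  refine intervalIntegral.integral_congr_ae ?_
  rw [uIoc_of_le hab]
  have h2 : ∀ᵐ x, x ∉ F ∩ Icc a b := by
    exact measure_eq_zero_iff_ae_notMem.mp hF0
  filter_upwards [h2] with x hx hxI
  have : x ∉ F := fun h => hx ⟨h, hxI.1.le, hxI.2⟩
  exact (hd x this).deriv.symm

/-- Complex version. -/
theorem line_ftc_complex (g w : ℝ → ℂ) (hg : Continuous g) (F : Set ℝ) (hF : IsClosed F)
    (a b : ℝ) (hab : a ≤ b) (hF0 : volume (F ∩ Icc a b) = 0)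
    (hd : ∀ x ∉ F, HasDerivAt g (w x) x) (hw : IntegrableOn w (Icc a b))
    (hN1 : volume ((fun x => (g x).re) '' (F ∩ Icc a b)) = 0)
    (hN2 : volume ((fun x => (g x).im) '' (F ∩ Icc a b)) = 0) :
    ∫ x in a..b, w x = g b - g a := by
  have hii : IntervalIntegrable w volume a b := by
    rw [intervalIntegrable_iff_integrableOn_Icc_of_le hab]
    exact hw
  have h1 := line_ftc (fun x => (g x).re) (fun x => (w x).re) (by fun_prop) F hF a b hab hF0
    (fun x hx => (Complex.reCLM.hasFDerivAt.comp_hasDerivAt x (hd x hx))) hw.re hN1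
  have h2 := line_ftc (fun x => (g x).im) (fun x => (w x).im) (by fun_prop) F hF a b hab hF0
    (fun x hx => (Complex.imCLM.hasFDerivAt.comp_hasDerivAt x (hd x hx))) hw.im hN2
  have e1 : (∫ x in a..b, w x).re = ∫ x in a..b, (w x).re :=
    (Complex.reCLM.intervalIntegral_comp_comm hii).symm
  have e2 : (∫ x in a..b, w x).im = ∫ x in a..b, (w x).im :=
    (Complex.imCLM.intervalIntegral_comp_comm hii).symm
  apply Complex.ext
  · rw [e1, h1, Complex.sub_re]
  · rw [e2, h2, Complex.sub_im]

end Pool.Agent.BMR
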