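import Pool.Agent.Lib.BMR.Slice

/-!
Homeomorphisms whose linear dilatation is `o(√(log 1/r))` pointwise.
-/

open MeasureTheory Set Filter Topology Complex

namespace Pool.Agent.BMR

variable {K : Set ℂ}

/-- The dilatation of `f` at `x` is `o(√N)` at the scales `2 ^ (-N)`, `N ∈ Λ`. -/
def DilSc (Λ : Set ℕ) (f : ℂ → ℂ) (x : ℂ) : Prop :=
  ∀ ε : ℝ, 0 < ε → ∃ j : ℕ, ∀ N ∈ Λ, j ≤ N → ∀ r : ℝ, 1 / 2 ^ (N + 1) ≤ r → r ≤ 2 / 2 ^ N →
    ∀ y z : ℂ, ‖y - x‖ ≤ r → r ≤ ‖z - x‖ → ‖f y - f x‖ ≤ ε * Real.sqrt N * ‖f z - f x‖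

/-- The points with the bound `ε` at the scales above `j`. -/
def Ej (Λ : Set ℕ) (f : ℂ → ℂ) (K : Set ℂ) (ε : ℝ) (j : ℕ) : Set ℂ :=
  {x | x ∈ K ∧ ∀ N ∈ Λ, j ≤ N → ∀ r : ℝ, 1 / 2 ^ (N + 1) ≤ r → r ≤ 2 / 2 ^ N →
    ∀ y z : ℂ, ‖y - x‖ ≤ r → r ≤ ‖z - x‖ → ‖f y - f x‖ ≤ ε * Real.sqrt N * ‖f z - f x‖}

lemma Ej_mono (Λ : Set ℕ) (f : ℂ → ℂ) (K : Set ℂ) (ε : ℝ) : Monotone (Ej Λ f K ε) := by
  intro i j hij x hx
  exact ⟨hx.1, fun N hN hj => hx.2 N hN (hij.trans hj)⟩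

lemma Ej_union (Λ : Set ℕ) (f : ℂ → ℂ) (K : Set ℂ) (ε : ℝ) (hε : 0 < ε)
    (hK : ∀ x ∈ K, DilSc Λ f x) : K ⊆ ⋃ j, Ej Λ f K ε j := by
  intro x hx
  obtain ⟨j, h⟩ := hK x hx ε hε
  exact mem_iUnion.mpr ⟨j, hx, h⟩

lemma Ah_mono (g : ℂ → ℝ) {E E' : Set ℂ} (h : E ⊆ E') (v x y s t : ℝ) :
    Ah g E v x y s t ≤ Ah g E' v x y s t := by
  unfold Ah
  split_ifs
  · exact measure_mono (image_mono fun a ha => ⟨ha.1, h ha.2⟩)
  · exact le_rfl

lemma Av_mono (g : ℂ → ℝ) {E E' : Set ℂ} (h : E ⊆ E') (v x y s t : ℝ) :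
    Av g E v x y s t ≤ Av g E' v x y s t := by
  unfold Av
  split_ifs
  · exact measure_mono (image_mono fun a ha => ⟨ha.1, h ha.2⟩)
  · exact le_rfl

lemma Ah_iUnion (g : ℂ → ℝ) (E : ℕ → Set ℂ) (hE : Monotone E) (v x y s t : ℝ) :
    Ah g (⋃ j, E j) v x y s t ≤ ⨆ j, Ah g (E j) v x y s t := by
  by_cases hv : y ≤ v ∧ v < y + t
  · simp only [Ah, hv, if_true, and_self]
    have e : (fun a : ℝ => g ((a : ℂ) + (v : ℂ) * I)) ''
        {a | (x ≤ a ∧ a < x + s) ∧ (a : ℂ) + (v : ℂ) * I ∈ ⋃ j, E j} =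
        ⋃ j, (fun a : ℝ => g ((a : ℂ) + (v : ℂ) * I)) ''
          {a | (x ≤ a ∧ a < x + s) ∧ (a : ℂ) + (v : ℂ) * I ∈ E j} := by
      rw [← image_iUnion]
      congr 1
      ext a
      simp only [mem_iUnion, Set.mem_ofPred_eq]
      constructor
      · rintro ⟨h1, j, h2⟩
        exact ⟨j, h1, h2⟩
      · rintro ⟨j, h1, h2⟩
        exact ⟨h1, j, h2⟩
    rw [e, Monotone.measure_iUnion]
    exact fun i j hij => image_mono fun a ha => ⟨ha.1, hE hij ha.2⟩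
  · have e : Ah g (⋃ j, E j) v x y s t = 0 := by
      simp only [Ah, hv, if_false]
    rw [e]
    exact bot_le

lemma Av_iUnion (g : ℂ → ℝ) (E : ℕ → Set ℂ) (hE : Monotone E) (v x y s t : ℝ) :
    Av g (⋃ j, E j) v x y s t ≤ ⨆ j, Av g (E j) v x y s t := by
  by_cases hv : x ≤ v ∧ v < x + s
  · simp only [Av, hv, if_true, and_self]
    have e : (fun b : ℝ => g ((v : ℂ) + (b : ℂ) * I)) ''
        {b | (y ≤ b ∧ b < y + t) ∧ (v : ℂ) + (b : ℂ) * I ∈ ⋃ j, E j} =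
        ⋃ j, (fun b : ℝ => g ((v : ℂ) + (b : ℂ) * I)) ''
          {b | (y ≤ b ∧ b < y + t) ∧ (v : ℂ) + (b : ℂ) * I ∈ E j} := by
      rw [← image_iUnion]
      congr 1
      ext a
      simp only [mem_iUnion, Set.mem_ofPred_eq]
      constructor
      · rintro ⟨h1, j, h2⟩
        exact ⟨j, h1, h2⟩
      · rintro ⟨j, h1, h2⟩
        exact ⟨h1, j, h2⟩
    rw [e, Monotone.measure_iUnion]
    exact fun i j hij => image_mono fun a ha => ⟨ha.1, hE hij ha.2⟩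
  · have e : Av g (⋃ j, E j) v x y s t = 0 := by
      simp only [Av, hv, if_false]
    rw [e]
    exact bot_le

lemma ar_mono {E E' : Set ℂ} (h : E ⊆ E') (x y s t : ℝ) (hs : 0 ≤ s) (ht : 0 ≤ t) :
    ar E x y s t ≤ ar E' x y s t := by
  unfold ar
  by_cases h1 : meets E x y s t
  · have h2 : meets E' x y s t := by
      obtain ⟨z, hz, g⟩ := h1
      exact ⟨z, h hz, g⟩
    simp only [h1, h2, if_true]
    exact le_rfl
  · simp only [h1, if_false]
    split_ifs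
    · exact mul_nonneg hs ht
    · exact le_rfl

/-- Almost all slices have null images. -/
theorem null_slices (Λ : Set ℕ) (f : ℂ ≃ₜ ℂ) (K' : Set ℂ) (hKK : K' ⊆ K)
    (hpt : ∀ x ∈ K', DilSc Λ (⇑f) x) (v : ℕ → ℝ) (hv0 : ∀ n, 0 ≤ v n)
    (hv : ∀ n, volume (nb K (1 / 2 ^ n)) ≤ ENNReal.ofReal (v n)) (L : ℝ)
    (hL : ∃ᶠ n : ℕ in atTop, n ∈ Λ ∧ (n : ℝ) * v n ≤ L) (g : ℂ → ℝ)
    (hg : ∀ z w, |g z - g w| ≤ ‖z - w‖) (x y s t : ℝ) (hs : 1 ≤ s) (ht : 1 ≤ t) :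
    (∀ᵐ u, Ah (fun z => g (f z)) K' u x y s t = 0) ∧
    (∀ᵐ u, Av (fun z => g (f z)) K' u x y s t = 0) := by
  have hs0 : 0 < s := by linarith
  have ht0 : 0 < t := by linarith
  have hL0 : 0 ≤ L := by
    obtain ⟨n, -, h1⟩ := hL.exists
    exact le_trans (mul_nonneg (Nat.cast_nonneg _) (hv0 n)) h1
  -- the size of the rectangle
  have hex : ∃ m : ℕ, max s t ≤ 2 ^ m := by
    obtain ⟨m, hm⟩ := pow_unbounded_of_one_lt (max s t) (one_lt_two (α := ℝ))
    exact ⟨m, hm.le⟩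
  obtain ⟨m, hm, hm2⟩ : ∃ m : ℕ, max s t ≤ 2 ^ m ∧ (2 : ℝ) ^ m ≤ 2 * (s + t) := by
    classical
    refine ⟨Nat.find hex, Nat.find_spec hex, ?_⟩
    rcases Nat.eq_zero_or_pos (Nat.find hex) with h0 | h0
    · rw [h0, pow_zero]
      linarith
    · have h1 := Nat.find_min hex (Nat.sub_lt h0 one_pos)
      push Not at h1
      have e : (2 : ℝ) ^ (Nat.find hex) = 2 * 2 ^ (Nat.find hex - 1) := by
        rw [← pow_succ']
        congr 1
        omega
      rw [e]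
      have h2 : max s t ≤ s + t := max_le (by linarith) (by linarith)
      linarith
  have hsm : s ≤ 2 ^ m := (le_max_left _ _).trans hm
  have htm : t ≤ 2 ^ m := (le_max_right _ _).trans hm
  have hst : 0 < s + t := by linarith
  obtain ⟨k, hk⟩ := exists_nat_ge (max ((s + t) / s) ((s + t) / t))
  have hks : s + t ≤ k * s := by
    have := (le_max_left _ _).trans hk
    rwa [div_le_iff₀ hs0] at this
  have hkt : s + t ≤ k * t := by
    have := (le_max_right _ _).trans hk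
    rwa [div_le_iff₀ ht0] at this
  set A : ℝ := (2 * k + 1) ^ 2 *
      rh f (x - k * s) (y - k * t) ((2 * k + 1) * s) ((2 * k + 1) * t) with hA
  have hA0 : 0 ≤ A := mul_nonneg (by positivity) (rh_nonneg _ _ _ _ _)
  set D : ℝ := 2 * (s + t) ^ 2 / (s * t) * A with hD
  have hD0 : 0 ≤ D := by positivity
  have key : ∀ ε : ℝ, 0 < ε → ∀ j : ℕ,
      (∃ G : ℝ → ENNReal, Measurable G ∧
        (∀ u, Ah (fun z => g (f z)) (Ej Λ (⇑f) K' ε j) u x y s t ≤ G u) ∧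
        ∫⁻ u, G u ≤ ENNReal.ofReal (ε * (D + L / 2))) ∧
      (∃ G : ℝ → ENNReal, Measurable G ∧
        (∀ u, Av (fun z => g (f z)) (Ej Λ (⇑f) K' ε j) u x y s t ≤ G u) ∧
        ∫⁻ u, G u ≤ ENNReal.ofReal (ε * (D + L / 2))) := by
    intro ε hε j
    obtain ⟨N, ⟨hNΛ, h1⟩, h3, h2⟩ := (hL.and_eventually
      ((eventually_ge_atTop 1).and (eventually_ge_atTop j))).exists
    have hN : (1 : ℝ) ≤ N := by exact_mod_cast h3
    have hNpos : (0 : ℝ) < N := by linarith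
    have p2 : (0 : ℝ) < 2 ^ (N + m) := by positivity
    set r : ℝ := (s + t) / 2 ^ (N + m) with hr
    have hr0 : 0 < r := div_pos hst p2
    have hr1 : 1 / 2 ^ (N + 1) ≤ r := by
      rw [hr, div_le_div_iff₀ (by positivity) p2, one_mul, pow_add, pow_succ]
      have : (0 : ℝ) < 2 ^ N := by positivity
      nlinarith
    have hr2 : r ≤ 2 / 2 ^ N := by
      rw [hr, div_le_div_iff₀ p2 (by positivity), pow_add]
      have : (0 : ℝ) < 2 ^ N := by positivity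
      nlinarith
    have hη : (0 : ℝ) < 1 / ε := by positivity
    obtain ⟨s1, s2⟩ := slice_h (E := Ej Λ (⇑f) K' ε j) f g hg k x y s t hs0 ht0 hks hkt (N + m)
      (ε * Real.sqrt N) (by positivity)
      (fun x₀ hx₀ y₀ z₀ g1 g2 => hx₀.2 N hNΛ h2 r hr1 hr2 y₀ z₀ g1 g2) (1 / ε / N) (by positivity)
    have hP : gs (N + m) (ar (Ej Λ (⇑f) K' ε j)) x y s t ≤ v N := by
      refine le_trans ?_ (gs_ar_le_v (K := K) v hv0 hv m N x y s t hs0.le ht0.le hsm htm)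
      refine gs_mono _ _ _ x y s t hs0.le ht0.le fun x' y' _ _ _ _ => ?_
      exact ar_mono (fun z hz => hKK hz.1) _ _ _ _ (by positivity) (by positivity)
    have hW : gs (N + m) (Wc f (Ej Λ (⇑f) K' ε j) k (ε * Real.sqrt N) (1 / ε / N))
        x y s t ≤ ε * (D + L / 2) := by
      refine (gs_Wc f k _ _ (by positivity) (N + m) x y s t hs0 ht0).trans ?_
      have w1 : 1 / ε / N * (2 * (s + t) ^ 2 / (s * t) * (ε * Real.sqrt N) ^ 2 *
          ((2 * k + 1) ^ 2 * rh f (x - k * s) (y - k * t) ((2 * k + 1) * s) ((2 * k + 1) * t))) =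
          ε * D := by
        rw [mul_pow, Real.sq_sqrt hNpos.le, ← hA, hD]
        field_simp
      have w2 : 1 / (2 * (1 / ε / N)) * gs (N + m) (ar (Ej Λ (⇑f) K' ε j)) x y s t ≤
          ε * (L / 2) := by
        calc 1 / (2 * (1 / ε / N)) * gs (N + m) (ar (Ej Λ (⇑f) K' ε j)) x y s t
            ≤ 1 / (2 * (1 / ε / N)) * v N := mul_le_mul_of_nonneg_left hP (by positivity)
          _ = ε * ((N * v N) / 2) := by field_simp
          _ ≤ ε * (L / 2) := by gcongr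
      rw [w1]
      linarith
    refine ⟨?_, ?_⟩
    · obtain ⟨G, g1, g2, g3⟩ := s1
      exact ⟨G, g1, g2, g3.trans (ENNReal.ofReal_le_ofReal hW)⟩
    · obtain ⟨G, g1, g2, g3⟩ := s2
      exact ⟨G, g1, g2, g3.trans (ENNReal.ofReal_le_ofReal hW)⟩
  constructor
  · refine null_of _ (D + L / 2) fun ε hε => ⟨fun j u => Ah (fun z => g (f z)) (Ej Λ (⇑f) K' ε j)
      u x y s t, fun i j hij u => Ah_mono _ (Ej_mono _ _ _ _ hij) _ _ _ _ _, fun u => ?_,
      fun j => (key ε hε j).1⟩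
    exact (Ah_mono _ (Ej_union _ _ _ ε hε hpt) _ _ _ _ _).trans
      (Ah_iUnion _ _ (Ej_mono _ _ _ _) _ _ _ _ _)
  · refine null_of _ (D + L / 2) fun ε hε => ⟨fun j u => Av (fun z => g (f z)) (Ej Λ (⇑f) K' ε j)
      u x y s t, fun i j hij u => Av_mono _ (Ej_mono _ _ _ _ hij) _ _ _ _ _, fun u => ?_,
      fun j => (key ε hε j).2⟩
    exact (Av_mono _ (Ej_union _ _ _ ε hε hpt) _ _ _ _ _).trans
      (Av_iUnion _ _ (Ej_mono _ _ _ _) _ _ _ _ _)

/-! ### Integrability of the derivative -/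

lemma det_smul_one (c : ℂ) : ((c • (1 : ℂ →L[ℝ] ℂ)) : ℂ →L[ℝ] ℂ).det = Complex.normSq c := by
  rw [← Algebra.norm_complex_apply c, Algebra.norm_apply]
  rfl

/-- The derivative off `K`. -/
noncomputable def Df (f : ℂ → ℂ) (K : Set ℂ) (z : ℂ) : ℂ :=
  open Classical in if z ∈ K then 0 else deriv f z

lemma measurable_Df (f : ℂ → ℂ) (hK : IsClosed K) : Measurable (Df f K) := by
  classical
  exact Measurable.ite hK.measurableSet measurable_const (measurable_deriv f)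

lemma Df_of_notMem {f : ℂ → ℂ} {z : ℂ} (h : z ∉ K) : Df f K z = deriv f z := by
  simp only [Df, h, if_false]

lemma Df_of_mem {f : ℂ → ℂ} {z : ℂ} (h : z ∈ K) : Df f K z = 0 := by
  simp only [Df, h, if_true]

lemma integrableOn_Df (f : ℂ ≃ₜ ℂ) (hK : IsClosed K) (hd : DifferentiableOn ℂ (⇑f) Kᶜ) (R : ℝ) :
    IntegrableOn (Df (⇑f) K) (Metric.closedBall 0 R) := by
  refine ⟨(measurable_Df _ hK).aestronglyMeasurable, ?_⟩
  have hmeas : MeasurableSet (Metric.closedBall (0 : ℂ) R \ K) :=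
    Metric.isClosed_closedBall.measurableSet.diff hK.measurableSet
  have h1 := lintegral_abs_det_fderiv_eq_addHaar_image (volume : Measure ℂ)
    (s := Metric.closedBall (0 : ℂ) R \ K) (f := ⇑f)
    (f' := fun z => (deriv (⇑f) z • (1 : ℂ →L[ℝ] ℂ))) hmeas
    (fun z hz => ((hd.differentiableAt (hK.isOpen_compl.mem_nhds hz.2)).hasDerivAt
      ).complexToReal_fderiv.hasFDerivWithinAt) f.injective.injOn
  have hball : volume (Metric.closedBall (0 : ℂ) R) < ⊤ := measure_closedBall_lt_top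
  have himg : volume (⇑f '' (Metric.closedBall (0 : ℂ) R \ K)) < ⊤ := by
    refine (measure_mono (image_mono sdiff_subset)).trans_lt ?_
    exact ((ProperSpace.isCompact_closedBall 0 R).image f.continuous).measure_lt_top
  rw [hasFiniteIntegral_iff_enorm]
  calc ∫⁻ z in Metric.closedBall (0 : ℂ) R, ‖Df (⇑f) K z‖ₑ
      ≤ ∫⁻ z in Metric.closedBall (0 : ℂ) R, (1 +
        (Metric.closedBall (0 : ℂ) R \ K).indicator
          (fun z => ENNReal.ofReal |(deriv (⇑f) z • (1 : ℂ →L[ℝ] ℂ)).det|) z) := by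
        refine setLIntegral_mono' Metric.isClosed_closedBall.measurableSet fun z hz => ?_
        by_cases hzK : z ∈ K
        · rw [Df_of_mem hzK, enorm_zero]
          exact bot_le
        · have hz2 : z ∈ Metric.closedBall (0 : ℂ) R \ K := ⟨hz, hzK⟩
          rw [Df_of_notMem hzK, indicator_of_mem hz2, det_smul_one, Complex.normSq_eq_norm_sq,
            abs_of_nonneg (sq_nonneg _), ← ofReal_norm, ← ENNReal.ofReal_one,
            ← ENNReal.ofReal_add (by norm_num) (sq_nonneg _)]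
          refine ENNReal.ofReal_le_ofReal ?_
          nlinarith [sq_nonneg (‖deriv (⇑f) z‖ - 1), norm_nonneg (deriv (⇑f) z)]
    _ = volume (Metric.closedBall (0 : ℂ) R) + ∫⁻ z in Metric.closedBall (0 : ℂ) R,
        (Metric.closedBall (0 : ℂ) R \ K).indicator
          (fun z => ENNReal.ofReal |(deriv (⇑f) z • (1 : ℂ →L[ℝ] ℂ)).det|) z := by
        rw [lintegral_add_left measurable_const, setLIntegral_const, one_mul]
    _ ≤ volume (Metric.closedBall (0 : ℂ) R) + volume (⇑f '' (Metric.closedBall (0 : ℂ) R \ K)) := by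
        refine add_le_add le_rfl ?_
        rw [← h1, ← lintegral_indicator hmeas]
        exact setLIntegral_le_lintegral _ _
    _ < ⊤ := ENNReal.add_lt_top.mpr ⟨hball, himg⟩

/-- The map `(x, y) ↦ x + iy`. -/
noncomputable def cc (p : ℝ × ℝ) : ℂ := (p.1 : ℂ) + (p.2 : ℂ) * I

lemma cc_eq : (cc : ℝ × ℝ → ℂ) = ⇑Complex.measurableEquivRealProd.symm := by
  funext p
  apply Complex.ext <;> simp [cc, Complex.measurableEquivRealProd]

lemma integrableOn_Df_rect (f : ℂ ≃ₜ ℂ) (hK : IsClosed K) (hd : DifferentiableOn ℂ (⇑f) Kᶜ)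
    (a b c d : ℝ) : IntegrableOn (fun p : ℝ × ℝ => Df (⇑f) K (cc p)) (Icc a b ×ˢ Icc c d) := by
  have hcomp : IsCompact (cc '' (Icc a b ×ˢ Icc c d)) :=
    (isCompact_Icc.prod isCompact_Icc).image (by unfold cc; fun_prop)
  obtain ⟨R, hR⟩ := hcomp.isBounded.subset_closedBall 0
  have h1 := integrableOn_Df f hK hd R
  have h2 := (Complex.volume_preserving_equiv_real_prod.symm).integrableOn_comp_preimage
    (Complex.measurableEquivRealProd.symm.measurableEmbedding) (f := Df (⇑f) K)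
    (s := Metric.closedBall 0 R)
  rw [← cc_eq] at h2
  have h3 := h2.mpr h1
  exact h3.mono_set fun p hp => hR ⟨p, hp, rfl⟩

end Pool.Agent.BMR
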