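import Pool.Agent.Lib.BMR.Pt

/-!
The removability theorem for homeomorphisms with pointwise slowly growing linear dilatation.
-/

open MeasureTheory Set Filter Topology Complex

namespace Pool.Agent.BMR

variable {K : Set ℂ}

lemma null_plane (v : ℕ → ℝ) (hv0 : ∀ n, 0 ≤ v n)
    (hv : ∀ n, volume (nb K (1 / 2 ^ n)) ≤ ENNReal.ofReal (v n)) (L : ℝ)
    (hL : ∃ᶠ n : ℕ in atTop, (n : ℝ) * v n ≤ L) : volume (cc ⁻¹' K) = 0 := by
  have hL0 : 0 ≤ L := by
    obtain ⟨n, h1⟩ := hL.exists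
    exact le_trans (mul_nonneg (Nat.cast_nonneg _) (hv0 n)) h1
  have h1 : ∀ n, volume (cc ⁻¹' K) ≤ ENNReal.ofReal (v n) := by
    intro n
    refine (measure_mono ?_).trans (hv n)
    intro p hp
    refine ⟨cc p, hp, ?_, ?_⟩
    · have : (cc p).re - p.1 = 0 := by simp [cc]
      rw [this, abs_zero]
      positivity
    · have : (cc p).im - p.2 = 0 := by simp [cc]
      rw [this, abs_zero]
      positivity
  have h2 : ∀ N : ℕ, volume (cc ⁻¹' K) ≤ ENNReal.ofReal (L * (1 / ((N : ℝ) + 1))) := by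
    intro N
    obtain ⟨n, hn, h3⟩ := (frequently_atTop.mp hL) (N + 1)
    refine (h1 n).trans (ENNReal.ofReal_le_ofReal ?_)
    have hn' : (N : ℝ) + 1 ≤ n := by exact_mod_cast hn
    have hN : (0 : ℝ) < (N : ℝ) + 1 := by positivity
    rw [mul_one_div, le_div_iff₀ hN]
    have := hv0 n
    nlinarith
  have h4 : Tendsto (fun N : ℕ => ENNReal.ofReal (L * (1 / ((N : ℝ) + 1)))) atTop (𝓝 0) := by
    have h5 : Tendsto (fun N : ℕ => L * (1 / ((N : ℝ) + 1))) atTop (𝓝 (L * 0)) :=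
      tendsto_one_div_add_atTop_nhds_zero_nat.const_mul L
    rw [mul_zero] at h5
    have h6 := ENNReal.tendsto_ofReal h5
    rwa [ENNReal.ofReal_zero] at h6
  exact le_antisymm (ge_of_tendsto' h4 h2) bot_le

/-- Separation of the points of a finite set. -/
lemma exists_sep (F : Finset ℂ) : ∃ ρ > 0, ∀ z ∈ F, ∀ w ∈ F, z ≠ w → ρ < dist z w := by
  rcases (F.offDiag).eq_empty_or_nonempty with h | h
  · refine ⟨1, one_pos, fun z hz w hw hzw => ?_⟩
    have : (z, w) ∈ F.offDiag := Finset.mem_offDiag.mpr ⟨hz, hw, hzw⟩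
    rw [h] at this
    exact absurd this (Finset.notMem_empty _)
  · obtain ⟨p, hp, hmin⟩ := F.offDiag.exists_min_image (fun q => dist q.1 q.2) h
    have hp' := Finset.mem_offDiag.mp hp
    have hpos : 0 < dist p.1 p.2 := dist_pos.mpr hp'.2.2
    refine ⟨dist p.1 p.2 / 2, by positivity, fun z hz w hw hzw => ?_⟩
    have := hmin (z, w) (Finset.mem_offDiag.mpr ⟨hz, hw, hzw⟩)
    simp only at this
    linarith

/-- Almost all fibres of a Lipschitz map on a set of finite length are finite. -/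
lemma finite_fiber (π : ℂ → ℝ) (hπ : ∀ z w, |π z - π w| ≤ ‖z - w‖) {E : Set ℂ}
    (hE : Measure.hausdorffMeasure 1 E ≠ ⊤) : ∀ᵐ u : ℝ, (E ∩ π ⁻¹' {u}).Finite := by
  classical
  set M : ENNReal := Measure.hausdorffMeasure 1 E with hM
  -- coverings
  have hcov : ∀ n : ℕ, ∃ t : ℕ → Set ℂ, E ⊆ ⋃ i, t i ∧
      (∀ i, Metric.ediam (t i) ≤ ENNReal.ofReal (1 / ((n : ℝ) + 1))) ∧
      ∑' i, ⨆ _ : (t i).Nonempty, Metric.ediam (t i) ^ (1 : ℝ) < M + 1 := by
    intro n
    have h1 := Measure.hausdorffMeasure_apply (1 : ℝ) E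
    have h2 : (⨅ (t : ℕ → Set ℂ) (_ : E ⊆ ⋃ n, t n)
        (_ : ∀ i, Metric.ediam (t i) ≤ ENNReal.ofReal (1 / ((n : ℝ) + 1))),
        ∑' i, ⨆ _ : (t i).Nonempty, Metric.ediam (t i) ^ (1 : ℝ)) < M + 1 := by
      refine lt_of_le_of_lt ?_ (ENNReal.lt_add_right hE one_ne_zero)
      rw [hM, h1]
      exact le_iSup₂_of_le (ENNReal.ofReal (1 / ((n : ℝ) + 1)))
        (ENNReal.ofReal_pos.mpr (by positivity)) le_rfl
    obtain ⟨t, h3⟩ := iInf_lt_iff.mp h2
    obtain ⟨h4, h5⟩ := iInf_lt_iff.mp h3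
    obtain ⟨h6, h7⟩ := iInf_lt_iff.mp h5
    exact ⟨t, h4, h6, h7⟩
  choose t ht1 ht2 ht3 using hcov
  -- the intervals
  let c : ℕ → ℕ → ℝ := fun n i => if h : (t n i).Nonempty then π h.some else 0
  let J : ℕ → ℕ → Set ℝ := fun n i => if (t n i).Nonempty then
    Icc (c n i - (Metric.ediam (t n i)).toReal) (c n i + (Metric.ediam (t n i)).toReal) else ∅
  have hfin : ∀ n i, Metric.ediam (t n i) ≠ ⊤ := fun n i =>
    ((ht2 n i).trans_lt ENNReal.ofReal_lt_top).ne
  have hJm : ∀ n i, MeasurableSet (J n i) := by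
    intro n i
    simp only [J]
    split_ifs
    · exact measurableSet_Icc
    · exact MeasurableSet.empty
  have hJv : ∀ n i, volume (J n i) ≤ 2 * ⨆ _ : (t n i).Nonempty, Metric.ediam (t n i) ^ (1 : ℝ) := by
    intro n i
    by_cases h : (t n i).Nonempty
    · simp only [J, h, if_true, iSup_pos, ENNReal.rpow_one]
      rw [Real.volume_Icc]
      have e : c n i + (Metric.ediam (t n i)).toReal - (c n i - (Metric.ediam (t n i)).toReal) =
          2 * (Metric.ediam (t n i)).toReal := by ring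
      rw [e, ENNReal.ofReal_mul (by norm_num), ENNReal.ofReal_toReal (hfin n i)]
      simp
    · simp only [J, h, if_false, measure_empty]
      exact bot_le
  have hJc : ∀ n i z, z ∈ t n i → π z ∈ J n i := by
    intro n i z hz
    have h : (t n i).Nonempty := ⟨z, hz⟩
    simp only [J, c, h, if_true, dite_true]
    have h1 : edist z h.some ≤ Metric.ediam (t n i) := Metric.edist_le_ediam_of_mem hz h.some_mem
    have h2 : ‖z - h.some‖ ≤ (Metric.ediam (t n i)).toReal := by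
      rw [← dist_eq_norm]
      have := ENNReal.toReal_mono (hfin n i) h1
      rwa [← dist_edist] at this
    have h3 := (hπ z h.some).trans h2
    rw [abs_le] at h3
    constructor <;> linarith [h3.1, h3.2]
  -- the counting functions
  let g : ℕ → ℝ → ENNReal := fun n u => ∑' i, (J n i).indicator (fun _ => (1 : ENNReal)) u
  have hgm : ∀ n, Measurable (g n) := fun n =>
    Measurable.tsum fun i => measurable_const.indicator (hJm n i)
  have hgi : ∀ n, ∫⁻ u, g n u ≤ 2 * (M + 1) := by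
    intro n
    simp only [g]
    rw [lintegral_tsum fun i => (measurable_const.indicator (hJm n i)).aemeasurable]
    calc ∑' i, ∫⁻ u, (J n i).indicator (fun _ => (1 : ENNReal)) u
        ≤ ∑' i, 2 * ⨆ _ : (t n i).Nonempty, Metric.ediam (t n i) ^ (1 : ℝ) := by
          refine ENNReal.tsum_le_tsum fun i => ?_
          rw [lintegral_indicator (hJm n i), setLIntegral_const, one_mul]
          exact hJv n i
      _ = 2 * ∑' i, ⨆ _ : (t n i).Nonempty, Metric.ediam (t n i) ^ (1 : ℝ) :=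
          ENNReal.tsum_mul_left
      _ ≤ 2 * (M + 1) := mul_le_mul' le_rfl (ht3 n).le
  have hlim : ∫⁻ u, liminf (fun n => g n u) atTop ≠ ⊤ := by
    have h4 : ∫⁻ u, liminf (fun n => g n u) atTop ≤ 2 * (M + 1) := by
      refine (lintegral_liminf_le hgm).trans ?_
      exact Filter.liminf_le_of_frequently_le' (Eventually.frequently (Eventually.of_forall hgi))
    exact (h4.trans_lt (ENNReal.mul_lt_top (by simp)
      (ENNReal.add_lt_top.mpr ⟨lt_top_iff_ne_top.mpr hE, by simp⟩))).ne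
  filter_upwards [ae_lt_top (Measurable.liminf hgm) hlim] with u hu
  by_contra hinf
  have hinf' : (E ∩ π ⁻¹' {u}).Infinite := hinf
  have hbig : ∀ N : ℕ, (N : ENNReal) ≤ liminf (fun n => g n u) atTop := by
    intro N
    obtain ⟨F, hF, hN⟩ := hinf'.exists_subset_card_eq N
    obtain ⟨ρ, hρ, hsep⟩ := exists_sep F
    refine Filter.le_liminf_of_le (by isBoundedDefault) ?_
    have hev : ∀ᶠ n : ℕ in atTop, 1 / ((n : ℝ) + 1) < ρ :=
      tendsto_one_div_add_atTop_nhds_zero_nat.eventually (gt_mem_nhds hρ)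
    filter_upwards [hev] with n hn
    have hex : ∀ z : ℂ, ∃ i, z ∈ F → z ∈ t n i := by
      intro z
      by_cases hz : z ∈ F
      · obtain ⟨i, hi⟩ := mem_iUnion.mp (ht1 n (hF hz).1)
        exact ⟨i, fun _ => hi⟩
      · exact ⟨0, fun h => absurd h hz⟩
    choose ι hι using hex
    have hinj : Set.InjOn ι (F : Set ℂ) := by
      intro z hz w hw hzw
      by_contra hne
      have h1 := hι z hz
      have h2 := hι w hw
      rw [← hzw] at h2
      have h3 : edist z w ≤ ENNReal.ofReal (1 / ((n : ℝ) + 1)) :=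
        (Metric.edist_le_ediam_of_mem h1 h2).trans (ht2 n _)
      have h4 : dist z w ≤ 1 / ((n : ℝ) + 1) := by
        rw [edist_dist] at h3
        exact (ENNReal.ofReal_le_ofReal_iff (by positivity)).mp h3
      have h5 := hsep z hz w hw hne
      linarith
    calc (N : ENNReal) = ∑ i ∈ F.image ι, (1 : ENNReal) := by
          rw [Finset.sum_const, Finset.card_image_of_injOn hinj, hN, nsmul_eq_mul, mul_one]
      _ ≤ ∑ i ∈ F.image ι, (J n i).indicator (fun _ => (1 : ENNReal)) u := by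
          refine Finset.sum_le_sum fun i hi => ?_
          obtain ⟨z, hz, rfl⟩ := Finset.mem_image.mp hi
          have h1 : π z ∈ J n (ι z) := hJc n (ι z) z (hι z hz)
          have h2 : π z = u := (hF hz).2
          rw [h2] at h1
          rw [indicator_of_mem h1]
      _ ≤ g n u := ENNReal.sum_le_tsum _
  have htop : liminf (fun n => g n u) atTop = ⊤ := by
    refine ENNReal.eq_top_of_forall_nnreal_le fun r => ?_
    obtain ⟨N, hN⟩ := exists_nat_ge r
    refine le_trans ?_ (hbig N)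
    exact_mod_cast hN
  exact hu.ne htop

/-- Slices of sets of sigma-finite length are countable. -/
lemma countable_h {S : Set ℂ} {T : ℕ → Set ℂ} (hST : S ⊆ ⋃ j, T j)
    (hT : ∀ j, Measure.hausdorffMeasure 1 (T j) ≠ ⊤) :
    ∀ᵐ u : ℝ, {a : ℝ | (a : ℂ) + (u : ℂ) * I ∈ S}.Countable := by
  have him : ∀ z w : ℂ, |z.im - w.im| ≤ ‖z - w‖ := fun z w => by
    rw [← Complex.sub_im]
    exact Complex.abs_im_le_norm _
  filter_upwards [ae_all_iff.mpr fun j => finite_fiber Complex.im him (hT j)] with u hu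
  have h1 : (⋃ j, T j ∩ Complex.im ⁻¹' {u}).Countable :=
    countable_iUnion fun j => (hu j).countable
  refine (h1.preimage_of_injOn (f := fun a : ℝ => (a : ℂ) + (u : ℂ) * I) ?_).mono ?_
  · intro a _ b _ hab
    have := congrArg Complex.re hab
    simpa using this
  · intro a ha
    obtain ⟨j, hj⟩ := mem_iUnion.mp (hST ha)
    exact mem_iUnion.mpr ⟨j, hj, by simp⟩

lemma countable_v {S : Set ℂ} {T : ℕ → Set ℂ} (hST : S ⊆ ⋃ j, T j)
    (hT : ∀ j, Measure.hausdorffMeasure 1 (T j) ≠ ⊤) :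
    ∀ᵐ u : ℝ, {b : ℝ | (u : ℂ) + (b : ℂ) * I ∈ S}.Countable := by
  have hre : ∀ z w : ℂ, |z.re - w.re| ≤ ‖z - w‖ := fun z w => by
    rw [← Complex.sub_re]
    exact Complex.abs_re_le_norm _
  filter_upwards [ae_all_iff.mpr fun j => finite_fiber Complex.re hre (hT j)] with u hu
  have h1 : (⋃ j, T j ∩ Complex.re ⁻¹' {u}).Countable :=
    countable_iUnion fun j => (hu j).countable
  refine (h1.preimage_of_injOn (f := fun b : ℝ => (u : ℂ) + (b : ℂ) * I) ?_).mono ?_
  · intro a _ b _ hab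
    have := congrArg Complex.im hab
    simpa using this
  · intro a ha
    obtain ⟨j, hj⟩ := mem_iUnion.mp (hST ha)
    exact mem_iUnion.mpr ⟨j, hj, by simp⟩

lemma Ah_countable (g : ℂ → ℝ) {S : Set ℂ} (u x y s t : ℝ)
    (hS : {a : ℝ | (a : ℂ) + (u : ℂ) * I ∈ S}.Countable)
    (h : Ah g (K \ S) u x y s t = 0) : Ah g K u x y s t = 0 := by
  by_cases hv : y ≤ u ∧ u < y + t
  · simp only [Ah, hv, if_true, and_self] at h ⊢
    refine measure_mono_null ?_ (measure_union_null h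
      ((hS.image fun a : ℝ => g ((a : ℂ) + (u : ℂ) * I)).measure_zero volume))
    rintro _ ⟨a, ⟨h1, h2⟩, rfl⟩
    by_cases hS' : (a : ℂ) + (u : ℂ) * I ∈ S
    · exact Or.inr ⟨a, hS', rfl⟩
    · exact Or.inl ⟨a, ⟨h1, h2, hS'⟩, rfl⟩
  · simp only [Ah, hv, if_false]

lemma Av_countable (g : ℂ → ℝ) {S : Set ℂ} (u x y s t : ℝ)
    (hS : {b : ℝ | (u : ℂ) + (b : ℂ) * I ∈ S}.Countable)
    (h : Av g (K \ S) u x y s t = 0) : Av g K u x y s t = 0 := by
  by_cases hv : x ≤ u ∧ u < x + s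
  · simp only [Av, hv, if_true, and_self] at h ⊢
    refine measure_mono_null ?_ (measure_union_null h
      ((hS.image fun b : ℝ => g ((u : ℂ) + (b : ℂ) * I)).measure_zero volume))
    rintro _ ⟨a, ⟨h1, h2⟩, rfl⟩
    by_cases hS' : (u : ℂ) + (a : ℂ) * I ∈ S
    · exact Or.inr ⟨a, hS', rfl⟩
    · exact Or.inl ⟨a, ⟨h1, h2, hS'⟩, rfl⟩
  · simp only [Av, hv, if_false]

/-- The criterion for homeomorphisms with pointwise slowly growing linear dilatation. -/
theorem criterion_pt (Λ : Set ℕ) (f : ℂ ≃ₜ ℂ) (hKc : IsClosed K)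
    (hK : DifferentiableOn ℂ (⇑f) Kᶜ) (v : ℕ → ℝ) (hv0 : ∀ n, 0 ≤ v n)
    (hv : ∀ n, volume (nb K (1 / 2 ^ n)) ≤ ENNReal.ofReal (v n)) (L : ℝ)
    (hL : ∃ᶠ n : ℕ in atTop, n ∈ Λ ∧ (n : ℝ) * v n ≤ L) (S : Set ℂ)
    (hS1 : ∀ᵐ u : ℝ, {a : ℝ | (a : ℂ) + (u : ℂ) * I ∈ S}.Countable)
    (hS2 : ∀ᵐ u : ℝ, {b : ℝ | (u : ℂ) + (b : ℂ) * I ∈ S}.Countable)
    (hpt : ∀ x ∈ K \ S, DilSc Λ (⇑f) x) : Differentiable ℂ (⇑f) := by
  refine differentiable_of_bd f.continuous fun x y s t hs ht => ?_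
  have hf := f.continuous
  have hcc : Continuous cc := by unfold cc; fun_prop
  -- null sets
  have hnull : (volume.prod volume) (cc ⁻¹' K) = 0 := by
    rw [← Measure.volume_eq_prod]
    exact null_plane v hv0 hv L (hL.mono fun n hn => hn.2)
  have hmeas : MeasurableSet (cc ⁻¹' K) := (hKc.preimage hcc).measurableSet
  have n1 : ∀ᵐ a : ℝ, volume (Prod.mk a ⁻¹' (cc ⁻¹' K)) = 0 :=
    (Measure.measure_prod_null hmeas).mp hnull
  have n2 : ∀ᵐ u : ℝ, volume ((fun a : ℝ => (a, u)) ⁻¹' (cc ⁻¹' K)) = 0 := by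
    have h1 : (volume.prod volume) (Prod.swap ⁻¹' (cc ⁻¹' K) : Set (ℝ × ℝ)) = 0 := by
      rw [Measure.measurePreserving_swap.measure_preimage hmeas.nullMeasurableSet]
      exact hnull
    exact (Measure.measure_prod_null (hmeas.preimage measurable_swap)).mp h1
  -- null images
  have hre : ∀ z w : ℂ, |z.re - w.re| ≤ ‖z - w‖ := fun z w => by
    rw [← Complex.sub_re]
    exact Complex.abs_re_le_norm _
  have him : ∀ z w : ℂ, |z.im - w.im| ≤ ‖z - w‖ := fun z w => by
    rw [← Complex.sub_im]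
    exact Complex.abs_im_le_norm _
  obtain ⟨r1, r2⟩ := null_slices Λ f (K \ S) sdiff_subset hpt v hv0 hv L hL Complex.re hre x y
    (s + 1) (t + 1) (by linarith) (by linarith)
  obtain ⟨i1, i2⟩ := null_slices Λ f (K \ S) sdiff_subset hpt v hv0 hv L hL Complex.im him x y
    (s + 1) (t + 1) (by linarith) (by linarith)
  -- integrability
  set G : ℝ × ℝ → ℂ := fun p => Df (⇑f) K (cc p) with hG
  have hint : Integrable G ((volume.restrict (Icc x (x + s))).prod
      (volume.restrict (Icc y (y + t)))) := by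
    rw [Measure.prod_restrict, ← Measure.volume_eq_prod]
    exact integrableOn_Df_rect f hKc hK x (x + s) y (y + t)
  have g1 := hint.prod_right_ae
  have g2 := hint.prod_left_ae
  have hder : ∀ z, z ∉ K → HasDerivAt (⇑f) (Df (⇑f) K z) z := fun z hz => by
    rw [Df_of_notMem hz]
    exact (hK.differentiableAt (hKc.isOpen_compl.mem_nhds hz)).hasDerivAt
  -- horizontal lines
  have H : ∀ᵐ u ∂(volume.restrict (Icc y (y + t))), ∫ a in Icc x (x + s), G (a, u) =
      f (((x + s : ℝ) : ℂ) + (u : ℂ) * I) - f ((x : ℂ) + (u : ℂ) * I) := by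
    filter_upwards [g2, ae_restrict_of_ae n2, ae_restrict_of_ae r1, ae_restrict_of_ae i1,
      ae_restrict_mem measurableSet_Icc, ae_restrict_of_ae hS1] with u hu1 hu2 hu3 hu4 hu5 hu7
    have hu6 : y ≤ u ∧ u < y + (t + 1) := ⟨hu5.1, by linarith [hu5.2]⟩
    have hu3' := Ah_countable _ _ _ _ _ _ hu7 hu3
    have hu4' := Ah_countable _ _ _ _ _ _ hu7 hu4
    simp only [Ah, hu6, if_true, and_self] at hu3' hu4'
    have hcl : IsClosed {a : ℝ | (a : ℂ) + (u : ℂ) * I ∈ K} :=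
      hKc.preimage (by fun_prop : Continuous fun a : ℝ => (a : ℂ) + (u : ℂ) * I)
    have hsub : {a : ℝ | (a : ℂ) + (u : ℂ) * I ∈ K} ∩ Icc x (x + s) ⊆
        {a | (x ≤ a ∧ a < x + (s + 1)) ∧ (a : ℂ) + (u : ℂ) * I ∈ K} := by
      rintro a ⟨h1, h2, h3⟩
      exact ⟨⟨h2, by linarith⟩, h1⟩
    have h1 := line_ftc_complex (fun a : ℝ => f ((a : ℂ) + (u : ℂ) * I)) (fun a => G (a, u))
      (by fun_prop) {a : ℝ | (a : ℂ) + (u : ℂ) * I ∈ K} hcl x (x + s) (by linarith)
      (measure_mono_null inter_subset_left hu2) ?_ hu1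
      (measure_mono_null (image_mono hsub) hu3') (measure_mono_null (image_mono hsub) hu4')
    · rw [intervalIntegral.integral_of_le (by linarith), ← integral_Icc_eq_integral_Ioc] at h1
      exact h1
    · intro a ha
      exact ((hder _ ha).comp_add_const (a : ℂ) ((u : ℂ) * I)).comp_ofReal
  -- vertical lines
  have V : ∀ᵐ a ∂(volume.restrict (Icc x (x + s))), ∫ b in Icc y (y + t), G (a, b) * I =
      f ((a : ℂ) + ((y + t : ℝ) : ℂ) * I) - f ((a : ℂ) + (y : ℂ) * I) := by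
    filter_upwards [g1, ae_restrict_of_ae n1, ae_restrict_of_ae r2, ae_restrict_of_ae i2,
      ae_restrict_mem measurableSet_Icc, ae_restrict_of_ae hS2] with u hu1 hu2 hu3 hu4 hu5 hu7
    have hu6 : x ≤ u ∧ u < x + (s + 1) := ⟨hu5.1, by linarith [hu5.2]⟩
    have hu3' := Av_countable _ _ _ _ _ _ hu7 hu3
    have hu4' := Av_countable _ _ _ _ _ _ hu7 hu4
    simp only [Av, hu6, if_true, and_self] at hu3' hu4'
    have hcl : IsClosed {b : ℝ | (u : ℂ) + (b : ℂ) * I ∈ K} :=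
      hKc.preimage (by fun_prop : Continuous fun b : ℝ => (u : ℂ) + (b : ℂ) * I)
    have hsub : {b : ℝ | (u : ℂ) + (b : ℂ) * I ∈ K} ∩ Icc y (y + t) ⊆
        {b | (y ≤ b ∧ b < y + (t + 1)) ∧ (u : ℂ) + (b : ℂ) * I ∈ K} := by
      rintro a ⟨h1, h2, h3⟩
      exact ⟨⟨h2, by linarith⟩, h1⟩
    have h1 := line_ftc_complex (fun b : ℝ => f ((u : ℂ) + (b : ℂ) * I)) (fun b => G (u, b) * I)
      (by fun_prop) {b : ℝ | (u : ℂ) + (b : ℂ) * I ∈ K} hcl y (y + t) (by linarith)
      (measure_mono_null inter_subset_left hu2) ?_ (hu1.mul_const I)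
      (measure_mono_null (image_mono hsub) hu3') (measure_mono_null (image_mono hsub) hu4')
    · rw [intervalIntegral.integral_of_le (by linarith), ← integral_Icc_eq_integral_Ioc] at h1
      exact h1
    · intro b hb
      have h2 : HasDerivAt (fun w : ℂ => (u : ℂ) + w * I) I (b : ℂ) := by
        simpa using ((hasDerivAt_id (b : ℂ)).mul_const I).const_add (u : ℂ)
      exact (HasDerivAt.comp (b : ℂ) (hder _ hb) h2).comp_ofReal
  -- conclusion
  have sw := integral_integral_swap (f := fun a b => G (a, b)) hint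
  have e1 : ∫ a in Icc x (x + s), (f ((a : ℂ) + ((y + t : ℝ) : ℂ) * I) -
      f ((a : ℂ) + (y : ℂ) * I)) = (∫ a in Icc x (x + s), ∫ b in Icc y (y + t), G (a, b)) * I := by
    rw [← integral_mul_const]
    refine integral_congr_ae ?_
    filter_upwards [V] with a ha
    rw [← ha, integral_mul_const]
  have e2 : ∫ u in Icc y (y + t), (f (((x + s : ℝ) : ℂ) + (u : ℂ) * I) -
      f ((x : ℂ) + (u : ℂ) * I)) = ∫ u in Icc y (y + t), ∫ a in Icc x (x + s), G (a, u) := by
    refine integral_congr_ae ?_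
    filter_upwards [H] with a ha
    exact ha.symm
  have e : bd (⇑f) x y s t =
      -(∫ a in x..(x + s), (f ((a : ℂ) + ((y + t : ℝ) : ℂ) * I) - f ((a : ℂ) + (y : ℂ) * I))) +
      I * (∫ u in y..(y + t), (f (((x + s : ℝ) : ℂ) + (u : ℂ) * I) -
        f ((x : ℂ) + (u : ℂ) * I))) := by
    rw [intervalIntegral.integral_sub (ii_h hf (y + t) _ _) (ii_h hf y _ _),
      intervalIntegral.integral_sub (ii_v hf (x + s) _ _) (ii_v hf x _ _)]
    unfold bd
    ring
  rw [e, intervalIntegral.integral_of_le (by linarith), intervalIntegral.integral_of_le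
    (by linarith), ← integral_Icc_eq_integral_Ioc, ← integral_Icc_eq_integral_Ioc, e1, e2]
  have sw' : ∫ a in Icc x (x + s), ∫ b in Icc y (y + t), G (a, b) =
      ∫ u in Icc y (y + t), ∫ a in Icc x (x + s), G (a, u) := sw
  rw [sw']
  ring

/-- Small area at infinitely many of the prescribed scales. -/
theorem AreaBd.ae_sc {Ω : Type} [MeasurableSpace Ω] {P : Measure Ω} {K : Ω → Set ℂ}
    (h : AreaBd P K) (hK : ∀ ω, IsCompact (K ω)) (Λ : Set ℕ) (hΛ : Λ.Infinite) :
    ∀ᵐ ω ∂P, ∃ (v : ℕ → ℝ) (L : ℝ), (∀ n, 0 ≤ v n) ∧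
      (∀ n, volume (nb (K ω) (1 / 2 ^ n)) ≤ ENNReal.ofReal (v n)) ∧
      ∃ᶠ n : ℕ in atTop, n ∈ Λ ∧ (n : ℝ) * v n ≤ L := by
  obtain ⟨C, hC, W, h1, h2, h3⟩ := h
  obtain ⟨φ, hφ, hφΛ⟩ := Filter.extraction_of_frequently_atTop
    (Nat.frequently_atTop_iff_infinite.mpr hΛ)
  have hHm : ∀ k, AEMeasurable (fun ω => (φ k : ENNReal) * W (φ k) ω) P := fun k =>
    (h1 (φ k)).const_mul _
  have hHi : ∀ k, ∫⁻ ω, (φ k : ENNReal) * W (φ k) ω ∂P ≤ C := fun k => by
    rw [lintegral_const_mul'' _ (h1 (φ k))]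
    exact h2 (φ k)
  have hlim : ∫⁻ ω, liminf (fun k => (φ k : ENNReal) * W (φ k) ω) atTop ∂P ≠ ⊤ := by
    have h4 : ∫⁻ ω, liminf (fun k => (φ k : ENNReal) * W (φ k) ω) atTop ∂P ≤ C := by
      refine (lintegral_liminf_le' hHm).trans ?_
      exact Filter.liminf_le_of_frequently_le' (Eventually.frequently (Eventually.of_forall hHi))
    exact (h4.trans_lt hC.lt_top).ne
  have hae := ae_lt_top' (aemeasurable_liminf hHm) hlim
  filter_upwards [hae] with ω hω
  obtain ⟨l, hl1, -⟩ := ENNReal.lt_iff_exists_nnreal_btwn.mp hω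
  have hfr : ∃ᶠ k in atTop, (φ k : ENNReal) * W (φ k) ω < l :=
    Filter.frequently_lt_of_liminf_lt (by isBoundedDefault) hl1
  have hfin : ∀ n : ℕ, volume (nb (K ω) (1 / 2 ^ n)) ≠ ⊤ := fun n => vol_nb_ne_top (hK ω) _
  refine ⟨fun n => (volume (nb (K ω) (1 / 2 ^ n))).toReal, l, fun n => ENNReal.toReal_nonneg,
    fun n => le_of_eq (ENNReal.ofReal_toReal (hfin n)).symm, ?_⟩
  refine hφ.tendsto_atTop.frequently ?_
  refine (hfr.and_eventually (hφ.tendsto_atTop.eventually (eventually_ge_atTop 2))).mono ?_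
  rintro k ⟨hk1, hk2⟩
  refine ⟨hφΛ k, ?_⟩
  have b1 : (φ k : ENNReal) * volume (nb (K ω) (1 / 2 ^ (φ k))) ≤ l :=
    (mul_le_mul' le_rfl (h3 ω (φ k) hk2)).trans hk1.le
  have b2 := ENNReal.toReal_mono ENNReal.coe_ne_top b1
  rwa [ENNReal.toReal_mul, ENNReal.toReal_natCast, ENNReal.coe_toReal] at b2

/-- Almost surely, every homeomorphism of the plane which is holomorphic off the Brownian trace and
has linear dilatation `o(√N)` at the prescribed scales `2 ^ (-N)` and at the points of the trace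
off a set of sigma-finite length is holomorphic. -/
theorem IsPBM.pt {Ω : Type} [MeasurableSpace Ω] {P : Measure Ω} {B : ℝ → Ω → ℂ}
    [IsProbabilityMeasure P] (h : IsPBM P B) (Λ : Set ℕ) (hΛ : Λ.Infinite) :
    ∀ᵐ ω ∂P, ∀ f : ℂ ≃ₜ ℂ, DifferentiableOn ℂ (⇑f) ((fun t => B t ω) '' Set.Icc (0 : ℝ) 1)ᶜ →
      ∀ T : ℕ → Set ℂ, (∀ j, Measure.hausdorffMeasure 1 (T j) ≠ ⊤) →
      (∀ x ∈ ((fun t => B t ω) '' Set.Icc (0 : ℝ) 1) \ ⋃ j, T j, DilSc Λ (⇑f) x) →
        Differentiable ℂ (⇑f) := by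
  have hK : ∀ ω, IsCompact ((fun t => B t ω) '' Set.Icc (0 : ℝ) 1) := fun ω =>
    isCompact_Icc.image (h.cont ω)
  filter_upwards [h.areaBd.ae_sc hK Λ hΛ] with ω hω
  obtain ⟨v, L, h1, h2, h3⟩ := hω
  intro f hf T hT hp
  exact criterion_pt Λ f (hK ω).isClosed hf v h1 h2 L h3 (⋃ j, T j)
    (countable_h subset_rfl hT) (countable_v subset_rfl hT) hp

end Pool.Agent.BMR
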