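import Pool.Agent.Lib.BMR.Univ

/-!
Conformal removability: monotonicity, affine invariance, and analyticity of the set of sequences
whose closure is not removable.
-/

open MeasureTheory Set Filter Topology

namespace Pool.Agent.BMR

/-- A set is (conformally) removable when every homeomorphism of the plane which is holomorphic
off the set is holomorphic. -/
def Removable (K : Set ℂ) : Prop :=
  ∀ f : ℂ ≃ₜ ℂ, DifferentiableOn ℂ (⇑f) Kᶜ → Differentiable ℂ (⇑f)

lemma Removable.mono {K L : Set ℂ} (h : K ⊆ L) (hL : Removable L) : Removable K :=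
  fun f hf => hL f (hf.mono (compl_subset_compl.mpr h))

/-- The affine homeomorphism `z ↦ a z + b`. -/
noncomputable def aff (a b : ℂ) (ha : a ≠ 0) : ℂ ≃ₜ ℂ where
  toFun z := a * z + b
  invFun z := a⁻¹ * (z - b)
  left_inv z := by field_simp; ring
  right_inv z := by field_simp; ring
  continuous_toFun := by fun_prop
  continuous_invFun := by fun_prop

lemma removable_aff {K : Set ℂ} (a b : ℂ) (ha : a ≠ 0) (hK : Removable ((fun z => a * z + b) '' K)) :
    Removable K := by
  intro f hf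
  -- g = f ∘ (z ↦ a⁻¹ (z - b))
  have h1 : DifferentiableOn ℂ (⇑((aff a b ha).symm.trans f)) ((fun z => a * z + b) '' K)ᶜ := by
    have h2 : DifferentiableOn ℂ (fun z : ℂ => a⁻¹ * (z - b)) ((fun z => a * z + b) '' K)ᶜ := by
      fun_prop
    refine (hf.comp h2 ?_)
    intro z hz hzK
    apply hz
    refine ⟨a⁻¹ * (z - b), hzK, ?_⟩
    simp only
    field_simp
    ring
  have h3 := hK _ h1
  have h4 : (⇑f) = (⇑((aff a b ha).symm.trans f)) ∘ (fun z : ℂ => a * z + b) := by
    ext z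
    have h5 : (aff a b ha).symm (a * z + b) = z := (aff a b ha).symm_apply_apply z
    simp [h5]
  rw [h4]
  exact h3.comp (by fun_prop)

lemma removable_aff_iff {K : Set ℂ} (a b : ℂ) (ha : a ≠ 0) :
    Removable ((fun z => a * z + b) '' K) ↔ Removable K := by
  refine ⟨removable_aff a b ha, fun h => ?_⟩
  refine removable_aff (a⁻¹) (-(a⁻¹ * b)) (inv_ne_zero ha) ?_
  rw [image_image]
  have : (fun x : ℂ => a⁻¹ * (a * x + b) + -(a⁻¹ * b)) = id := by
    ext x
    simp only [id]
    field_simp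
    ring
  rwa [this, image_id]

/-- The entire functions are closed among the continuous functions. -/
lemma isClosed_diffOn (U : Set ℂ) (hU : IsOpen U) :
    IsClosed {f : C(ℂ, ℂ) | DifferentiableOn ℂ (⇑f) U} := by
  apply IsSeqClosed.isClosed
  intro u f hu hlim
  have h1 : TendstoLocallyUniformlyOn (fun n => ⇑(u n)) (⇑f) atTop U := by
    have := ContinuousMap.tendsto_iff_tendstoLocallyUniformly.mp hlim
    exact (tendstoLocallyUniformlyOn_univ.mpr this).mono (subset_univ _)
  exact h1.differentiableOn (Eventually.of_forall hu) hU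

/-- The graph of non removability. -/
def graphSet : Set ((ℕ → ℂ) × (C(ℂ, ℂ) × C(ℂ, ℂ))) :=
  {p | p.2.1.comp p.2.2 = ContinuousMap.id ℂ ∧ p.2.2.comp p.2.1 = ContinuousMap.id ℂ ∧
    DifferentiableOn ℂ (⇑p.2.1) (closure (range p.1))ᶜ ∧ ¬ Differentiable ℂ (⇑p.2.1)}

lemma diffOn_iff (x : ℕ → ℂ) (f : ℂ → ℂ) :
    DifferentiableOn ℂ f (closure (range x))ᶜ ↔
      ∀ q : ℕ × ℕ, (∃ i, x i ∈ Metric.ball (TopologicalSpace.denseSeq ℂ q.1) (1 / (q.2 + 1 : ℝ))) ∨
        DifferentiableOn ℂ f (Metric.ball (TopologicalSpace.denseSeq ℂ q.1) (1 / (q.2 + 1 : ℝ))) := by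
  constructor
  · intro h q
    by_cases hq : ∃ i, x i ∈ Metric.ball (TopologicalSpace.denseSeq ℂ q.1) (1 / (q.2 + 1 : ℝ))
    · exact Or.inl hq
    · right
      refine h.mono ?_
      intro z hz hzc
      rw [mem_closure_iff] at hzc
      obtain ⟨w, hw, i, rfl⟩ := hzc _ Metric.isOpen_ball hz
      exact hq ⟨i, hw⟩
  · intro h z hz
    -- a ball around z free of the sequence
    have hopen : IsOpen (closure (range x))ᶜ := isClosed_closure.isOpen_compl
    obtain ⟨ε, hε, hball⟩ := Metric.isOpen_iff.mp hopen z hz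
    obtain ⟨n, hn⟩ := exists_nat_one_div_lt (half_pos hε)
    have hpos : (0 : ℝ) < 1 / (n + 1 : ℝ) := by positivity
    obtain ⟨m, hy⟩ := (TopologicalSpace.denseRange_denseSeq ℂ).exists_mem_open
      Metric.isOpen_ball ⟨z, Metric.mem_ball_self hpos⟩
    rcases h (m, n) with ⟨i, hi⟩ | h2
    · exfalso
      have h3 : x i ∈ Metric.ball z ε := by
        rw [Metric.mem_ball] at hi hy ⊢
        have h4 := dist_triangle (x i) (TopologicalSpace.denseSeq ℂ m) z
        simp only at hi
        linarith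
      exact hball h3 (subset_closure ⟨i, rfl⟩)
    · refine (h2.differentiableAt (Metric.isOpen_ball.mem_nhds ?_)).differentiableWithinAt
      rw [Metric.mem_ball] at hy ⊢
      rw [dist_comm]
      exact hy

lemma measurableSet_graphSet [MeasurableSpace ((ℕ → ℂ) × (C(ℂ, ℂ) × C(ℂ, ℂ)))]
    [BorelSpace ((ℕ → ℂ) × (C(ℂ, ℂ) × C(ℂ, ℂ)))] : MeasurableSet graphSet := by
  have h1 : IsClosed {p : (ℕ → ℂ) × (C(ℂ, ℂ) × C(ℂ, ℂ)) |
      p.2.1.comp p.2.2 = ContinuousMap.id ℂ} :=
    isClosed_eq ((continuous_fst.comp continuous_snd).compCM (continuous_snd.comp continuous_snd))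
      continuous_const
  have h2 : IsClosed {p : (ℕ → ℂ) × (C(ℂ, ℂ) × C(ℂ, ℂ)) |
      p.2.2.comp p.2.1 = ContinuousMap.id ℂ} :=
    isClosed_eq ((continuous_snd.comp continuous_snd).compCM (continuous_fst.comp continuous_snd))
      continuous_const
  have h3 : MeasurableSet {p : (ℕ → ℂ) × (C(ℂ, ℂ) × C(ℂ, ℂ)) |
      DifferentiableOn ℂ (⇑p.2.1) (closure (range p.1))ᶜ} := by
    have : {p : (ℕ → ℂ) × (C(ℂ, ℂ) × C(ℂ, ℂ)) |
        DifferentiableOn ℂ (⇑p.2.1) (closure (range p.1))ᶜ} =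
        ⋂ q : ℕ × ℕ, ((⋃ i : ℕ, {p : (ℕ → ℂ) × (C(ℂ, ℂ) × C(ℂ, ℂ)) |
          p.1 i ∈ Metric.ball (TopologicalSpace.denseSeq ℂ q.1) (1 / (q.2 + 1 : ℝ))}) ∪
          {p : (ℕ → ℂ) × (C(ℂ, ℂ) × C(ℂ, ℂ)) | DifferentiableOn ℂ (⇑p.2.1)
            (Metric.ball (TopologicalSpace.denseSeq ℂ q.1) (1 / (q.2 + 1 : ℝ)))}) := by
      ext p
      simp only [Set.mem_ofPred_eq, mem_iInter, mem_union, mem_iUnion]
      exact diffOn_iff p.1 p.2.1
    rw [this]
    refine MeasurableSet.iInter fun q => MeasurableSet.union ?_ ?_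
    · refine IsOpen.measurableSet (isOpen_iUnion fun i => ?_)
      exact Metric.isOpen_ball.preimage ((continuous_apply i).comp continuous_fst)
    · refine IsClosed.measurableSet ?_
      exact (isClosed_diffOn _ Metric.isOpen_ball).preimage (continuous_fst.comp continuous_snd)
  have h4 : MeasurableSet {p : (ℕ → ℂ) × (C(ℂ, ℂ) × C(ℂ, ℂ)) |
      ¬ Differentiable ℂ (⇑p.2.1)} := by
    have h5 : IsClosed {p : (ℕ → ℂ) × (C(ℂ, ℂ) × C(ℂ, ℂ)) | DifferentiableOn ℂ (⇑p.2.1) univ} :=
      (isClosed_diffOn _ isOpen_univ).preimage (continuous_fst.comp continuous_snd)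
    have h6 : {p : (ℕ → ℂ) × (C(ℂ, ℂ) × C(ℂ, ℂ)) | ¬ Differentiable ℂ (⇑p.2.1)} =
        {p : (ℕ → ℂ) × (C(ℂ, ℂ) × C(ℂ, ℂ)) | DifferentiableOn ℂ (⇑p.2.1) univ}ᶜ := by
      ext p
      simp [differentiableOn_univ]
    rw [h6]
    exact h5.measurableSet.compl
  exact h1.measurableSet.inter (h2.measurableSet.inter (h3.inter h4))

/-- The sequences whose closure is not removable. -/
def nonRem : Set (ℕ → ℂ) := {x | ¬ Removable (closure (range x))}

lemma nonRem_eq : nonRem = Prod.fst '' graphSet := by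
  ext x
  simp only [nonRem, graphSet, mem_image, Set.mem_ofPred_eq, Prod.exists]
  constructor
  · intro h
    simp only [Removable, not_forall] at h
    obtain ⟨f, hf, hn⟩ := h
    refine ⟨x, ⟨f, f.continuous⟩, ⟨f.symm, f.symm.continuous⟩, ⟨?_, ?_, hf, hn⟩, rfl⟩
    · ext z
      simp
    · ext z
      simp
  · rintro ⟨y, f, g, ⟨h1, h2, h3, h4⟩, rfl⟩ hrem
    apply h4
    have := hrem ⟨⟨f, g, fun z => by
      have := congrArg (fun u : C(ℂ, ℂ) => u z) h2
      simpa using this, fun z => by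
      have := congrArg (fun u : C(ℂ, ℂ) => u z) h1
      simpa using this⟩, f.continuous, g.continuous⟩ h3
    exact this

/-- The set of sequences with a non removable closure is analytic. -/
theorem analyticSet_nonRem : AnalyticSet nonRem := by
  rw [nonRem_eq]
  borelize ((ℕ → ℂ) × (C(ℂ, ℂ) × C(ℂ, ℂ)))
  exact (measurableSet_graphSet.analyticSet).image_of_continuous continuous_fst

/-- It is universally measurable. -/
theorem nullMeasurableSet_nonRem (μ : Measure (ℕ → ℂ)) [IsFiniteMeasure μ] :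
    NullMeasurableSet nonRem μ :=
  nullMeasurableSet_of_analyticSet μ analyticSet_nonRem

end Pool.Agent.BMR
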