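import Pool.Agent.Lib.BMR.Law

/-!
Scaling and the independence of the two halves of a planar Brownian motion.
-/

open MeasureTheory Set Filter Topology ProbabilityTheory

namespace Pool.Agent.BMR

set_option linter.unusedSectionVars false

variable {Ω : Type} [MeasurableSpace Ω] {P : Measure Ω} {B : ℝ → Ω → ℂ}

/-- The rescaled increment process on `[s,t]`. -/
noncomputable def seg (B : ℝ → Ω → ℂ) (s t : ℝ) (u : ℝ) (ω : Ω) : ℂ :=
  (((Real.sqrt (t - s))⁻¹ : ℝ) : ℂ) * (B (s + u * (t - s)) ω - B s ω)

lemma seg_re (s t u : ℝ) (ω : Ω) :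
    (seg B s t u ω).re = (Real.sqrt (t - s))⁻¹ * ((B (s + u * (t - s)) ω).re - (B s ω).re) := by
  unfold seg
  rw [Complex.re_ofReal_mul, Complex.sub_re]

lemma seg_im (s t u : ℝ) (ω : Ω) :
    (seg B s t u ω).im = (Real.sqrt (t - s))⁻¹ * ((B (s + u * (t - s)) ω).im - (B s ω).im) := by
  unfold seg
  rw [Complex.im_ofReal_mul, Complex.sub_im]

/-- The rescaled increment process is a planar Brownian motion. -/
theorem IsPBM.isPBM_seg (h : IsPBM P B) {s t : ℝ} (hs : 0 ≤ s) (hst : s < t) (ht : t ≤ 1) :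
    IsPBM P (seg B s t) where
  zero ω := by simp [seg]
  cont ω := by
    unfold seg
    have h1 : Continuous fun u : ℝ => B (s + u * (t - s)) ω :=
      (h.cont ω).comp (by fun_prop)
    exact continuous_const.mul (h1.sub continuous_const)
  law n u a b hu := by
    have hd : 0 < t - s := sub_pos.mpr hst
    set r := (Real.sqrt (t - s))⁻¹ with hr
    have hr2 : r * r * (t - s) = 1 := by
      have h1 : Real.sqrt (t - s) * Real.sqrt (t - s) = t - s := Real.mul_self_sqrt hd.le
      have h2 : Real.sqrt (t - s) ≠ 0 := (Real.sqrt_pos.mpr hd).ne'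
      have h3 : r * Real.sqrt (t - s) = 1 := inv_mul_cancel₀ h2
      calc r * r * (t - s) = (r * Real.sqrt (t - s)) * (r * Real.sqrt (t - s)) := by
            rw [← h1]
            rw [Real.sqrt_mul_self (Real.sqrt_nonneg _)]
            ring
        _ = 1 := by rw [h3, one_mul]
    let τ : Option (Fin n) → ℝ := fun o => o.elim s fun i => s + u i * (t - s)
    let α : Option (Fin n) → ℝ := fun o => o.elim (-(r * ∑ i, a i)) fun i => r * a i
    let β : Option (Fin n) → ℝ := fun o => o.elim (-(r * ∑ i, b i)) fun i => r * b i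
    let g : Option (Fin n) → Option (Fin n) → ℝ := fun o o' =>
      o.elim 0 fun i => o'.elim 0 fun j => min (u i) (u j)
    have hτ : ∀ o, τ o ∈ Set.Icc (0 : ℝ) 1 := by
      rintro (_ | i)
      · exact ⟨hs, hst.le.trans ht⟩
      · have h1 := hu i
        refine ⟨add_nonneg hs (mul_nonneg h1.1 hd.le), ?_⟩
        have h2 : u i * (t - s) ≤ 1 * (t - s) := mul_le_mul_of_nonneg_right h1.2 hd.le
        change s + u i * (t - s) ≤ 1
        linarith
    have h0 := h.map_lin τ α β hτ
    have h1 : (fun ω => ∑ o, (α o * (B (τ o) ω).re + β o * (B (τ o) ω).im)) =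
        fun ω => ∑ i, (a i * (seg B s t (u i) ω).re + b i * (seg B s t (u i) ω).im) := by
      ext ω
      rw [Fintype.sum_option]
      simp only [τ, α, β, Option.elim, seg_re, seg_im, ← hr]
      rw [neg_mul, neg_mul, Finset.mul_sum, Finset.mul_sum, Finset.sum_mul, Finset.sum_mul,
        ← neg_add, ← Finset.sum_add_distrib, ← sub_eq_neg_add, ← Finset.sum_sub_distrib]
      refine Finset.sum_congr rfl fun i _ => ?_
      ring
    have hm : ∀ o o', min (τ o) (τ o') = s + (t - s) * g o o' := by
      have hle : ∀ i, s ≤ s + u i * (t - s) := fun i => by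
        have := mul_nonneg (hu i).1 hd.le
        linarith
      rintro (_ | i) (_ | j)
      · simp [τ, g]
      · simp only [τ, g, Option.elim, mul_zero, add_zero]
        exact min_eq_left (hle j)
      · simp only [τ, g, Option.elim, mul_zero, add_zero]
        exact min_eq_right (hle i)
      · simp only [τ, g, Option.elim]
        rw [min_add_add_left, ← min_mul_of_nonneg _ _ hd.le]
        ring
    have hα : ∑ o, α o = 0 := by
      rw [Fintype.sum_option]
      simp only [α, Option.elim, Finset.mul_sum]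
      ring
    have hβ : ∑ o, β o = 0 := by
      rw [Fintype.sum_option]
      simp only [β, Option.elim, Finset.mul_sum]
      ring
    have h2 : ∑ o, ∑ o', (α o * α o' + β o * β o') * min (τ o) (τ o') =
        ∑ i, ∑ j, (a i * a j + b i * b j) * min (u i) (u j) := by
      have e1 : ∑ o, ∑ o', (α o * α o' + β o * β o') * min (τ o) (τ o') =
          s * ((∑ o, α o) * (∑ o, α o) + (∑ o, β o) * (∑ o, β o)) +
          ∑ o, ∑ o', (α o * α o' + β o * β o') * ((t - s) * g o o') := by
        rw [Finset.sum_mul_sum, Finset.sum_mul_sum, ← Finset.sum_add_distrib, Finset.mul_sum,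
          ← Finset.sum_add_distrib]
        refine Finset.sum_congr rfl fun o _ => ?_
        rw [← Finset.sum_add_distrib, Finset.mul_sum, ← Finset.sum_add_distrib]
        refine Finset.sum_congr rfl fun o' _ => ?_
        rw [hm]
        ring
      rw [e1, hα, hβ, Fintype.sum_option]
      have e2 : ∑ o', (α none * α o' + β none * β o') * ((t - s) * g none o') = 0 :=
        Finset.sum_eq_zero fun o' _ => by simp [g]
      rw [e2]
      simp only [mul_zero, add_zero, zero_add]
      refine Finset.sum_congr rfl fun i _ => ?_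
      rw [Fintype.sum_option]
      have e3 : (α (some i) * α none + β (some i) * β none) * ((t - s) * g (some i) none) = 0 := by
        simp [g]
      rw [e3, zero_add]
      refine Finset.sum_congr rfl fun j _ => ?_
      simp only [α, β, g, Option.elim]
      calc (r * a i * (r * a j) + r * b i * (r * b j)) * ((t - s) * min (u i) (u j)) =
            (r * r * (t - s)) * ((a i * a j + b i * b j) * min (u i) (u j)) := by ring
        _ = _ := by rw [hr2, one_mul]
    rw [h1, h2] at h0
    exact h0

/-- Variance of a coordinate. -/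
lemma IsPBM.var_co (h : IsPBM P B) (p : ℝ × Bool) (hp : p.1 ∈ Set.Icc (0 : ℝ) 1) :
    Var[co B p; P] = p.1 := by
  have h1 := h.map_co (ι := Unit) (fun _ => p) (fun _ => 1) (fun _ => hp)
  simp only [Finset.univ_unique, Finset.sum_const, Finset.card_singleton, one_smul, one_mul] at h1
  have h2 : P.map (co B p) = gaussianReal 0 (qv (ι := Unit) (fun _ => p) (fun _ => 1)).toNNReal := h1
  have h3 : HasLaw (co B p) (gaussianReal 0 (qv (ι := Unit) (fun _ => p) (fun _ => 1)).toNNReal) P :=
    ⟨h.aemeasurable_co p hp, h2⟩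
  rw [h3.variance_eq, variance_id_gaussianReal]
  have h4 : qv (ι := Unit) (fun _ => p) (fun _ => 1) = p.1 := by
    unfold qv
    by_cases hb : p.2 = true <;> simp [hb]
  rw [h4]
  exact Real.coe_toNNReal _ hp.1

/-- Covariance of the coordinates. -/
lemma IsPBM.cov_co [IsFiniteMeasure P] (h : IsPBM P B) (p q : ℝ × Bool)
    (hp : p.1 ∈ Set.Icc (0 : ℝ) 1) (hq : q.1 ∈ Set.Icc (0 : ℝ) 1) :
    cov[co B p, co B q; P] = if p.2 = q.2 then min p.1 q.1 else 0 := by
  have hG := h.gaussian (T := Bool) (fun b => if b then p else q) (by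
    intro b
    cases b
    · simpa using hq
    · simpa using hp)
  have mp : MemLp (co B p) 2 P := by
    have := (hG.hasGaussianLaw_eval true).memLp_two
    simpa using this
  have mq : MemLp (co B q) 2 P := by
    have := (hG.hasGaussianLaw_eval false).memLp_two
    simpa using this
  have h1 := h.map_co (ι := Bool) (fun b => if b then p else q) (fun _ => 1) (by
    intro b
    cases b
    · simpa using hq
    · simpa using hp)
  have h2 : (fun ω => ∑ i : Bool, (1 : ℝ) * co B (if i then p else q) ω) = co B p + co B q := by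
    ext ω
    simp
  rw [h2] at h1
  have h3 : HasLaw (co B p + co B q)
      (gaussianReal 0 (qv (ι := Bool) (fun b => if b then p else q) (fun _ => 1)).toNNReal) P :=
    ⟨(h.aemeasurable_co p hp).add (h.aemeasurable_co q hq), h1⟩
  have h4 := h3.variance_eq
  rw [variance_id_gaussianReal, variance_add mp mq, h.var_co p hp, h.var_co q hq] at h4
  have h5 : qv (ι := Bool) (fun b => if b then p else q) (fun _ => 1) =
      p.1 + 2 * (if p.2 = q.2 then min p.1 q.1 else 0) + q.1 := by
    unfold qv
    simp only [Fintype.sum_bool]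
    rcases p with ⟨x, bp⟩
    rcases q with ⟨y, bq⟩
    cases bp <;> cases bq <;> simp [min_comm y x] <;> ring
  have h6 : 0 ≤ qv (ι := Bool) (fun b => if b then p else q) (fun _ => 1) := by
    rw [h5]
    have h7 : 0 ≤ (if p.2 = q.2 then min p.1 q.1 else 0) := by
      split_ifs
      · exact le_min hp.1 hq.1
      · exact le_rfl
    linarith [hp.1, hq.1]
  rw [Real.coe_toNNReal _ h6, h5] at h4
  linarith

/-- The first half and the increments after time `1/2` are independent. -/
theorem IsPBM.indep [IsFiniteMeasure P] (h : IsPBM P B) {T : Type*} (u : T → ℝ)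
    (hu : ∀ i, u i ∈ Set.Icc (0 : ℝ) 1) :
    IndepFun (fun ω (q : T × Bool) => co (seg B 0 (1 / 2)) (u q.1, q.2) ω)
      (fun ω (q : T × Bool) => co (seg B (1 / 2) 1) (u q.1, q.2) ω) P := by
  classical
  have hbase : IsGaussianProcess
      (fun (p : {p : ℝ × Bool // p.1 ∈ Set.Icc (0 : ℝ) 1}) (ω : Ω) => co B p ω) P :=
    h.gaussian Subtype.val fun p => p.2
  have m1 : ∀ q : T × Bool, (0 : ℝ) + u q.1 * (1 / 2 - 0) ∈ Set.Icc (0 : ℝ) 1 := fun q => by
    have := hu q.1
    constructor <;> [nlinarith [this.1]; nlinarith [this.2]]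
  have m2 : ∀ q : T × Bool, (1 / 2 : ℝ) + u q.1 * (1 - 1 / 2) ∈ Set.Icc (0 : ℝ) 1 := fun q => by
    have := hu q.1
    constructor <;> [nlinarith [this.1]; nlinarith [this.2]]
  have m3 : (1 / 2 : ℝ) ∈ Set.Icc (0 : ℝ) 1 := by constructor <;> norm_num
  have m0 : (0 : ℝ) ∈ Set.Icc (0 : ℝ) 1 := by constructor <;> norm_num
  -- unscaled increments
  let Y1 : T × Bool → Ω → ℝ := fun q ω =>
    co B (0 + u q.1 * (1 / 2 - 0), q.2) ω - co B (0, q.2) ω
  let Y2 : T × Bool → Ω → ℝ := fun q ω =>
    co B (1 / 2 + u q.1 * (1 - 1 / 2), q.2) ω - co B (1 / 2, q.2) ω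
  have hG : IsGaussianProcess (Sum.elim Y1 Y2) P := by
    refine hbase.of_isGaussianProcess ?_
    rintro (q | q)
    · exact ⟨{⟨(0 + u q.1 * (1 / 2 - 0), q.2), m1 q⟩, ⟨(0, q.2), m0⟩},
        { toFun x := x ⟨⟨(0 + u q.1 * (1 / 2 - 0), q.2), m1 q⟩, by simp⟩ -
            x ⟨⟨(0, q.2), m0⟩, by simp⟩
          map_add' x y := by simp; abel
          map_smul' c x := by simp; ring },
        fun ω => rfl⟩
    · exact ⟨{⟨(1 / 2 + u q.1 * (1 - 1 / 2), q.2), m2 q⟩, ⟨(1 / 2, q.2), m3⟩},
        { toFun x := x ⟨⟨(1 / 2 + u q.1 * (1 - 1 / 2), q.2), m2 q⟩, by simp⟩ -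
            x ⟨⟨(1 / 2, q.2), m3⟩, by simp⟩
          map_add' x y := by simp; abel
          map_smul' c x := by simp; ring },
        fun ω => rfl⟩
  have hL : ∀ p : ℝ × Bool, p.1 ∈ Set.Icc (0 : ℝ) 1 → MemLp (co B p) 2 P := fun p hp =>
    (hbase.hasGaussianLaw_eval ⟨p, hp⟩).memLp_two
  have hind : IndepFun (fun ω q => Y1 q ω) (fun ω q => Y2 q ω) P := by
    refine hG.indepFun_of_covariance_eq_zero ?_ ?_ ?_
    · exact fun q => (h.aemeasurable_co _ (m1 q)).sub (h.aemeasurable_co _ m0)
    · exact fun q => (h.aemeasurable_co _ (m2 q)).sub (h.aemeasurable_co _ m3)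
    · intro q q'
      have e1 : Y1 q = co B (0 + u q.1 * (1 / 2 - 0), q.2) - co B (0, q.2) := rfl
      have e2 : Y2 q' = co B (1 / 2 + u q'.1 * (1 - 1 / 2), q'.2) - co B (1 / 2, q'.2) := rfl
      rw [e1, e2, covariance_sub_left (hL _ (m1 q)) (hL _ m0) ((hL _ (m2 q')).sub (hL _ m3)),
        covariance_sub_right (hL _ (m1 q)) (hL _ (m2 q')) (hL _ m3),
        covariance_sub_right (hL _ m0) (hL _ (m2 q')) (hL _ m3),
        h.cov_co _ _ (m1 q) (m2 q'), h.cov_co _ _ (m1 q) m3, h.cov_co _ _ m0 (m2 q'),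
        h.cov_co _ _ m0 m3]
      have a1 := hu q.1
      have a2 := hu q'.1
      split_ifs
      · simp only
        rw [min_eq_left (by nlinarith [a1.2, a2.1]), min_eq_left (by nlinarith [a1.2]),
          min_eq_left (by nlinarith [a2.1]), min_eq_left (by norm_num)]
        ring
      · ring
  -- rescale
  have hsc : Measurable fun (y : T × Bool → ℝ) (q : T × Bool) =>
      (Real.sqrt (1 / 2))⁻¹ * y q :=
    measurable_pi_lambda _ fun q => (measurable_pi_apply q).const_mul _
  have h3 := hind.comp hsc hsc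
  have e1 : ((fun (y : T × Bool → ℝ) (q : T × Bool) => (Real.sqrt (1 / 2))⁻¹ * y q) ∘
      fun ω q => Y1 q ω) = fun ω (q : T × Bool) => co (seg B 0 (1 / 2)) (u q.1, q.2) ω := by
    ext ω q
    simp only [Function.comp, Y1, co]
    split_ifs
    · rw [seg_re]; norm_num
    · rw [seg_im]; norm_num
  have e2 : ((fun (y : T × Bool → ℝ) (q : T × Bool) => (Real.sqrt (1 / 2))⁻¹ * y q) ∘
      fun ω q => Y2 q ω) = fun ω (q : T × Bool) => co (seg B (1 / 2) 1) (u q.1, q.2) ω := by
    ext ω q
    simp only [Function.comp, Y2, co]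
    split_ifs
    · rw [seg_re]; norm_num
    · rw [seg_im]; norm_num
  rw [e1, e2] at h3
  exact h3

end Pool.Agent.BMR
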