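import Pool.Agent.Lib.BMR.Dil
import Pool.Agent.Lib.BMR.Line

/-!
Slices: for almost every horizontal (vertical) line the image of the set on this line is null.
-/

open MeasureTheory Set Filter Topology Complex

namespace Pool.Agent.BMR

variable {K E : Set ℂ}

/-- The majorant of a cell. -/
noncomputable def Wc (f : ℂ ≃ₜ ℂ) (E : Set ℂ) (k : ℕ) (H l : ℝ) (x y s t : ℝ) : ℝ :=
  l * (2 * (s + t) ^ 2 / (s * t) * H ^ 2) *
    ∑ p ∈ Finset.Icc (-(k : ℤ)) k ×ˢ Finset.Icc (-(k : ℤ)) k,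
      rh f (x + (p.1 : ℤ) * s) (y + (p.2 : ℤ) * t) s t + 1 / (2 * l) * ar E x y s t

lemma Wc_nonneg (f : ℂ ≃ₜ ℂ) (E : Set ℂ) (k : ℕ) (H l : ℝ) (hl : 0 < l) (x y s t : ℝ)
    (hs : 0 ≤ s) (ht : 0 ≤ t) : 0 ≤ Wc f E k H l x y s t := by
  unfold Wc
  refine add_nonneg (mul_nonneg ?_ (Finset.sum_nonneg fun p _ => rh_nonneg _ _ _ _ _))
    (mul_nonneg (by positivity) (ar_nonneg _ _ _ _ hs ht))
  have : 0 ≤ s * t := mul_nonneg hs ht
  positivity

/-- Oscillation on a cell which meets `E`. -/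
lemma cell (f : ℂ ≃ₜ ℂ) (k : ℕ) (x y s t : ℝ) (hs : 0 < s) (ht : 0 < t) (hks : s + t ≤ k * s)
    (hkt : s + t ≤ k * t) (H : ℝ) (hH : 0 < H)
    (h : ∀ x₀ ∈ E, ∀ y₀ z₀ : ℂ, ‖y₀ - x₀‖ ≤ s + t → s + t ≤ ‖z₀ - x₀‖ →
      ‖f y₀ - f x₀‖ ≤ H * ‖f z₀ - f x₀‖) (l : ℝ) (hl : 0 < l) (hm : meets E x y s t) :
    ∃ (x₀ : ℂ) (L : ℝ), (x ≤ x₀.re ∧ x₀.re ≤ x + s) ∧ (y ≤ x₀.im ∧ x₀.im ≤ y + t) ∧ 0 ≤ L ∧
      (∀ w : ℂ, ‖w - x₀‖ ≤ s + t → ‖f w - f x₀‖ ≤ L) ∧
      2 * (s + t) * L ≤ Wc f E k H l x y s t := by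
  obtain ⟨x₀, hx₀, g1, g2, g3, g4⟩ := id hm
  have hr0 : 0 < s + t := by linarith
  obtain ⟨w, hw, hwmax⟩ := (ProperSpace.isCompact_closedBall x₀ (s + t)).exists_isMaxOn
    ⟨x₀, Metric.mem_closedBall_self hr0.le⟩ (f := fun w => ‖f w - f x₀‖) (by fun_prop)
  set L : ℝ := ‖f w - f x₀‖ with hL
  have hL0 : 0 ≤ L := norm_nonneg _
  refine ⟨x₀, L, ⟨g1, g2⟩, ⟨g3, g4⟩, hL0, ?_, ?_⟩
  · intro w' hw'
    exact hwmax (by rw [Metric.mem_closedBall, dist_eq_norm]; exact hw')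
  have har := osc_le_area f x₀ (s + t) H hH (h x₀ hx₀) w (by
    rw [Metric.mem_closedBall, dist_eq_norm] at hw
    exact hw)
  have hnu := nu_ball_le f k x y s t hs ht x₀ g1 g2 g3 g4 (s + t) hks hkt
  have hfin : nu f (Metric.ball x₀ (s + t)) ≠ ⊤ := by
    refine ((measure_mono Metric.ball_subset_closedBall).trans_lt ?_).ne
    rw [nu_apply f Metric.isClosed_closedBall.measurableSet]
    exact ((ProperSpace.isCompact_closedBall x₀ _).image f.continuous).measure_lt_top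
  have har' := ENNReal.toReal_mono hfin har
  rw [ENNReal.toReal_ofReal (by positivity)] at har'
  have hL2 := har'.trans hnu
  have hc0 : 0 ≤ l * (2 * (s + t) ^ 2 / (s * t) * H ^ 2) := by positivity
  have hL3 := mul_le_mul_of_nonneg_left hL2 hc0
  have hA : ar E x y s t = s * t := by
    simp only [ar, hm, if_true]
  unfold Wc
  rw [hA]
  have e1 : l * (2 * (s + t) ^ 2 / (s * t) * H ^ 2) * (L ^ 2 / H ^ 2) =
      l / 2 * (2 * (s + t) * L) ^ 2 / (s * t) := by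
    field_simp
  rw [e1] at hL3
  set b := 2 * (s + t) * L
  set A := s * t with hAdef
  have hA0 : 0 < A := mul_pos hs ht
  have h1 : l / 2 * b ^ 2 / A + 1 / (2 * l) * A - b = (l * b - A) ^ 2 / (2 * l * A) := by
    field_simp
    ring
  have h2 : 0 ≤ (l * b - A) ^ 2 / (2 * l * A) := by positivity
  linarith

/-- The sum of the majorants. -/
lemma gs_Wc (f : ℂ ≃ₜ ℂ) (k : ℕ) (H l : ℝ) (hl : 0 < l) (n : ℕ) (x y s t : ℝ)
    (hs : 0 < s) (ht : 0 < t) :
    gs n (Wc f E k H l) x y s t ≤ l * (2 * (s + t) ^ 2 / (s * t) * H ^ 2 * ((2 * k + 1) ^ 2 *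
      rh f (x - k * s) (y - k * t) ((2 * k + 1) * s) ((2 * k + 1) * t))) +
      1 / (2 * l) * gs n (ar E) x y s t := by
  have p2 : (0 : ℝ) < 2 ^ n := by positivity
  set S := Finset.Icc (-(k : ℤ)) k ×ˢ Finset.Icc (-(k : ℤ)) k with hS
  set c : ℝ := 2 * (s + t) ^ 2 / (s * t) * H ^ 2 with hc
  have hc0 : 0 ≤ c := by positivity
  let G : ℝ → ℝ → ℝ → ℝ → ℝ := fun x' y' s' t' => l * c * ∑ p ∈ S,
    rh f (x' + (p.1 : ℤ) * (s / 2 ^ n)) (y' + (p.2 : ℤ) * (t / 2 ^ n)) s' t'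
  have step : gs n (Wc f E k H l) x y s t ≤
      gs n (fun x y s t => G x y s t + 1 / (2 * l) * ar E x y s t) x y s t := by
    refine gs_mono n _ _ x y s t hs.le ht.le ?_
    intro x' y' _ _ _ _
    have e : 2 * (s / 2 ^ n + t / 2 ^ n) ^ 2 / (s / 2 ^ n * (t / 2 ^ n)) * H ^ 2 = c := by
      rw [hc]
      field_simp
    unfold Wc
    rw [e]
  refine step.trans ?_
  rw [gs_add, gs_mul n (1 / (2 * l)) (ar E) x y s t]
  have e2 : gs n G x y s t ≤ l * (c * ((2 * k + 1) ^ 2 *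
      rh f (x - k * s) (y - k * t) ((2 * k + 1) * s) ((2 * k + 1) * t))) := by
    have e3 : gs n G x y s t = l * c * ∑ p ∈ S,
        rh f (x + (p.1 : ℤ) * (s / 2 ^ n)) (y + (p.2 : ℤ) * (t / 2 ^ n)) s t := by
      change gs n (fun x' y' s' t' => l * c * ∑ p ∈ S,
        rh f (x' + (p.1 : ℤ) * (s / 2 ^ n)) (y' + (p.2 : ℤ) * (t / 2 ^ n)) s' t') x y s t = _
      rw [gs_mul n (l * c) (fun x' y' s' t' => ∑ p ∈ S,
        rh f (x' + (p.1 : ℤ) * (s / 2 ^ n)) (y' + (p.2 : ℤ) * (t / 2 ^ n)) s' t') x y s t,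
        gs_sum]
      congr 1
      exact Finset.sum_congr rfl fun p _ => gs_rh f _ _ n x y s t hs.le ht.le
    rw [e3, mul_assoc]
    refine mul_le_mul_of_nonneg_left (mul_le_mul_of_nonneg_left ?_ hc0) hl.le
    have e4 : ∀ p ∈ S, rh f (x + (p.1 : ℤ) * (s / 2 ^ n)) (y + (p.2 : ℤ) * (t / 2 ^ n)) s t ≤
        rh f (x - k * s) (y - k * t) ((2 * k + 1) * s) ((2 * k + 1) * t) := by
      intro p hp
      rw [hS, Finset.mem_product, Finset.mem_Icc, Finset.mem_Icc] at hp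
      have c1 : (-(k : ℝ)) ≤ (p.1 : ℝ) := by exact_mod_cast hp.1.1
      have c2 : (p.1 : ℝ) ≤ k := by exact_mod_cast hp.1.2
      have c3 : (-(k : ℝ)) ≤ (p.2 : ℝ) := by exact_mod_cast hp.2.1
      have c4 : (p.2 : ℝ) ≤ k := by exact_mod_cast hp.2.2
      have q1 : ∀ (a s : ℝ), 0 < s → -(k : ℝ) ≤ a → a ≤ k → -(k * s) ≤ a * (s / 2 ^ n) ∧
          a * (s / 2 ^ n) ≤ k * s := by
        intro a s hs h1 h2
        have h3 : s / 2 ^ n ≤ s := div_le_self hs.le (one_le_pow₀ (by norm_num))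
        have h4 : 0 < s / 2 ^ n := div_pos hs p2
        have h5 : 0 ≤ (k : ℝ) := Nat.cast_nonneg k
        constructor <;> nlinarith
      have d1 := q1 p.1 s hs c1 c2
      have d2 := q1 p.2 t ht c3 c4
      refine rh_mono f ?_ ?_ ?_ ?_ <;> linarith [d1.1, d1.2, d2.1, d2.2]
    refine (Finset.sum_le_sum e4).trans ?_
    rw [Finset.sum_const, nsmul_eq_mul]
    refine mul_le_mul_of_nonneg_right (le_of_eq ?_) (rh_nonneg _ _ _ _ _)
    rw [hS, Finset.card_product, Int.card_Icc]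
    have : ((k : ℤ) + 1 - -(k : ℤ)).toNat = 2 * k + 1 := by omega
    rw [this]
    push_cast
    ring
  linarith

/-! ### Slicing of grid sums -/

lemma le_gs (n : ℕ) (A : ℝ → ℝ → ℝ → ℝ → ENNReal)
    (hA : ∀ x y s t, 0 ≤ s → 0 ≤ t → A x y s t ≤ gs 1 A x y s t) (x y s t : ℝ) (hs : 0 ≤ s)
    (ht : 0 ≤ t) : A x y s t ≤ gs n A x y s t := by
  induction n generalizing x y s t with
  | zero => exact le_rfl
  | succ n ih =>
    refine (hA x y s t hs ht).trans ?_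
    simp only [gs]
    exact add_le_add (add_le_add (add_le_add (ih _ _ _ _ (by linarith) (by linarith))
      (ih _ _ _ _ (by linarith) (by linarith))) (ih _ _ _ _ (by linarith) (by linarith)))
      (ih _ _ _ _ (by linarith) (by linarith))

lemma measurable_gs (n : ℕ) (B : ℝ → ℝ → ℝ → ℝ → ℝ → ENNReal)
    (hB : ∀ x y s t, Measurable fun v => B v x y s t) (x y s t : ℝ) :
    Measurable fun v => gs n (B v) x y s t := by
  induction n generalizing x y s t with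
  | zero => exact hB x y s t
  | succ n ih =>
    simp only [gs]
    exact (((ih _ _ _ _).add (ih _ _ _ _)).add (ih _ _ _ _)).add (ih _ _ _ _)

lemma lintegral_gs (n : ℕ) (B : ℝ → ℝ → ℝ → ℝ → ℝ → ENNReal)
    (hB : ∀ x y s t, Measurable fun v => B v x y s t) (x y s t : ℝ) :
    ∫⁻ v, gs n (B v) x y s t = gs n (fun x y s t => ∫⁻ v, B v x y s t) x y s t := by
  induction n generalizing x y s t with
  | zero => rfl
  | succ n ih =>
    have m := fun x y s t => measurable_gs n B hB x y s t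
    have e3 := lintegral_add_left (μ := volume) (m x y (s / 2) (t / 2))
      (fun v => gs n (B v) (x + s / 2) y (s / 2) (t / 2))
    have e2 := lintegral_add_left (μ := volume) ((m x y (s / 2) (t / 2)).add
      (m (x + s / 2) y (s / 2) (t / 2))) (fun v => gs n (B v) x (y + t / 2) (s / 2) (t / 2))
    have e1 := lintegral_add_left (μ := volume) (((m x y (s / 2) (t / 2)).add
      (m (x + s / 2) y (s / 2) (t / 2))).add (m x (y + t / 2) (s / 2) (t / 2)))
      (fun v => gs n (B v) (x + s / 2) (y + t / 2) (s / 2) (t / 2))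
    simp only [Pi.add_apply] at e1 e2
    simp only [gs]
    rw [e1, e2, e3, ih, ih, ih, ih]

lemma gs_ofReal (n : ℕ) (W : ℝ → ℝ → ℝ → ℝ → ℝ)
    (hW : ∀ x y s t, 0 ≤ s → 0 ≤ t → 0 ≤ W x y s t) (x y s t : ℝ) (hs : 0 ≤ s) (ht : 0 ≤ t) :
    gs n (fun x y s t => ENNReal.ofReal (W x y s t)) x y s t =
      ENNReal.ofReal (gs n W x y s t) := by
  induction n generalizing x y s t with
  | zero => rfl
  | succ n ih =>
    have hs' : 0 ≤ s / 2 := by linarith
    have ht' : 0 ≤ t / 2 := by linarith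
    have m := fun x y => gs_nonneg n W hW x y (s / 2) (t / 2) hs' ht'
    simp only [gs]
    rw [ih _ _ _ _ hs' ht', ih _ _ _ _ hs' ht', ih _ _ _ _ hs' ht', ih _ _ _ _ hs' ht',
      ENNReal.ofReal_add (add_nonneg (add_nonneg (m _ _) (m _ _)) (m _ _)) (m _ _),
      ENNReal.ofReal_add (add_nonneg (m _ _) (m _ _)) (m _ _),
      ENNReal.ofReal_add (m _ _) (m _ _)]

/-- The abstract slicing lemma. -/
lemma slice (n : ℕ) (A B : ℝ → ℝ → ℝ → ℝ → ℝ → ENNReal) (W : ℝ → ℝ → ℝ → ℝ → ℝ)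
    (hA : ∀ v x y s t, 0 ≤ s → 0 ≤ t → A v x y s t ≤ gs 1 (A v) x y s t)
    (hB : ∀ x y s t, Measurable fun v => B v x y s t)
    (hW : ∀ x y s t, 0 ≤ s → 0 ≤ t → 0 ≤ W x y s t)
    (x y s t : ℝ) (hs : 0 < s) (ht : 0 < t)
    (hAB : ∀ v x' y', A v x' y' (s / 2 ^ n) (t / 2 ^ n) ≤ B v x' y' (s / 2 ^ n) (t / 2 ^ n))
    (hBW : ∀ x' y', ∫⁻ v, B v x' y' (s / 2 ^ n) (t / 2 ^ n) ≤
      ENNReal.ofReal (W x' y' (s / 2 ^ n) (t / 2 ^ n))) :
    ∃ G : ℝ → ENNReal, Measurable G ∧ (∀ v, A v x y s t ≤ G v) ∧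
      ∫⁻ v, G v ≤ ENNReal.ofReal (gs n W x y s t) := by
  refine ⟨fun v => gs n (B v) x y s t, measurable_gs n B hB x y s t, fun v => ?_, ?_⟩
  · exact (le_gs n (A v) (hA v) x y s t hs.le ht.le).trans
      (gs_mono n _ _ x y s t hs.le ht.le fun x' y' _ _ _ _ => hAB v x' y')
  · rw [lintegral_gs n B hB, ← gs_ofReal n W hW x y s t hs.le ht.le]
    exact gs_mono n _ _ x y s t hs.le ht.le fun x' y' _ _ _ _ => hBW x' y'

/-- The measure of the image of a horizontal slice. -/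
noncomputable def Ah (g : ℂ → ℝ) (E : Set ℂ) (v x y s t : ℝ) : ENNReal :=
  open Classical in if y ≤ v ∧ v < y + t then volume ((fun a : ℝ => g ((a : ℂ) + (v : ℂ) * I)) ''
    {a | (x ≤ a ∧ a < x + s) ∧ (a : ℂ) + (v : ℂ) * I ∈ E}) else 0

/-- The measure of the image of a vertical slice. -/
noncomputable def Av (g : ℂ → ℝ) (E : Set ℂ) (v x y s t : ℝ) : ENNReal :=
  open Classical in if x ≤ v ∧ v < x + s then volume ((fun b : ℝ => g ((v : ℂ) + (b : ℂ) * I)) ''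
    {b | (y ≤ b ∧ b < y + t) ∧ (v : ℂ) + (b : ℂ) * I ∈ E}) else 0

lemma Ah_sub (g : ℂ → ℝ) (E : Set ℂ) (v x y s t : ℝ) :
    Ah g E v x y s t ≤ gs 1 (Ah g E v) x y s t := by
  have key : volume ((fun a : ℝ => g ((a : ℂ) + (v : ℂ) * I)) ''
      {a | (x ≤ a ∧ a < x + s) ∧ (a : ℂ) + (v : ℂ) * I ∈ E}) ≤
      volume ((fun a : ℝ => g ((a : ℂ) + (v : ℂ) * I)) ''
        {a | (x ≤ a ∧ a < x + s / 2) ∧ (a : ℂ) + (v : ℂ) * I ∈ E}) +
      volume ((fun a : ℝ => g ((a : ℂ) + (v : ℂ) * I)) ''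
        {a | (x + s / 2 ≤ a ∧ a < x + s / 2 + s / 2) ∧ (a : ℂ) + (v : ℂ) * I ∈ E}) := by
    refine le_trans (measure_mono ?_) (measure_union_le _ _)
    rw [← image_union]
    refine image_mono ?_
    rintro a ⟨⟨h1, h2⟩, h3⟩
    rcases lt_or_ge a (x + s / 2) with h | h
    · exact Or.inl ⟨⟨h1, h⟩, h3⟩
    · exact Or.inr ⟨⟨h, by linarith⟩, h3⟩
  simp only [gs]
  by_cases hv : y ≤ v ∧ v < y + t
  · rcases lt_or_ge v (y + t / 2) with h | h
    · refine le_trans ?_ (le_self_add.trans le_self_add)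
      have c1 : y ≤ v ∧ v < y + t / 2 := ⟨hv.1, h⟩
      simp only [Ah, hv, c1, if_true, and_self]
      exact key
    · rw [add_assoc]
      refine le_trans ?_ le_add_self
      have c1 : y + t / 2 ≤ v ∧ v < y + t / 2 + t / 2 := ⟨h, by linarith [hv.2]⟩
      simp only [Ah, hv, c1, if_true, and_self]
      exact key
  · simp only [Ah, hv, if_false]
    exact bot_le

lemma Av_sub (g : ℂ → ℝ) (E : Set ℂ) (v x y s t : ℝ) :
    Av g E v x y s t ≤ gs 1 (Av g E v) x y s t := by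
  have key : volume ((fun b : ℝ => g ((v : ℂ) + (b : ℂ) * I)) ''
      {b | (y ≤ b ∧ b < y + t) ∧ (v : ℂ) + (b : ℂ) * I ∈ E}) ≤
      volume ((fun b : ℝ => g ((v : ℂ) + (b : ℂ) * I)) ''
        {b | (y ≤ b ∧ b < y + t / 2) ∧ (v : ℂ) + (b : ℂ) * I ∈ E}) +
      volume ((fun b : ℝ => g ((v : ℂ) + (b : ℂ) * I)) ''
        {b | (y + t / 2 ≤ b ∧ b < y + t / 2 + t / 2) ∧ (v : ℂ) + (b : ℂ) * I ∈ E}) := by
    refine le_trans (measure_mono ?_) (measure_union_le _ _)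
    rw [← image_union]
    refine image_mono ?_
    rintro a ⟨⟨h1, h2⟩, h3⟩
    rcases lt_or_ge a (y + t / 2) with h | h
    · exact Or.inl ⟨⟨h1, h⟩, h3⟩
    · exact Or.inr ⟨⟨h, by linarith⟩, h3⟩
  simp only [gs]
  by_cases hv : x ≤ v ∧ v < x + s
  · rcases lt_or_ge v (x + s / 2) with h | h
    · have c1 : x ≤ v ∧ v < x + s / 2 := ⟨hv.1, h⟩
      have e1 : Av g E v x y s t = volume ((fun b : ℝ => g ((v : ℂ) + (b : ℂ) * I)) ''
          {b | (y ≤ b ∧ b < y + t) ∧ (v : ℂ) + (b : ℂ) * I ∈ E}) := by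
        simp only [Av, hv, if_true, and_self]
      have e2 : Av g E v x y (s / 2) (t / 2) = volume ((fun b : ℝ => g ((v : ℂ) + (b : ℂ) * I)) ''
          {b | (y ≤ b ∧ b < y + t / 2) ∧ (v : ℂ) + (b : ℂ) * I ∈ E}) := by
        simp only [Av, c1, if_true, and_self]
      have e3 : Av g E v x (y + t / 2) (s / 2) (t / 2) =
          volume ((fun b : ℝ => g ((v : ℂ) + (b : ℂ) * I)) ''
          {b | (y + t / 2 ≤ b ∧ b < y + t / 2 + t / 2) ∧ (v : ℂ) + (b : ℂ) * I ∈ E}) := by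
        simp only [Av, c1, if_true, and_self]
      rw [e1]
      refine key.trans ?_
      rw [← e2, ← e3]
      exact (add_le_add le_self_add le_rfl).trans le_self_add
    · have c1 : x + s / 2 ≤ v ∧ v < x + s / 2 + s / 2 := ⟨h, by linarith [hv.2]⟩
      have e1 : Av g E v x y s t = volume ((fun b : ℝ => g ((v : ℂ) + (b : ℂ) * I)) ''
          {b | (y ≤ b ∧ b < y + t) ∧ (v : ℂ) + (b : ℂ) * I ∈ E}) := by
        simp only [Av, hv, if_true, and_self]
      have e2 : Av g E v (x + s / 2) y (s / 2) (t / 2) =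
          volume ((fun b : ℝ => g ((v : ℂ) + (b : ℂ) * I)) ''
          {b | (y ≤ b ∧ b < y + t / 2) ∧ (v : ℂ) + (b : ℂ) * I ∈ E}) := by
        simp only [Av, c1, if_true, and_self]
      have e3 : Av g E v (x + s / 2) (y + t / 2) (s / 2) (t / 2) =
          volume ((fun b : ℝ => g ((v : ℂ) + (b : ℂ) * I)) ''
          {b | (y + t / 2 ≤ b ∧ b < y + t / 2 + t / 2) ∧ (v : ℂ) + (b : ℂ) * I ∈ E}) := by
        simp only [Av, c1, if_true, and_self]
      rw [e1]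
      refine key.trans ?_
      rw [← e2, ← e3]
      exact add_le_add (le_self_add.trans' le_add_self) le_rfl
  · have e1 : Av g E v x y s t = 0 := by
      simp only [Av, hv, if_false]
    rw [e1]
    exact bot_le

/-- The cell majorant of the image of a slice. -/
lemma vol_slice (f : ℂ ≃ₜ ℂ) (g : ℂ → ℝ) (hg : ∀ z w, |g z - g w| ≤ ‖z - w‖) (F : Set ℂ)
    (x₀ : ℂ) (L : ℝ) (hF : ∀ w ∈ F, ‖f w - f x₀‖ ≤ L) (T : ℝ → ℂ) (J : Set ℝ)
    (hJ : ∀ a ∈ J, T a ∈ F) :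
    volume ((fun a : ℝ => g (f (T a))) '' J) ≤ ENNReal.ofReal (2 * L) := by
  have hsub : (fun a : ℝ => g (f (T a))) '' J ⊆ Set.Icc (g (f x₀) - L) (g (f x₀) + L) := by
    rintro _ ⟨a, ha, rfl⟩
    have h1 := (hg (f (T a)) (f x₀)).trans (hF _ (hJ a ha))
    rw [abs_le] at h1
    constructor <;> simp only <;> linarith [h1.1, h1.2]
  refine (measure_mono hsub).trans ?_
  rw [Real.volume_Icc]
  exact ENNReal.ofReal_le_ofReal (by linarith)

lemma slice_h (f : ℂ ≃ₜ ℂ) (g : ℂ → ℝ) (hg : ∀ z w, |g z - g w| ≤ ‖z - w‖) (k : ℕ)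
    (x y s t : ℝ) (hs : 0 < s) (ht : 0 < t) (hks : s + t ≤ k * s) (hkt : s + t ≤ k * t) (n : ℕ)
    (H : ℝ) (hH : 0 < H) (h : ∀ x₀ ∈ E, ∀ y₀ z₀ : ℂ, ‖y₀ - x₀‖ ≤ (s + t) / 2 ^ n →
      (s + t) / 2 ^ n ≤ ‖z₀ - x₀‖ → ‖f y₀ - f x₀‖ ≤ H * ‖f z₀ - f x₀‖) (l : ℝ) (hl : 0 < l) :
    (∃ G : ℝ → ENNReal, Measurable G ∧ (∀ v, Ah (fun z => g (f z)) E v x y s t ≤ G v) ∧
      ∫⁻ v, G v ≤ ENNReal.ofReal (gs n (Wc f E k H l) x y s t)) ∧
    (∃ G : ℝ → ENNReal, Measurable G ∧ (∀ v, Av (fun z => g (f z)) E v x y s t ≤ G v) ∧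
      ∫⁻ v, G v ≤ ENNReal.ofReal (gs n (Wc f E k H l) x y s t)) := by
  classical
  have p2 : (0 : ℝ) < 2 ^ n := by positivity
  have hs' : 0 < s / 2 ^ n := div_pos hs p2
  have ht' : 0 < t / 2 ^ n := div_pos ht p2
  have hsum : (s + t) / 2 ^ n = s / 2 ^ n + t / 2 ^ n := by rw [add_div]
  rw [hsum] at h
  have hks' : s / 2 ^ n + t / 2 ^ n ≤ k * (s / 2 ^ n) := by
    rw [← add_div, ← mul_div_assoc]
    gcongr
  have hkt' : s / 2 ^ n + t / 2 ^ n ≤ k * (t / 2 ^ n) := by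
    rw [← add_div, ← mul_div_assoc]
    gcongr
  -- points of a cell are close
  have near : ∀ (x' y' : ℝ) (x₀ w : ℂ), (x' ≤ x₀.re ∧ x₀.re ≤ x' + s / 2 ^ n) →
      (y' ≤ x₀.im ∧ x₀.im ≤ y' + t / 2 ^ n) → (x' ≤ w.re ∧ w.re ≤ x' + s / 2 ^ n) →
      (y' ≤ w.im ∧ w.im ≤ y' + t / 2 ^ n) → ‖w - x₀‖ ≤ s / 2 ^ n + t / 2 ^ n := by
    rintro x' y' x₀ w ⟨a1, a2⟩ ⟨a3, a4⟩ ⟨a5, a6⟩ ⟨a7, a8⟩
    refine (Complex.norm_le_abs_re_add_abs_im _).trans ?_
    rw [Complex.sub_re, Complex.sub_im]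
    refine add_le_add ?_ ?_
    · rw [abs_le]
      constructor <;> linarith
    · rw [abs_le]
      constructor <;> linarith
  constructor
  · refine slice n (Ah (fun z => g (f z)) E) (fun v x y s t => if y ≤ v ∧ v < y + t then
      ENNReal.ofReal (Wc f E k H l x y s t / t) else 0) (Wc f E k H l)
      (fun v x y s t _ _ => Ah_sub _ E v x y s t) ?_
      (fun x y s t hs ht => Wc_nonneg f E k H l hl x y s t hs ht) x y s t hs ht ?_ ?_
    · intro x y s t
      exact Measurable.ite (measurableSet_Ico (a := y) (b := y + t)) measurable_const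
        measurable_const
    · intro v x' y'
      by_cases hv : y' ≤ v ∧ v < y' + t / 2 ^ n
      · simp only [Ah, hv, if_true, and_self]
        by_cases hm : meets E x' y' (s / 2 ^ n) (t / 2 ^ n)
        · obtain ⟨x₀, L, g1, g2, g3, g4, g5⟩ := cell f k x' y' _ _ hs' ht' hks' hkt' H hH h l hl hm
          refine (vol_slice f g hg {w | ‖w - x₀‖ ≤ s / 2 ^ n + t / 2 ^ n} x₀ L g4
            (fun a : ℝ => (a : ℂ) + (v : ℂ) * I) _ ?_).trans (ENNReal.ofReal_le_ofReal ?_)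
          · rintro a ⟨⟨b1, b2⟩, b3⟩
            refine near x' y' x₀ _ g1 g2 ?_ ?_
            · simp only [add_re, ofReal_re, mul_re, I_re, mul_zero, ofReal_im, I_im, mul_one,
                sub_self, add_zero]
              exact ⟨b1, b2.le⟩
            · simp only [add_im, ofReal_im, mul_im, ofReal_re, I_im, mul_one, I_re, mul_zero,
                add_zero, zero_add]
              exact ⟨hv.1, hv.2.le⟩
          · rw [le_div_iff₀ ht']
            refine le_trans ?_ g5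
            nlinarith
        · have : {a : ℝ | (x' ≤ a ∧ a < x' + s / 2 ^ n) ∧ (a : ℂ) + (v : ℂ) * I ∈ E} = ∅ := by
            rw [Set.eq_empty_iff_forall_notMem]
            rintro a ⟨⟨b1, b2⟩, b3⟩
            refine hm ⟨_, b3, ?_⟩
            simp only [add_re, ofReal_re, mul_re, I_re, mul_zero, ofReal_im, I_im, mul_one,
              sub_self, add_zero, add_im, mul_im, zero_add]
            exact ⟨b1, b2.le, hv.1, hv.2.le⟩
          rw [this, image_empty, measure_empty]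
          exact bot_le
      · simp only [Ah, hv, if_false]
        exact le_rfl
    · intro x' y'
      have e : ∀ v : ℝ, (if y' ≤ v ∧ v < y' + t / 2 ^ n then
          ENNReal.ofReal (Wc f E k H l x' y' (s / 2 ^ n) (t / 2 ^ n) / (t / 2 ^ n)) else 0) =
          (Set.Ico y' (y' + t / 2 ^ n)).indicator
            (fun _ => ENNReal.ofReal (Wc f E k H l x' y' (s / 2 ^ n) (t / 2 ^ n) / (t / 2 ^ n))) v :=
        fun v => by
        simp only [Set.indicator, mem_Ico]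
      simp_rw [e]
      rw [lintegral_indicator measurableSet_Ico, setLIntegral_const, Real.volume_Ico,
        add_sub_cancel_left, ← ENNReal.ofReal_mul (div_nonneg
          (Wc_nonneg f E k H l hl _ _ _ _ hs'.le ht'.le) ht'.le), div_mul_cancel₀ _ ht'.ne']
  · refine slice n (Av (fun z => g (f z)) E) (fun v x y s t => if x ≤ v ∧ v < x + s then
      ENNReal.ofReal (Wc f E k H l x y s t / s) else 0) (Wc f E k H l)
      (fun v x y s t _ _ => Av_sub _ E v x y s t) ?_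
      (fun x y s t hs ht => Wc_nonneg f E k H l hl x y s t hs ht) x y s t hs ht ?_ ?_
    · intro x y s t
      exact Measurable.ite (measurableSet_Ico (a := x) (b := x + s)) measurable_const
        measurable_const
    · intro v x' y'
      by_cases hv : x' ≤ v ∧ v < x' + s / 2 ^ n
      · simp only [Av, hv, if_true, and_self]
        by_cases hm : meets E x' y' (s / 2 ^ n) (t / 2 ^ n)
        · obtain ⟨x₀, L, g1, g2, g3, g4, g5⟩ := cell f k x' y' _ _ hs' ht' hks' hkt' H hH h l hl hm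
          refine (vol_slice f g hg {w | ‖w - x₀‖ ≤ s / 2 ^ n + t / 2 ^ n} x₀ L g4
            (fun b : ℝ => (v : ℂ) + (b : ℂ) * I) _ ?_).trans (ENNReal.ofReal_le_ofReal ?_)
          · rintro a ⟨⟨b1, b2⟩, b3⟩
            refine near x' y' x₀ _ g1 g2 ?_ ?_
            · simp only [add_re, ofReal_re, mul_re, I_re, mul_zero, ofReal_im, I_im, mul_one,
                sub_self, add_zero]
              exact ⟨hv.1, hv.2.le⟩
            · simp only [add_im, ofReal_im, mul_im, ofReal_re, I_im, mul_one, I_re, mul_zero,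
                add_zero, zero_add]
              exact ⟨b1, b2.le⟩
          · rw [le_div_iff₀ hs']
            refine le_trans ?_ g5
            nlinarith
        · have : {b : ℝ | (y' ≤ b ∧ b < y' + t / 2 ^ n) ∧ (v : ℂ) + (b : ℂ) * I ∈ E} = ∅ := by
            rw [Set.eq_empty_iff_forall_notMem]
            rintro a ⟨⟨b1, b2⟩, b3⟩
            refine hm ⟨_, b3, ?_⟩
            simp only [add_re, ofReal_re, mul_re, I_re, mul_zero, ofReal_im, I_im, mul_one,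
              sub_self, add_zero, add_im, mul_im, zero_add]
            exact ⟨hv.1, hv.2.le, b1, b2.le⟩
          rw [this, image_empty, measure_empty]
          exact bot_le
      · simp only [Av, hv, if_false]
        exact le_rfl
    · intro x' y'
      have e : ∀ v : ℝ, (if x' ≤ v ∧ v < x' + s / 2 ^ n then
          ENNReal.ofReal (Wc f E k H l x' y' (s / 2 ^ n) (t / 2 ^ n) / (s / 2 ^ n)) else 0) =
          (Set.Ico x' (x' + s / 2 ^ n)).indicator
            (fun _ => ENNReal.ofReal (Wc f E k H l x' y' (s / 2 ^ n) (t / 2 ^ n) / (s / 2 ^ n))) v :=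
        fun v => by
        simp only [Set.indicator, mem_Ico]
      simp_rw [e]
      rw [lintegral_indicator measurableSet_Ico, setLIntegral_const, Real.volume_Ico,
        add_sub_cancel_left, ← ENNReal.ofReal_mul (div_nonneg
          (Wc_nonneg f E k H l hl _ _ _ _ hs'.le ht'.le) hs'.le), div_mul_cancel₀ _ hs'.ne']

/-- Almost everywhere vanishing. -/
lemma null_of (A : ℝ → ENNReal) (C : ℝ)
    (h : ∀ ε : ℝ, 0 < ε → ∃ Aj : ℕ → ℝ → ENNReal, (∀ i j, i ≤ j → ∀ v, Aj i v ≤ Aj j v) ∧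
      (∀ v, A v ≤ ⨆ j, Aj j v) ∧ ∀ j, ∃ G : ℝ → ENNReal, Measurable G ∧ (∀ v, Aj j v ≤ G v) ∧
        ∫⁻ v, G v ≤ ENNReal.ofReal (ε * C)) : ∀ᵐ v, A v = 0 := by
  have h1 : ∀ ε : ℝ, 0 < ε → ∃ G : ℝ → ENNReal, Measurable G ∧ (∀ v, A v ≤ G v) ∧
      ∫⁻ v, G v ≤ ENNReal.ofReal (ε * C) := by
    intro ε hε
    obtain ⟨Aj, a1, a2, a3⟩ := h ε hε
    choose G g1 g2 g3 using a3
    refine ⟨fun v => liminf (fun j => G j v) atTop, Measurable.liminf g1, fun v => ?_, ?_⟩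
    · refine (a2 v).trans (iSup_le fun j => ?_)
      refine Filter.le_liminf_of_le (by isBoundedDefault) ?_
      filter_upwards [eventually_ge_atTop j] with i hi
      exact (a1 j i hi v).trans (g2 i v)
    · refine (lintegral_liminf_le g1).trans ?_
      exact Filter.liminf_le_of_frequently_le' (Eventually.frequently (Eventually.of_forall g3))
  choose G g1 g2 g3 using fun k : ℕ => h1 (1 / ((k : ℝ) + 1)) (by positivity)
  have h2 : ∫⁻ v, ⨅ k, G k v = 0 := by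
    have h3 : ∀ k : ℕ, ∫⁻ v, ⨅ k, G k v ≤ ENNReal.ofReal (1 / ((k : ℝ) + 1) * C) := fun k =>
      (lintegral_mono fun v => iInf_le _ k).trans (g3 k)
    have h4 : Tendsto (fun k : ℕ => ENNReal.ofReal (1 / ((k : ℝ) + 1) * C)) atTop (𝓝 0) := by
      have h5 : Tendsto (fun k : ℕ => 1 / ((k : ℝ) + 1) * C) atTop (𝓝 (0 * C)) :=
        tendsto_one_div_add_atTop_nhds_zero_nat.mul_const C
      rw [zero_mul] at h5
      have h6 := ENNReal.tendsto_ofReal h5
      rwa [ENNReal.ofReal_zero] at h6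
    exact le_antisymm (ge_of_tendsto' h4 h3) bot_le
  rw [lintegral_eq_zero_iff (Measurable.iInf g1)] at h2
  filter_upwards [h2] with v hv
  refine le_antisymm ?_ bot_le
  have : A v ≤ ⨅ k, G k v := le_iInf fun k => g2 k v
  rw [hv] at this
  exact this

end Pool.Agent.BMR
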