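import Mathlib

/-!
Analytic sets are universally measurable: an analytic subset of a Polish space is null measurable
for every finite Borel measure.
-/

open MeasureTheory Set Filter Topology

namespace Pool.Agent.BMR

set_option linter.unusedSectionVars false

variable {α : Type*} [TopologicalSpace α] [PolishSpace α] [MeasurableSpace α] [BorelSpace α]

/-- The sequences whose first `k` terms are bounded by the terms of `n`. -/
def cyl (n : ℕ → ℕ) (k : ℕ) : Set (ℕ → ℕ) := {x | ∀ i < k, x i ≤ n i}

lemma cyl_succ_eq (n : ℕ → ℕ) (k : ℕ) :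
    cyl n k = ⋃ m : ℕ, cyl (Function.update n k m) (k + 1) := by
  ext x
  simp only [cyl, mem_iUnion]
  constructor
  · intro h
    refine ⟨x k, fun i hi => ?_⟩
    rcases Nat.lt_succ_iff_lt_or_eq.mp hi with h1 | h1
    · rw [Function.update_of_ne (by omega)]
      exact h i h1
    · subst h1
      simp
  · rintro ⟨m, h⟩ i hi
    have := h i (by omega)
    rwa [Function.update_of_ne (by omega)] at this

lemma cyl_congr {n n' : ℕ → ℕ} {k : ℕ} (h : ∀ i < k, n i = n' i) : cyl n k = cyl n' k := by
  ext x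
  simp only [cyl]
  constructor
  · intro hx i hi
    rw [← h i hi]
    exact hx i hi
  · intro hx i hi
    rw [h i hi]
    exact hx i hi

lemma mono_update (n : ℕ → ℕ) (k : ℕ) :
    Monotone fun m : ℕ => cyl (Function.update n k m) (k + 1) := by
  intro m m' hm x hx i hi
  have := hx i hi
  rcases Nat.lt_succ_iff_lt_or_eq.mp hi with h1 | h1
  · rw [Function.update_of_ne (by omega)] at this ⊢
    exact this
  · subst h1
    simp only [Function.update_self] at this ⊢
    omega

/-- One step of the choice of the bounding sequence. -/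
lemma step (μ : Measure α) (f : (ℕ → ℕ) → α) (a : ENNReal) (n : ℕ → ℕ) (k : ℕ)
    (h : a < μ (f '' cyl n k)) :
    ∃ m : ℕ, a < μ (f '' cyl (Function.update n k m) (k + 1)) := by
  rw [cyl_succ_eq, image_iUnion] at h
  have hm : Monotone fun m : ℕ => f '' cyl (Function.update n k m) (k + 1) :=
    fun m m' hmm => image_mono (mono_update n k hmm)
  rw [hm.measure_iUnion] at h
  obtain ⟨m, hm⟩ := lt_iSup_iff.mp h
  exact ⟨m, hm⟩

/-- The bounding sequence. -/
lemma exists_seq (μ : Measure α) (f : (ℕ → ℕ) → α) (a : ENNReal)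
    (h : a < μ (range f)) : ∃ n : ℕ → ℕ, ∀ k, a < μ (f '' cyl n k) := by
  classical
  have h0 : a < μ (f '' cyl (fun _ => 0) 0) := by
    have : cyl (fun _ => 0) 0 = univ := by
      ext x
      simp [cyl]
    rwa [this, image_univ]
  -- build the sequence of sequences
  let T := {n : (ℕ → ℕ) × ℕ // a < μ (f '' cyl n.1 n.2)}
  let nxt : T → T := fun t =>
    ⟨(Function.update t.1.1 t.1.2 (Classical.choose (step μ f a t.1.1 t.1.2 t.2)), t.1.2 + 1),
      Classical.choose_spec (step μ f a t.1.1 t.1.2 t.2)⟩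
  let s : ℕ → T := fun k => nxt^[k] ⟨(fun _ => 0, 0), h0⟩
  have hs : ∀ k, s (k + 1) = nxt (s k) := fun k => Function.iterate_succ_apply' _ _ _
  have hk : ∀ k, (s k).1.2 = k := by
    intro k
    induction k with
    | zero => rfl
    | succ k ih =>
      rw [hs]
      change (s k).1.2 + 1 = k + 1
      rw [ih]
  have hst : ∀ k i, i < k → (s (k + 1)).1.1 i = (s k).1.1 i := by
    intro k i hi
    rw [hs]
    change Function.update (s k).1.1 (s k).1.2 _ i = _
    rw [Function.update_of_ne]
    rw [hk]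
    omega
  have hst2 : ∀ k j i, i < k → (s (k + j)).1.1 i = (s k).1.1 i := by
    intro k j i hi
    induction j with
    | zero => rfl
    | succ j ih =>
      rw [← add_assoc, hst (k + j) i (by omega), ih]
  refine ⟨fun i => (s (i + 1)).1.1 i, fun k => ?_⟩
  have h1 := (s k).2
  have h2 : cyl (s k).1.1 (s k).1.2 = cyl (fun i => (s (i + 1)).1.1 i) k := by
    rw [hk]
    apply cyl_congr
    intro i hi
    obtain ⟨j, rfl⟩ : ∃ j, k = i + 1 + j := ⟨k - (i + 1), by omega⟩
    exact hst2 (i + 1) j i (by omega)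
  rwa [h2] at h1

lemma compact_box (n : ℕ → ℕ) : IsCompact {x : ℕ → ℕ | ∀ i, x i ≤ n i} := by
  have : {x : ℕ → ℕ | ∀ i, x i ≤ n i} = Set.pi univ fun i => Set.Iic (n i) := by
    ext x
    simp [Pi.le_def]
  rw [this]
  exact isCompact_univ_pi fun i => (Set.finite_Iic (n i)).isCompact

/-- The compact part of the image is the intersection of the closures of the partial images. -/
lemma iInter_closure (f : (ℕ → ℕ) → α) (hf : Continuous f) (n : ℕ → ℕ) :
    ⋂ k, closure (f '' cyl n k) ⊆ f '' {x : ℕ → ℕ | ∀ i, x i ≤ n i} := by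
  intro y hy
  by_contra hc
  have hK : IsCompact (f '' {x : ℕ → ℕ | ∀ i, x i ≤ n i}) := (compact_box n).image hf
  -- separate y from the compact set
  obtain ⟨U, V, hU, hV, hyU, hKV, hUV⟩ := SeparatedNhds.of_isCompact_isCompact
    (isCompact_singleton (x := y)) hK (by simpa using hc)
  have hyU : y ∈ U := hyU rfl
  -- choose bad points
  have hbad : ∀ k, ∃ z ∈ cyl n k, f z ∈ U := by
    intro k
    have h1 := mem_iInter.mp hy k
    rw [mem_closure_iff] at h1
    obtain ⟨w, hwU, z, hz, rfl⟩ := h1 U hU hyU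
    exact ⟨z, hz, hwU⟩
  choose z hz hzU using hbad
  let x : ℕ → ℕ → ℕ := fun k i => min (z k i) (n i)
  have hx : ∀ k, x k ∈ {x : ℕ → ℕ | ∀ i, x i ≤ n i} := fun k i => min_le_right _ _
  obtain ⟨a, ha, φ, hφ, hlim⟩ := (compact_box n).tendsto_subseq hx
  have hz2 : Tendsto (z ∘ φ) atTop (𝓝 a) := by
    rw [tendsto_pi_nhds] at hlim ⊢
    intro i
    refine (hlim i).congr' ?_
    filter_upwards [eventually_ge_atTop (i + 1)] with j hj
    have h1 : i < φ j := lt_of_lt_of_le (Nat.lt_of_succ_le hj) (hφ.id_le j)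
    have h2 := hz (φ j) i h1
    simp only [Function.comp, x]
    exact min_eq_left h2
  have h3 : Tendsto (fun j => f (z (φ j))) atTop (𝓝 (f a)) := (hf.tendsto a).comp hz2
  have h4 : ∀ᶠ j in atTop, f (z (φ j)) ∈ V := h3 (hV.mem_nhds (hKV ⟨a, ha, rfl⟩))
  obtain ⟨j, hj⟩ := h4.exists
  exact hUV.le_bot ⟨hzU (φ j), hj⟩

/-- Inner approximation of an analytic set by compact sets. -/
lemma exists_compact_lt (μ : Measure α) [IsFiniteMeasure μ] {s : Set α} (hs : AnalyticSet s)
    (a : ENNReal) (ha : a < μ s) : ∃ K ⊆ s, IsCompact K ∧ a ≤ μ K := by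
  rw [AnalyticSet] at hs
  rcases hs with rfl | ⟨f, hf, rfl⟩
  · simp at ha
  obtain ⟨n, hn⟩ := exists_seq μ f a ha
  refine ⟨f '' {x : ℕ → ℕ | ∀ i, x i ≤ n i}, image_subset_range _ _, (compact_box n).image hf, ?_⟩
  refine le_trans ?_ (measure_mono (iInter_closure f hf n))
  have hanti : Antitone fun k => closure (f '' cyl n k) := by
    intro k l hkl
    refine closure_mono (image_mono ?_)
    intro x hx i hi
    exact hx i (lt_of_lt_of_le hi hkl)
  rw [hanti.measure_iInter (fun k => isClosed_closure.measurableSet.nullMeasurableSet)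
    ⟨0, measure_ne_top _ _⟩]
  refine le_iInf fun k => ?_
  exact (hn k).le.trans (measure_mono subset_closure)

/-- Analytic sets are universally measurable. -/
theorem nullMeasurableSet_of_analyticSet (μ : Measure α) [IsFiniteMeasure μ] {s : Set α}
    (hs : AnalyticSet s) : NullMeasurableSet s μ := by
  -- a measurable subset of the same measure
  obtain ⟨t, hts, htm, hμ⟩ : ∃ t ⊆ s, MeasurableSet t ∧ μ s ≤ μ t := by
    rcases eq_or_ne (μ s) 0 with h0 | h0
    · exact ⟨∅, empty_subset _, MeasurableSet.empty, by simp [h0]⟩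
    obtain ⟨u, -, hu, hlim⟩ := exists_seq_strictMono_tendsto' (pos_iff_ne_zero.mpr h0)
    have h1 : ∀ k, ∃ K ⊆ s, IsCompact K ∧ u k ≤ μ K := fun k =>
      exists_compact_lt μ hs (u k) (hu k).2
    choose K hK hKc hKu using h1
    refine ⟨⋃ k, K k, iUnion_subset hK, MeasurableSet.iUnion fun k => (hKc k).measurableSet, ?_⟩
    exact le_of_tendsto' hlim fun k => (hKu k).trans (measure_mono (subset_iUnion _ _))
  have h2 : s =ᵐ[μ] t := by
    have h3 : μ (toMeasurable μ s \ t) = 0 := by
      rw [measure_sdiff (hts.trans (subset_toMeasurable μ s)) htm.nullMeasurableSet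
        (measure_ne_top _ _), measure_toMeasurable]
      exact tsub_eq_zero_of_le hμ
    have h4 : μ (s \ t) = 0 :=
      measure_mono_null (sdiff_subset_sdiff_left (subset_toMeasurable μ s)) h3
    have h5 : μ (t \ s) = 0 := by
      rw [sdiff_eq_empty.mpr hts]
      simp
    exact ae_eq_set.mpr ⟨h4, h5⟩
  exact htm.nullMeasurableSet.congr h2.symm

end Pool.Agent.BMR
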