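import Pool.Agent.Lib.BMR.Rem
import Pool.Agent.Lib.BMR.Scale

/-!
The zero one law for conformal removability of the planar Brownian trace.
-/

open MeasureTheory Set Filter Topology ProbabilityTheory

namespace Pool.Agent.BMR

set_option linter.unusedSectionVars false

/-- A dense sequence of times in `[0,1]`. -/
noncomputable def tt (i : ℕ) : ℝ := (TopologicalSpace.denseSeq (Set.Icc (0 : ℝ) 1) i : ℝ)

lemma tt_mem (i : ℕ) : tt i ∈ Set.Icc (0 : ℝ) 1 := Subtype.property _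

lemma closure_range_tt (γ : ℝ → ℂ) (hγ : Continuous γ) :
    closure (range fun i => γ (tt i)) = γ '' Set.Icc (0 : ℝ) 1 := by
  apply Subset.antisymm
  · refine closure_minimal ?_ (isCompact_Icc.image hγ).isClosed
    rintro _ ⟨i, rfl⟩
    exact ⟨tt i, tt_mem i, rfl⟩
  · rintro _ ⟨u, hu, rfl⟩
    have h1 : (⟨u, hu⟩ : Set.Icc (0 : ℝ) 1) ∈
        closure (range (TopologicalSpace.denseSeq (Set.Icc (0 : ℝ) 1))) :=
      (TopologicalSpace.denseRange_denseSeq _) _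
    have h2 : Continuous fun x : Set.Icc (0 : ℝ) 1 => γ x := hγ.comp continuous_subtype_val
    have h3 := image_closure_subset_closure_image h2 ⟨_, h1, rfl⟩
    rw [← range_comp] at h3
    exact h3

variable {Ω : Type} [MeasurableSpace Ω] {P : Measure Ω} {B : ℝ → Ω → ℂ}

/-- The trace on a time interval. -/
def tr (B : ℝ → Ω → ℂ) (s t : ℝ) (ω : Ω) : Set ℂ := (fun u => B u ω) '' Set.Icc s t

lemma tr_mono {s t s' t' : ℝ} (hs : s' ≤ s) (ht : t ≤ t') (ω : Ω) : tr B s t ω ⊆ tr B s' t' ω :=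
  image_mono (Icc_subset_Icc hs ht)

lemma seg_image (h : IsPBM P B) {s t : ℝ} (hst : s < t) (ω : Ω) :
    closure (range fun i => seg B s t (tt i) ω) =
      (fun z => (((Real.sqrt (t - s))⁻¹ : ℝ) : ℂ) * z +
        (-((((Real.sqrt (t - s))⁻¹ : ℝ) : ℂ) * B s ω))) '' tr B s t ω := by
  have hc : Continuous fun u => seg B s t u ω := by
    unfold seg
    have h1 : Continuous fun u : ℝ => B (s + u * (t - s)) ω := (h.cont ω).comp (by fun_prop)
    exact continuous_const.mul (h1.sub continuous_const)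
  rw [closure_range_tt _ hc]
  have hd : 0 < t - s := sub_pos.mpr hst
  ext z
  simp only [tr, mem_image]
  constructor
  · rintro ⟨u, hu, rfl⟩
    refine ⟨B (s + u * (t - s)) ω, ⟨s + u * (t - s), ⟨?_, ?_⟩, rfl⟩, ?_⟩
    · nlinarith [hu.1]
    · nlinarith [hu.2]
    · unfold seg
      ring
  · rintro ⟨_, ⟨v, hv, rfl⟩, rfl⟩
    refine ⟨(v - s) / (t - s), ⟨div_nonneg (by linarith [hv.1]) hd.le, ?_⟩, ?_⟩
    · rw [div_le_one hd]
      linarith [hv.2]
    · unfold seg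
      have : s + (v - s) / (t - s) * (t - s) = v := by
        field_simp
        ring
      rw [this]
      ring

lemma nonRem_seg_iff (h : IsPBM P B) {s t : ℝ} (hst : s < t) (ω : Ω) :
    (fun i => seg B s t (tt i) ω) ∈ nonRem ↔ ¬ Removable (tr B s t ω) := by
  have h1 : ((((Real.sqrt (t - s))⁻¹ : ℝ) : ℂ)) ≠ 0 := by
    have : Real.sqrt (t - s) ≠ 0 := (Real.sqrt_pos.mpr (sub_pos.mpr hst)).ne'
    exact_mod_cast inv_ne_zero this
  change ¬ Removable (closure (range fun i => seg B s t (tt i) ω)) ↔ _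
  rw [seg_image h hst, removable_aff_iff _ _ h1]

/-- Complex coordinates from the real coordinates. -/
def toC (y : ℕ × Bool → ℝ) (i : ℕ) : ℂ := ⟨y (i, true), y (i, false)⟩

lemma measurable_toC : Measurable toC := by
  refine measurable_pi_lambda _ fun i => ?_
  have : (fun y : ℕ × Bool → ℝ => toC y i) =
      fun y => ((y (i, true) : ℂ) + (y (i, false) : ℂ) * Complex.I) := by
    ext y
    exact Complex.mk_eq_add_mul_I _ _
  rw [this]
  fun_prop

/-- The real coordinates along the dense sequence of times. -/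
noncomputable def Y (B : ℝ → Ω → ℂ) (ω : Ω) (q : ℕ × Bool) : ℝ := co B (tt q.1, q.2) ω

lemma toC_Y (B : ℝ → Ω → ℂ) (ω : Ω) : toC (Y B ω) = fun i => B (tt i) ω := by
  ext i
  simp [toC, Y, co]

/-- The set of non removable real coordinate sequences. -/
def NRY : Set (ℕ × Bool → ℝ) := toC ⁻¹' nonRem

lemma nullMeasurableSet_NRY (μ : Measure (ℕ × Bool → ℝ)) [IsFiniteMeasure μ] :
    NullMeasurableSet NRY μ :=
  (nullMeasurableSet_nonRem (μ.map toC)).preimage
    (measurable_toC.measurePreserving μ).quasiMeasurePreserving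

lemma exists_meas (μ : Measure (ℕ × Bool → ℝ)) [IsFiniteMeasure μ] :
    ∃ A : Set (ℕ × Bool → ℝ), MeasurableSet A ∧ A =ᵐ[μ] NRY := by
  obtain ⟨A, -, hA, hAe⟩ := (nullMeasurableSet_NRY μ).exists_measurable_superset_ae_eq
  exact ⟨A, hA, hAe⟩

lemma IsPBM.aemeasurable_Y (h : IsPBM P B) : AEMeasurable (Y B) P :=
  aemeasurable_pi_lambda _ fun q => h.aemeasurable_co (tt q.1, q.2) (tt_mem q.1)

/-- The event that the trace on `[s,t]` is not removable. -/
def NR (B : ℝ → Ω → ℂ) (s t : ℝ) : Set Ω := {ω | ¬ Removable (tr B s t ω)}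

lemma NR_eq (h : IsPBM P B) {s t : ℝ} (hst : s < t) :
    NR B s t = Y (seg B s t) ⁻¹' NRY := by
  ext ω
  change ¬ Removable (tr B s t ω) ↔ toC (Y (seg B s t) ω) ∈ nonRem
  rw [toC_Y, nonRem_seg_iff h hst]

lemma NR_null [IsFiniteMeasure P] (h : IsPBM P B) {s t : ℝ} (hs : 0 ≤ s) (hst : s < t)
    (ht : t ≤ 1) : NullMeasurableSet (NR B s t) P := by
  rw [NR_eq h hst]
  have hY := (h.isPBM_seg hs hst ht).aemeasurable_Y
  obtain ⟨A, hA, hAe⟩ := exists_meas (P.map (Y (seg B s t)))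
  have h1 : NullMeasurableSet (Y (seg B s t) ⁻¹' A) P := hY.nullMeasurableSet_preimage hA
  refine h1.congr ?_
  have h2 := ae_of_ae_map hY hAe.mem_iff
  filter_upwards [h2] with ω hω
  exact propext hω

/-- The law is universal. -/
lemma NR_meas [IsFiniteMeasure P] {Ω' : Type} [MeasurableSpace Ω'] {P' : Measure Ω'}
    [IsFiniteMeasure P'] {B' : ℝ → Ω' → ℂ} (h : IsPBM P B) (h' : IsPBM P' B')
    {s t : ℝ} (hs : 0 ≤ s) (hst : s < t) (ht : t ≤ 1)
    {s' t' : ℝ} (hs' : 0 ≤ s') (hst' : s' < t') (ht' : t' ≤ 1) :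
    P (NR B s t) = P' (NR B' s' t') := by
  rw [NR_eq h hst, NR_eq h' hst']
  have g := h.isPBM_seg hs hst ht
  have g' := h'.isPBM_seg hs' hst' ht'
  have e := map_unique g g' (T := ℕ × Bool) (fun q => (tt q.1, q.2)) inferInstance
    (fun q => tt_mem q.1)
  rw [← Measure.map_apply₀ g.aemeasurable_Y (nullMeasurableSet_NRY _),
    ← Measure.map_apply₀ g'.aemeasurable_Y (nullMeasurableSet_NRY _)]
  have e' : P.map (Y (seg B s t)) = P'.map (Y (seg B' s' t')) := e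
  rw [e']

lemma NR_mono {s t s' t' : ℝ} (hs : s' ≤ s) (ht : t ≤ t') : NR B s t ⊆ NR B s' t' :=
  fun ω hω hc => hω (hc.mono (tr_mono hs ht ω))

/-- The zero one law. -/
theorem NR_zero_one [IsProbabilityMeasure P] (h : IsPBM P B) :
    P (NR B 0 1) = 0 ∨ P (NR B 0 1) = 1 := by
  have z1 : (0 : ℝ) < 1 / 2 := by norm_num
  have z2 : (1 / 2 : ℝ) < 1 := by norm_num
  have e1 : P (NR B 0 (1 / 2)) = P (NR B 0 1) := NR_meas h h le_rfl z1 z2.le le_rfl one_pos le_rfl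
  have e2 : P (NR B (1 / 2) 1) = P (NR B 0 1) := NR_meas h h z1.le z2 le_rfl le_rfl one_pos le_rfl
  have a1 : NR B 0 (1 / 2) =ᵐ[P] NR B 0 1 :=
    ae_eq_of_subset_of_measure_ge (NR_mono le_rfl z2.le) e1.ge (NR_null h le_rfl z1 z2.le)
      (measure_ne_top _ _)
  have a2 : NR B (1 / 2) 1 =ᵐ[P] NR B 0 1 :=
    ae_eq_of_subset_of_measure_ge (NR_mono z1.le le_rfl) e2.ge (NR_null h z1.le z2 le_rfl)
      (measure_ne_top _ _)
  have a3 : P (NR B 0 (1 / 2) ∩ NR B (1 / 2) 1) = P (NR B 0 1) := by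
    have := measure_congr (a1.inter a2)
    rwa [inter_self] at this
  -- independence
  have g1 := h.isPBM_seg le_rfl z1 z2.le
  have g2 := h.isPBM_seg z1.le z2 le_rfl
  have hind : IndepFun (Y (seg B 0 (1 / 2))) (Y (seg B (1 / 2) 1)) P := h.indep tt tt_mem
  have emap : P.map (Y (seg B 0 (1 / 2))) = P.map (Y (seg B (1 / 2) 1)) :=
    map_unique g1 g2 (T := ℕ × Bool) (fun q => (tt q.1, q.2)) inferInstance (fun q => tt_mem q.1)
  obtain ⟨A, hA, hAe⟩ := exists_meas (P.map (Y (seg B 0 (1 / 2))))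
  have b1 : (Y (seg B 0 (1 / 2)) ⁻¹' A : Set Ω) =ᵐ[P] NR B 0 (1 / 2) := by
    rw [NR_eq h z1]
    have h2 := ae_of_ae_map g1.aemeasurable_Y hAe.mem_iff
    filter_upwards [h2] with ω hω
    exact propext hω
  have b2 : (Y (seg B (1 / 2) 1) ⁻¹' A : Set Ω) =ᵐ[P] NR B (1 / 2) 1 := by
    rw [NR_eq h z2]
    rw [emap] at hAe
    have h2 := ae_of_ae_map g2.aemeasurable_Y hAe.mem_iff
    filter_upwards [h2] with ω hω
    exact propext hω
  have c := hind.measure_inter_preimage_eq_mul A A hA hA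
  rw [measure_congr b1, measure_congr b2, measure_congr (b1.inter b2), a3, e1, e2] at c
  -- p = p * p
  rcases eq_or_ne (P (NR B 0 1)) 0 with h0 | h0
  · exact Or.inl h0
  · right
    have hfin : P (NR B 0 1) ≠ ⊤ := measure_ne_top _ _
    have hc : P (NR B 0 1) * 1 = P (NR B 0 1) * P (NR B 0 1) := by rw [mul_one]; exact c
    exact ((ENNReal.mul_right_inj h0 hfin).mp hc).symm

/-- The dichotomy. -/
theorem dichotomy :
    (∀ (Ω : Type) [MeasurableSpace Ω] (P : Measure Ω) [IsProbabilityMeasure P] (B : ℝ → Ω → ℂ),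
      IsPBM P B → ∀ᵐ ω ∂P, ∀ K ⊆ (fun u => B u ω) '' Set.Icc (0 : ℝ) 1, Removable K) ∨
    (∀ (Ω : Type) [MeasurableSpace Ω] (P : Measure Ω) [IsProbabilityMeasure P] (B : ℝ → Ω → ℂ),
      IsPBM P B → ∀ᵐ ω ∂P, ∀ s t : ℝ, 0 ≤ s → s < t → t ≤ 1 →
        ∀ K : Set ℂ, (fun u => B u ω) '' Set.Icc s t ⊆ K → ¬ Removable K) := by
  by_cases hall : ∀ (Ω : Type) [MeasurableSpace Ω] (P : Measure Ω) [IsProbabilityMeasure P]
      (B : ℝ → Ω → ℂ), IsPBM P B → P (NR B 0 1) = 0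
  · left
    intro Ω _ P _ B h
    have h1 : ∀ᵐ ω ∂P, ω ∉ NR B 0 1 := measure_eq_zero_iff_ae_notMem.mp (hall Ω P B h)
    filter_upwards [h1] with ω hω K hK
    exact (not_not.mp hω).mono hK
  · right
    push Not at hall
    obtain ⟨Ω₀, _, P₀, _, B₀, h₀, hne⟩ := hall
    intro Ω _ P _ B h
    have hone : P₀ (NR B₀ 0 1) = 1 := (NR_zero_one h₀).resolve_left hne
    have h1 : ∀ q : ℚ × ℚ, ∀ᵐ ω ∂P, (0 ≤ (q.1 : ℝ) ∧ (q.1 : ℝ) < q.2 ∧ (q.2 : ℝ) ≤ 1) →
        ω ∈ NR B q.1 q.2 := by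
      intro q
      by_cases hq : 0 ≤ (q.1 : ℝ) ∧ (q.1 : ℝ) < q.2 ∧ (q.2 : ℝ) ≤ 1
      · have e : P (NR B q.1 q.2) = 1 := by
          rw [NR_meas h h₀ hq.1 hq.2.1 hq.2.2 le_rfl one_pos le_rfl]
          exact hone
        have e2 : P (NR B q.1 q.2)ᶜ = 0 :=
          (prob_compl_eq_zero_iff₀ (NR_null h hq.1 hq.2.1 hq.2.2)).mpr e
        have e3 : ∀ᵐ ω ∂P, ω ∉ (NR B q.1 q.2)ᶜ := measure_eq_zero_iff_ae_notMem.mp e2
        filter_upwards [e3] with ω hω _
        exact not_not.mp hω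
      · exact Eventually.of_forall fun ω hc => absurd hc hq
    filter_upwards [ae_all_iff.mpr h1] with ω hω s t hs hst ht K hK hrem
    obtain ⟨a, ha1, ha2⟩ := exists_rat_btwn hst
    obtain ⟨b, hb1, hb2⟩ := exists_rat_btwn ha2
    have h2 := hω (a, b) ⟨by simpa using hs.trans ha1.le, hb1, by simpa using hb2.le.trans ht⟩
    refine h2 (hrem.mono (Subset.trans ?_ hK))
    exact tr_mono ha1.le hb2.le ω

end Pool.Agent.BMR
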